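import Pool.Agent.Lib.MP_ef05c8_mp.Weak

/-!
Basic facts on convolutions and Fourier transforms of integrable real functions.
-/

open MeasureTheory Filter Topology Complex
open scoped ContDiff RealInnerProductSpace Convolution FourierTransform

namespace Pool.Agent.Lib.MP_ef05c8_mp

variable {d : ℕ}

lemma conv_eq (f g : Sp d → ℝ) : conv f g = f ⋆[ContinuousLinearMap.mul ℝ ℝ, volume] g := by
  ext x
  rw [convolution_mul_swap]
  rfl

lemma integrable_conv {f g : Sp d → ℝ} (hf : Integrable f) (hg : Integrable g) :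
    Integrable (conv f g) := by
  rw [conv_eq]
  exact hf.integrable_convolution _ hg

lemma integral_conv {f g : Sp d → ℝ} (hf : Integrable f) (hg : Integrable g) :
    ∫ x, conv f g x = (∫ x, f x) * ∫ x, g x := by
  rw [conv_eq, integral_convolution _ hf hg]
  rfl

lemma conv_nonneg {f g : Sp d → ℝ} (hf : ∀ x, 0 ≤ f x) (hg : ∀ x, 0 ≤ g x) (x : Sp d) :
    0 ≤ conv f g x :=
  integral_nonneg fun y => mul_nonneg (hf _) (hg y)

lemma conv_congr {f f' g g' : Sp d → ℝ} (hf : f =ᵐ[volume] f') (hg : g =ᵐ[volume] g') :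
    conv f g = conv f' g' := by
  ext x
  unfold conv
  apply integral_congr_ae
  have h1 : (fun y => f (x - y)) =ᵐ[volume] fun y => f' (x - y) :=
    (Measure.measurePreserving_sub_left volume x).quasiMeasurePreserving.ae_eq_comp hf
  filter_upwards [h1, hg] with y h1 h2
  rw [h1, h2]

lemma integrable_conv_integrand_left {f g : Sp d → ℝ} (hf : Integrable f) (hg : Integrable g)
    {A : ℝ} (hA : ∀ x, |f x| ≤ A) (x : Sp d) : Integrable fun y => f (x - y) * g y :=
  hg.bdd_mul (c := A) (hf.comp_sub_left x).aestronglyMeasurable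
    (Eventually.of_forall fun _ => hA _)

lemma conv_le_left {f g : Sp d → ℝ} (hf : Integrable f) (hg : Integrable g)
    {A : ℝ} (hf0 : ∀ x, 0 ≤ f x) (hA : ∀ x, f x ≤ A) (hg0 : ∀ x, 0 ≤ g x) (x : Sp d) :
    conv f g x ≤ A * ∫ y, g y := by
  rw [← integral_const_mul]
  refine integral_mono (integrable_conv_integrand_left hf hg (A := A)
    (fun x => by rw [abs_of_nonneg (hf0 x)]; exact hA x) x) (hg.const_mul A) fun y => ?_
  exact mul_le_mul_of_nonneg_right (hA _) (hg0 y)

lemma conv_le_right {f g : Sp d → ℝ} (hf : Integrable f)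
    {B : ℝ} (hf0 : ∀ x, 0 ≤ f x) (hg0 : ∀ x, 0 ≤ g x) (hB : ∀ x, g x ≤ B) (x : Sp d) :
    conv f g x ≤ (∫ y, f y) * B := by
  rw [← integral_sub_left_eq_self f volume x, ← integral_mul_const]
  refine integral_mono_of_nonneg (Eventually.of_forall fun y => mul_nonneg (hf0 _) (hg0 y))
    ((hf.comp_sub_left x).mul_const B) (Eventually.of_forall fun y => ?_)
  exact mul_le_mul_of_nonneg_left (hB _) (hf0 _)

lemma conv_mono_right {f g₁ g₂ : Sp d → ℝ} (hf : Integrable f) (hg₂ : Integrable g₂)
    {A : ℝ} (hf0 : ∀ x, 0 ≤ f x) (hA : ∀ x, f x ≤ A) (hg0 : ∀ x, 0 ≤ g₁ x)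
    (h : ∀ x, g₁ x ≤ g₂ x) (x : Sp d) : conv f g₁ x ≤ conv f g₂ x := by
  refine integral_mono_of_nonneg (Eventually.of_forall fun y => mul_nonneg (hf0 _) (hg0 y))
    (integrable_conv_integrand_left hf hg₂ (A := A)
      (fun x => by rw [abs_of_nonneg (hf0 x)]; exact hA x) x) (Eventually.of_forall fun y => ?_)
  exact mul_le_mul_of_nonneg_left (h _) (hf0 _)

/-- Fourier transform of a real function, with the convention `∫ f(x) exp(i ⟨k,x⟩) dx`. -/
noncomputable def ft (f : Sp d → ℝ) (k : Sp d) : ℂ :=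
  ∫ x, (f x : ℂ) * cexp ((⟪k, x⟫ : ℝ) * I)

lemma continuous_char (k : Sp d) : Continuous fun x : Sp d => cexp ((⟪k, x⟫ : ℝ) * I) := by
  fun_prop

lemma integrable_ft_integrand {f : Sp d → ℝ} (hf : Integrable f) (k : Sp d) :
    Integrable fun x => (f x : ℂ) * cexp ((⟪k, x⟫ : ℝ) * I) :=
  hf.ofReal.mul_bdd (c := 1) (continuous_char k).aestronglyMeasurable
    (Eventually.of_forall fun x => by rw [norm_exp_ofReal_mul_I])

lemma ft_re {f : Sp d → ℝ} (hf : Integrable f) (k : Sp d) :
    (ft f k).re = ∫ x, f x * Real.cos ⟪k, x⟫ := by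
  unfold ft
  rw [← RCLike.re_to_complex, ← integral_re (integrable_ft_integrand hf k)]
  refine integral_congr_ae (Eventually.of_forall fun x => ?_)
  simp [exp_ofReal_mul_I_re]

lemma ft_im {f : Sp d → ℝ} (hf : Integrable f) (k : Sp d) :
    (ft f k).im = ∫ x, f x * Real.sin ⟪k, x⟫ := by
  unfold ft
  rw [← RCLike.im_to_complex, ← integral_im (integrable_ft_integrand hf k)]
  refine integral_congr_ae (Eventually.of_forall fun x => ?_)
  simp [exp_ofReal_mul_I_im]

lemma norm_ft_le (f : Sp d → ℝ) (k : Sp d) : ‖ft f k‖ ≤ ∫ x, |f x| := by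
  refine (norm_integral_le_integral_norm _).trans (le_of_eq ?_)
  refine integral_congr_ae (Eventually.of_forall fun x => ?_)
  simp only [norm_mul, norm_exp_ofReal_mul_I, mul_one, norm_real, Real.norm_eq_abs]

lemma norm_ft_le_of_nonneg {f : Sp d → ℝ} (hf : ∀ x, 0 ≤ f x) (k : Sp d) :
    ‖ft f k‖ ≤ ∫ x, f x := by
  refine (norm_ft_le f k).trans (le_of_eq ?_)
  simp only [abs_of_nonneg (hf _)]

lemma ft_zero (f : Sp d → ℝ) : ft f 0 = ((∫ x, f x : ℝ) : ℂ) := by
  unfold ft
  simp [integral_complex_ofReal]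

lemma ft_add {f g : Sp d → ℝ} (hf : Integrable f) (hg : Integrable g) (k : Sp d) :
    ft (fun x => f x + g x) k = ft f k + ft g k := by
  unfold ft
  rw [← integral_add (integrable_ft_integrand hf k) (integrable_ft_integrand hg k)]
  refine integral_congr_ae (Eventually.of_forall fun x => ?_)
  simp only [ofReal_add]
  ring

lemma ft_sub {f g : Sp d → ℝ} (hf : Integrable f) (hg : Integrable g) (k : Sp d) :
    ft (fun x => f x - g x) k = ft f k - ft g k := by
  unfold ft
  rw [← integral_sub (integrable_ft_integrand hf k) (integrable_ft_integrand hg k)]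
  refine integral_congr_ae (Eventually.of_forall fun x => ?_)
  simp only [ofReal_sub]
  ring

lemma ft_const_mul (c : ℝ) (f : Sp d → ℝ) (k : Sp d) :
    ft (fun x => c * f x) k = c * ft f k := by
  unfold ft
  rw [← integral_const_mul]
  refine integral_congr_ae (Eventually.of_forall fun x => ?_)
  simp only [ofReal_mul]
  ring

lemma ft_congr {f g : Sp d → ℝ} (h : f =ᵐ[volume] g) (k : Sp d) : ft f k = ft g k := by
  unfold ft
  apply integral_congr_ae
  filter_upwards [h] with x hx
  rw [hx]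

lemma continuous_ft {f : Sp d → ℝ} (hf : Integrable f) : Continuous (ft f) := by
  refine continuous_of_dominated (bound := fun x => ‖f x‖)
    (fun k => (integrable_ft_integrand hf k).aestronglyMeasurable)
    (fun k => Eventually.of_forall fun x => ?_) hf.norm (Eventually.of_forall fun x => ?_)
  · simp only [norm_mul, norm_exp_ofReal_mul_I, mul_one, norm_real, le_refl]
  · fun_prop

lemma ft_conv {f g : Sp d → ℝ} (hf : Integrable f) (hg : Integrable g) (k : Sp d) :
    ft (conv f g) k = ft f k * ft g k := by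
  have h := integral_convolution (ContinuousLinearMap.mul ℂ ℂ) (μ := volume) (ν := volume)
    (integrable_ft_integrand hf k) (integrable_ft_integrand hg k)
  simp only [ContinuousLinearMap.mul_apply'] at h
  unfold ft
  rw [← h]
  refine integral_congr_ae (Eventually.of_forall fun x => ?_)
  simp only
  rw [convolution_mul_swap]
  unfold conv
  rw [← integral_complex_ofReal, ← integral_mul_const]
  refine integral_congr_ae (Eventually.of_forall fun y => ?_)
  have : cexp ((⟪k, x⟫ : ℝ) * I) = cexp ((⟪k, x - y⟫ : ℝ) * I) * cexp ((⟪k, y⟫ : ℝ) * I) := by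
    rw [← Complex.exp_add, inner_sub_right]
    congr 1
    push_cast
    ring
  simp only [this, ofReal_mul]
  ring

lemma ft_tendsto_zero (f : Sp d → ℝ) {k : Sp d} (hk : k ≠ 0) :
    Tendsto (fun t : ℝ => ft f (t • k)) atTop (𝓝 0) := by
  have h := tendsto_integral_exp_inner_smul_cocompact (fun x : Sp d => (f x : ℂ))
  have h2 : Tendsto (fun t : ℝ => (-(t / (2 * Real.pi))) • k) atTop (cocompact (Sp d)) := by
    rw [← Metric.cobounded_eq_cocompact, ← tendsto_norm_atTop_iff_cobounded]
    have hk' : 0 < ‖k‖ / (2 * Real.pi) := by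
      have := norm_pos_iff.mpr hk
      positivity
    refine (tendsto_id.atTop_mul_const hk').congr' ?_
    filter_upwards [eventually_ge_atTop 0] with t ht
    rw [norm_smul, norm_neg, Real.norm_eq_abs, abs_of_nonneg (by positivity)]
    simp only [id]
    ring
  refine (h.comp h2).congr fun t => ?_
  simp only [Function.comp, ft]
  refine integral_congr_ae (Eventually.of_forall fun x => ?_)
  simp only [Circle.smul_def, Real.fourierChar_apply, smul_eq_mul]
  rw [mul_comm]
  congr 2
  rw [inner_smul_right, real_inner_smul_left, real_inner_comm]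
  have : (Real.pi : ℂ) ≠ 0 := by exact_mod_cast Real.pi_ne_zero
  push_cast
  field_simp

theorem WeakEq.ft_eq {m : ℝ} {u F : Sp d → ℝ} (h : WeakEq m u F) (hu : Integrable u)
    (hF : Integrable F) (k : Sp d) : ((‖k‖ ^ 2 / m : ℝ) : ℂ) * ft u k = ft F k := by
  apply Complex.ext
  · rw [re_ofReal_mul, ft_re hu, ft_re hF, h.cos hu hF]
  · rw [im_ofReal_mul, ft_im hu, ft_im hF, h.sin hu hF]

lemma integrable_mul_cos {f : Sp d → ℝ} (hf : Integrable f) (k : Sp d) :
    Integrable fun x => f x * Real.cos ⟪k, x⟫ :=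
  hf.mul_bdd (c := 1) (by fun_prop) (Eventually.of_forall fun x => Real.abs_cos_le_one _)

lemma one_sub_cos_add_le (a b : ℝ) :
    1 - Real.cos (a + b) ≤ 2 * (1 - Real.cos a) + 2 * (1 - Real.cos b) := by
  rw [Real.cos_add]
  have ha := Real.sin_sq_add_cos_sq a
  have hb := Real.sin_sq_add_cos_sq b
  have h1 := Real.cos_le_one a
  have h2 := Real.cos_le_one b
  nlinarith [sq_nonneg (Real.sin a - Real.sin b), mul_nonneg (sub_nonneg.2 h1) (sub_nonneg.2 h2),
    sq_nonneg (1 - Real.cos a), sq_nonneg (1 - Real.cos b)]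

/-- Positive-definiteness inequality. -/
lemma ft_re_ineq {u : Sp d → ℝ} (hu : Integrable u) (h0 : ∀ x, 0 ≤ u x) (k₁ k₂ : Sp d) :
    (∫ x, u x) - (ft u (k₁ + k₂)).re ≤
      2 * ((∫ x, u x) - (ft u k₁).re) + 2 * ((∫ x, u x) - (ft u k₂).re) := by
  have hi : ∀ k : Sp d, Integrable fun x => 2 * (u x - u x * Real.cos ⟪k, x⟫) :=
    fun k => (hu.sub (integrable_mul_cos hu k)).const_mul 2
  rw [ft_re hu, ft_re hu, ft_re hu, ← integral_sub hu (integrable_mul_cos hu _),
    ← integral_sub hu (integrable_mul_cos hu _), ← integral_sub hu (integrable_mul_cos hu _),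
    ← integral_const_mul, ← integral_const_mul, ← integral_add (hi _) (hi _)]
  refine integral_mono (hu.sub (integrable_mul_cos hu _)) ((hi _).add (hi _)) fun x => ?_
  simp only [inner_add_left]
  have := mul_le_mul_of_nonneg_left (one_sub_cos_add_le ⟪k₁, x⟫ ⟪k₂, x⟫) (h0 x)
  nlinarith

lemma ft_re_le {u : Sp d → ℝ} (h0 : ∀ x, 0 ≤ u x) (k : Sp d) : (ft u k).re ≤ ∫ x, u x :=
  (re_le_norm _).trans (norm_ft_le_of_nonneg h0 k)

/-- For an even function the transform is real. -/
lemma ft_im_even {v : Sp d → ℝ} (hv : Integrable v) (he : ∀ x, v (-x) = v x) (k : Sp d) :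
    (ft v k).im = 0 := by
  rw [ft_im hv]
  have h := integral_neg_eq_self (fun x : Sp d => v x * Real.sin ⟪k, x⟫) volume
  simp only [he, inner_neg_right, Real.sin_neg, mul_neg, integral_neg] at h
  linarith

lemma ft_neg_re {v : Sp d → ℝ} (hv : Integrable v) (k : Sp d) :
    (ft v (-k)).re = (ft v k).re := by
  rw [ft_re hv, ft_re hv]
  simp only [inner_neg_left, Real.cos_neg]

/-- Replace an a.e. bounded function by an everywhere bounded one. -/
lemma InClass.exists_good {u : Sp d → ℝ} (h : InClass u) :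
    ∃ u' : Sp d → ℝ, Integrable u' ∧ (∀ x, 0 ≤ u' x) ∧ (∀ x, u' x ≤ 1) ∧ u =ᵐ[volume] u' := by
  have hae : u =ᵐ[volume] fun x => max 0 (min (u x) 1) := by
    filter_upwards [h.2] with x hx
    rw [min_eq_left hx.2, max_eq_right hx.1]
  refine ⟨fun x => max 0 (min (u x) 1), h.1.congr hae, fun x => le_max_left _ _,
    fun x => max_le zero_le_one (min_le_right _ _), hae⟩

lemma WeakEq.congr {m : ℝ} {u u' F F' : Sp d → ℝ} (h : WeakEq m u F) (hu : u =ᵐ[volume] u')
    (hF : F =ᵐ[volume] F') : WeakEq m u' F' := by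
  intro φ h1 h2
  have := h φ h1 h2
  calc _ = ∫ x, -(1 / m) * (u x * (Laplacian.laplacian φ) x) := by
        apply integral_congr_ae
        filter_upwards [hu] with x hx
        rw [hx]
    _ = _ := this
    _ = _ := by
        apply integral_congr_ae
        filter_upwards [hF] with x hx
        rw [hx]

lemma Sfun_congr {v u u' : Sp d → ℝ} (hu : u =ᵐ[volume] u') : Sfun v u =ᵐ[volume] Sfun v u' := by
  filter_upwards [hu] with x hx
  simp [Sfun, hx]

lemma mediumRHS_congr (ρ : ℝ) {v u u' : Sp d → ℝ} (hu : u =ᵐ[volume] u') :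
    mediumRHS ρ v u =ᵐ[volume] mediumRHS ρ v u' := by
  have h1 : conv u (Sfun v u) = conv u' (Sfun v u') := conv_congr hu (Sfun_congr hu)
  have h2 : conv u (conv u (Sfun v u)) = conv u' (conv u' (Sfun v u')) := by
    rw [h1]; exact conv_congr hu EventuallyEq.rfl
  filter_upwards [hu] with x hx
  unfold mediumRHS
  rw [h2, h1, hx]

lemma bigRHS_congr (ρ : ℝ) {v u u' : Sp d → ℝ} (hu : u =ᵐ[volume] u') :
    bigRHS ρ v u =ᵐ[volume] bigRHS ρ v u' := by
  have h1 : conv u (Sfun v u) = conv u' (Sfun v u') := conv_congr hu (Sfun_congr hu)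
  have h2 : conv u (conv u (Sfun v u)) = conv u' (conv u' (Sfun v u')) := by
    rw [h1]; exact conv_congr hu EventuallyEq.rfl
  have h3 : conv u (fun y => u y * conv u (Sfun v u) y)
      = conv u' (fun y => u' y * conv u' (Sfun v u') y) := by
    rw [h1]
    refine conv_congr hu ?_
    filter_upwards [hu] with x hx
    rw [hx]
  filter_upwards [hu] with x hx
  unfold bigRHS bigK bigL
  rw [h3, h2, h1, hx]

lemma integrable_Sfun {v u : Sp d → ℝ} (hv : Integrable v) (hu : Integrable u)
    (h0 : ∀ x, 0 ≤ u x) (h1 : ∀ x, u x ≤ 1) : Integrable (Sfun v u) := by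
  refine hv.bdd_mul (c := 1) (aestronglyMeasurable_const.sub hu.aestronglyMeasurable)
    (Eventually.of_forall fun x => ?_)
  rw [Real.norm_eq_abs, abs_le]
  constructor <;> linarith [h0 x, h1 x]

lemma Sfun_nonneg {v u : Sp d → ℝ} (hv : ∀ x, 0 ≤ v x) (h1 : ∀ x, u x ≤ 1) (x : Sp d) :
    0 ≤ Sfun v u x := mul_nonneg (sub_nonneg.2 (h1 x)) (hv x)

end Pool.Agent.Lib.MP_ef05c8_mp
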