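import Pool.Agent.Lib.MP_ef05c8_mp.Basic

/-!
Explicit radial potentials whose Fourier transform takes a negative value.
-/

open MeasureTheory Filter Topology Complex
open scoped RealInnerProductSpace

namespace Pool.Agent.Lib.MP_ef05c8_mp

variable {d : ℕ}

lemma integrable_gauss {b : ℝ} (hb : 0 < b) :
    Integrable fun x : Sp d => Real.exp (-b * ‖x‖ ^ 2) := by
  have h := (GaussianFourier.integrable_cexp_neg_mul_sq_norm_add (V := Sp d) (b := (b : ℂ))
    (by simpa using hb) 0 0).norm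
  refine h.congr (Eventually.of_forall fun x => ?_)
  simp only [zero_mul, add_zero, Complex.norm_exp]
  congr 1
  simp [sq]

lemma ft_gauss_re {b : ℝ} (hb : 0 < b) (k : Sp d) :
    (ft (fun x : Sp d => Real.exp (-b * ‖x‖ ^ 2)) k).re
      = (Real.pi / b) ^ ((d : ℝ) / 2) * Real.exp (-‖k‖ ^ 2 / (4 * b)) := by
  have h := GaussianFourier.integral_cexp_neg_mul_sq_norm_add (V := Sp d) (b := (b : ℂ))
    (by simpa using hb) I k
  have h1 : ft (fun x : Sp d => Real.exp (-b * ‖x‖ ^ 2)) k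
      = ∫ v : Sp d, cexp (-(b : ℂ) * ‖v‖ ^ 2 + I * ⟪k, v⟫) := by
    unfold ft
    refine integral_congr_ae (Eventually.of_forall fun x => ?_)
    simp only [ofReal_exp, Complex.exp_add]
    congr 2
    · push_cast; ring
    · ring
  have hp : 0 ≤ Real.pi / b := by positivity
  have h2 : ((Real.pi : ℂ) / b) ^ ((Module.finrank ℝ (Sp d) : ℂ) / 2)
      = (((Real.pi / b) ^ ((d : ℝ) / 2) : ℝ) : ℂ) := by
    rw [ofReal_cpow hp]
    simp
  have h3 : cexp (I ^ 2 * ‖k‖ ^ 2 / (4 * b)) = ((Real.exp (-‖k‖ ^ 2 / (4 * b)) : ℝ) : ℂ) := by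
    rw [ofReal_exp, I_sq]
    congr 1
    push_cast
    ring
  rw [h1, h, h2, h3, ← ofReal_mul, ofReal_re]

/-- The difference of two Gaussians. -/
noncomputable def gdiff (d : ℕ) : Sp d → ℝ :=
  fun x => Real.exp (-‖x‖ ^ 2) - Real.exp (-2 * ‖x‖ ^ 2)

lemma gdiff_nonneg (x : Sp d) : 0 ≤ gdiff d x := by
  unfold gdiff
  rw [sub_nonneg]
  apply Real.exp_le_exp.mpr
  nlinarith [sq_nonneg ‖x‖]

lemma gdiff_le (x : Sp d) : gdiff d x ≤ Real.exp (-‖x‖ ^ 2) := by
  unfold gdiff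
  linarith [Real.exp_pos (-2 * ‖x‖ ^ 2)]

lemma gdiff_le_one (x : Sp d) : gdiff d x ≤ 1 :=
  (gdiff_le x).trans (Real.exp_le_one_iff.mpr (by nlinarith [sq_nonneg ‖x‖]))

lemma integrable_gauss_one : Integrable fun x : Sp d => Real.exp (-‖x‖ ^ 2) := by
  simpa using integrable_gauss (d := d) one_pos

lemma integrable_gdiff : Integrable (gdiff d) :=
  integrable_gauss_one.sub (integrable_gauss two_pos)

lemma gdiff_ft_neg (hd : 1 ≤ d) : ∃ k : Sp d, (ft (gdiff d) k).re < 0 := by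
  set c₁ := (Real.pi / 1) ^ ((d : ℝ) / 2) with hc₁
  set c₂ := (Real.pi / 2) ^ ((d : ℝ) / 2) with hc₂
  have h₁ : 0 < c₁ := by positivity
  have h₂ : 0 < c₂ := by positivity
  set t := Real.sqrt (8 * (c₁ / c₂)) with ht
  have ht2 : t ^ 2 = 8 * (c₁ / c₂) := Real.sq_sqrt (by positivity)
  let k : Sp d := EuclideanSpace.single ⟨0, hd⟩ t
  have hk : ‖k‖ ^ 2 = 8 * (c₁ / c₂) := by
    simp only [k, PiLp.norm_single, Real.norm_eq_abs, sq_abs, ht2]
  refine ⟨k, ?_⟩
  have e : gdiff d = fun x => Real.exp (-1 * ‖x‖ ^ 2) - Real.exp (-2 * ‖x‖ ^ 2) := by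
    ext x; simp [gdiff]
  rw [e, ft_sub (integrable_gauss one_pos) (integrable_gauss two_pos), sub_re,
    ft_gauss_re one_pos, ft_gauss_re two_pos, ← hc₁, ← hc₂, hk, sub_neg]
  set y := c₁ / c₂ with hy
  have hy0 : 0 < y := by positivity
  have e1 : -(8 * y) / (4 * 1) = -y + -y := by ring
  have e2 : -(8 * y) / (4 * 2) = -y := by ring
  rw [e1, e2, Real.exp_add, ← mul_assoc]
  apply mul_lt_mul_of_pos_right _ (Real.exp_pos _)
  have h3 : y < Real.exp y := by linarith [Real.add_one_le_exp y]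
  rw [Real.exp_neg, ← div_eq_mul_inv, div_lt_iff₀ (Real.exp_pos _)]
  calc c₁ = c₂ * y := by rw [hy]; field_simp
    _ < _ := by gcongr

lemma memLp_of_bounded_integrable {v : Sp d → ℝ} (hv : Integrable v) (h0 : ∀ x, 0 ≤ v x)
    {V : ℝ} (hV : ∀ x, v x ≤ V) {p : ℝ} (hp : 1 ≤ p) : MemLp v (ENNReal.ofReal p) := by
  have hp0 : 0 < p := by linarith
  rw [← integrable_norm_rpow_iff hv.aestronglyMeasurable (by simpa using hp0)
    ENNReal.ofReal_ne_top, ENNReal.toReal_ofReal hp0.le]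
  refine (hv.const_mul (V ^ (p - 1))).mono'
    (hv.aestronglyMeasurable.norm.aemeasurable.pow_const p).aestronglyMeasurable
    (Eventually.of_forall fun x => ?_)
  rw [Real.norm_eq_abs, Real.norm_eq_abs, abs_of_nonneg (h0 x),
    abs_of_nonneg (Real.rpow_nonneg (h0 x) p)]
  have : v x ^ p = v x ^ (p - 1) * v x := by
    rw [← Real.rpow_add_one' (h0 x) (by linarith)]
    congr 1
    ring
  rw [this]
  exact mul_le_mul_of_nonneg_right (Real.rpow_le_rpow (h0 x) (hV x) (by linarith)) (h0 x)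

lemma admissible_of {v : Sp d → ℝ} (hv : Integrable v) (h0 : ∀ x, 0 ≤ v x)
    {V : ℝ} (hV : ∀ x, v x ≤ V) {k : Sp d} (hk : (ft v k).re < 0) : Admissible v := by
  refine ⟨h0, fun h => ?_, hv, max ((d : ℝ) / 2) 1 + 1, by linarith,
    memLp_of_bounded_integrable hv h0 hV (by linarith [le_max_right ((d : ℝ) / 2) 1])⟩
  rw [ft_congr h] at hk
  simp [ft] at hk

/-- The heavy tail `(1 + |x|)^(-(d+1))`. -/
noncomputable def heavy (d : ℕ) : Sp d → ℝ := fun x => ((1 + ‖x‖) ^ (d + 1))⁻¹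

lemma heavy_pos (x : Sp d) : 0 < heavy d x := by
  unfold heavy
  positivity

lemma heavy_le_one (x : Sp d) : heavy d x ≤ 1 := by
  unfold heavy
  exact inv_le_one_of_one_le₀ (one_le_pow₀ (by linarith [norm_nonneg x]))

lemma integrable_heavy : Integrable (heavy d) := by
  have h := integrable_one_add_norm (E := Sp d) (μ := volume) (r := ((d + 1 : ℕ) : ℝ))
    (by simp)
  refine h.congr (Eventually.of_forall fun x => ?_)
  simp only [heavy]
  rw [Real.rpow_neg (by positivity), Real.rpow_natCast]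

lemma sq_mul_heavy_le (hd : 1 ≤ d) (x : Sp d) : ‖x‖ ^ 2 * heavy d x ≤ 1 := by
  unfold heavy
  rw [← div_eq_mul_inv, div_le_one (by positivity)]
  calc ‖x‖ ^ 2 ≤ (1 + ‖x‖) ^ 2 := by gcongr; linarith
    _ ≤ _ := pow_le_pow_right₀ (by linarith [norm_nonneg x]) (by omega)

lemma not_integrable_sq_mul_heavy (hd : 1 ≤ d) :
    ¬ Integrable fun x : Sp d => ‖x‖ ^ 2 * heavy d x := by
  intro h
  have : Nonempty (Fin d) := ⟨⟨0, hd⟩⟩
  have h1 := (integrable_fun_norm_addHaar (E := Sp d) (μ := volume)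
    (f := fun r : ℝ => r ^ 2 * ((1 + r) ^ (d + 1))⁻¹)).mp h
  have h2 := h1.mono_set (Set.Ioi_subset_Ioi zero_le_one)
  have h3 : IntegrableOn (fun _ : ℝ => ((2 : ℝ) ^ (d + 1))⁻¹) (Set.Ioi 1) := by
    refine h2.mono' aestronglyMeasurable_const ?_
    rw [ae_restrict_iff' measurableSet_Ioi]
    refine Eventually.of_forall fun r hr => ?_
    have hr1 : (1 : ℝ) < r := hr
    simp only [finrank_euclideanSpace, Fintype.card_fin, smul_eq_mul]
    rw [Real.norm_eq_abs, abs_of_pos (by positivity), ← mul_assoc, ← pow_add,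
      show d - 1 + 2 = d + 1 by omega, ← div_eq_mul_inv, ← div_pow, ← inv_pow]
    gcongr
    rw [le_div_iff₀ (by positivity)]
    linarith
  rw [integrableOn_const_iff] at h3
  rcases h3 with h3 | h3
  · simp at h3
  · simp at h3

lemma sq_mul_gdiff_le (x : Sp d) : ‖x‖ ^ 2 * gdiff d x ≤ 1 := by
  calc ‖x‖ ^ 2 * gdiff d x ≤ ‖x‖ ^ 2 * Real.exp (-‖x‖ ^ 2) := by
        gcongr; exact gdiff_le x
    _ ≤ 1 := by
        rw [Real.exp_neg, ← div_eq_mul_inv, div_le_one (Real.exp_pos _)]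
        linarith [Real.add_one_le_exp (‖x‖ ^ 2)]

end Pool.Agent.Lib.MP_ef05c8_mp
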