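import Pool.Agent.Lib.MP_ef05c8_mp.BigBound
import Pool.Agent.Lib.MP_ef05c8_mp.Example

/-!
Non-existence for the Big Equation at high density.
-/

open MeasureTheory Filter Topology Complex
open scoped RealInnerProductSpace

namespace Pool.Agent.Lib.MP_ef05c8_mp

variable {d : ℕ}

/-- The difference between the Big and the Medium right-hand sides. -/
noncomputable def Ef (ρ : ℝ) (v u : Sp d → ℝ) : Sp d → ℝ :=
  fun x => 2 * ρ * (u x * Tf v u x) - ρ ^ 2 * (u x * Pf v u x)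
    - 2 * ρ ^ 2 * ((1 - u x) * Qf v u x)

lemma bigRHS_eq_add (ρ : ℝ) (v u : Sp d → ℝ) :
    bigRHS ρ v u = fun x => mediumRHS ρ v u x + Ef ρ v u x := by
  rw [bigRHS_eq]
  ext x
  simp only [mediumRHS, Ef, Wf, Sfun, Tf, Pf]
  ring

namespace Pair

variable {v u : Sp d → ℝ} {V : ℝ} (p : Pair v u V)
include p

lemma hE (ρ : ℝ) : Integrable (Ef ρ v u) :=
  ((p.huT.const_mul _).sub ((p.mul_int p.hP).const_mul _)).sub
    ((p.one_sub_mul_int p.hQ).const_mul _)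

lemma int_mul_le {g : Sp d → ℝ} (hg : Integrable g) {b : ℝ} (gb : ∀ x, g x ≤ b) :
    ∫ x, u x * g x ≤ (∫ x, u x) * b := by
  rw [← integral_mul_const]
  exact integral_mono (p.mul_int hg) (p.hu.mul_const b) fun x =>
    mul_le_mul_of_nonneg_left (gb x) (p.u0 x)

lemma norm_ft_E {ρ : ℝ} (hρ : 0 < ρ) (hN : ρ * ∫ x, u x ≤ 25) (k : Sp d) :
    ‖(ρ : ℂ) * ft (Ef ρ v u) k‖ ≤ 48125 * V := by
  have M0 := p.M0
  have V0 := p.V0
  have i1 := p.huT.const_mul (2 * ρ)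
  have i2 := (p.mul_int p.hP).const_mul (ρ ^ 2)
  have i3 := p.hQ.const_mul (2 * ρ ^ 2)
  have i12 : Integrable fun x => 2 * ρ * (u x * Tf v u x) + ρ ^ 2 * (u x * Pf v u x) := i1.add i2
  have a1 := p.int_mul_le p.hT p.TV
  have a2 := p.int_mul_le p.hP p.PV
  have a3 : ∫ x, Qf v u x ≤ (∫ x, u x) * ((∫ x, u x) * ((∫ x, u x) * V)) := by
    rw [p.intQ]; gcongr
  have h1 : ∫ x, |Ef ρ v u x| ≤ 2 * ρ * (∫ x, u x * Tf v u x) + ρ ^ 2 * (∫ x, u x * Pf v u x)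
      + 2 * ρ ^ 2 * ∫ x, Qf v u x := by
    rw [← integral_const_mul, ← integral_const_mul, ← integral_const_mul, ← integral_add i1 i2,
      ← integral_add i12 i3]
    refine integral_mono (p.hE ρ).abs (i12.add i3) fun x => ?_
    have b1 : 0 ≤ 2 * ρ * (u x * Tf v u x) := mul_nonneg (by positivity) (p.uT0 x)
    have b2 : 0 ≤ ρ ^ 2 * (u x * Pf v u x) :=
      mul_nonneg (by positivity) (mul_nonneg (p.u0 x) (p.P0 x))
    have b3 : 0 ≤ 2 * ρ ^ 2 * ((1 - u x) * Qf v u x) :=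
      mul_nonneg (by positivity) (mul_nonneg (sub_nonneg.mpr (p.u1 x)) (p.Q0 x))
    have b4 : 0 ≤ 2 * ρ ^ 2 * (u x * Qf v u x) :=
      mul_nonneg (by positivity) (mul_nonneg (p.u0 x) (p.Q0 x))
    simp only [Ef]
    rw [abs_le]
    constructor <;> nlinarith
  rw [norm_mul, norm_real, Real.norm_eq_abs, abs_of_pos hρ]
  set M := ∫ x, u x with hM
  set N := ρ * M with hNdef
  have hN0 : 0 ≤ N := by positivity
  calc ρ * ‖ft (Ef ρ v u) k‖ ≤ ρ * (2 * ρ * (M * (M * V)) + ρ ^ 2 * (M * (M * (M * V)))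
        + 2 * ρ ^ 2 * (M * (M * (M * V)))) := by
        gcongr
        refine (norm_ft_le _ k).trans (h1.trans ?_)
        gcongr
    _ = (2 * N ^ 2 + 3 * N ^ 3) * V := by rw [hNdef]; ring
    _ ≤ (2 * 25 ^ 2 + 3 * 25 ^ 3) * V := by gcongr
    _ = _ := by norm_num

lemma ft_bigRHS (ρ : ℝ) (k : Sp d) :
    ft (bigRHS ρ v u) k = ft (Sfun v u) k * (1 - ρ * ft u k) ^ 2 + ft (Ef ρ v u) k := by
  rw [bigRHS_eq_add, ft_add (integrable_mediumRHS ρ p.hS p.hu) (p.hE ρ),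
    ft_mediumRHS ρ p.hS p.hu]

lemma not_integrable_S {C : ℝ} (hC : ∀ x, ‖x‖ ^ 2 * v x ≤ C)
    (hn : ¬ Integrable fun x => ‖x‖ ^ 2 * v x) :
    ¬ Integrable fun x => ‖x‖ ^ 2 * Sfun v u x := by
  intro h
  apply hn
  have h1 : Integrable fun x => u x * (‖x‖ ^ 2 * v x) := by
    refine p.hu.mul_bdd (c := C) ((by fun_prop : AEStronglyMeasurable
      (fun x : Sp d => ‖x‖ ^ 2) volume).mul p.hv.aestronglyMeasurable)
      (Eventually.of_forall fun x => ?_)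
    rw [Real.norm_eq_abs, abs_of_nonneg (mul_nonneg (sq_nonneg _) (p.v0 x))]
    exact hC x
  refine (h.add h1).congr (Eventually.of_forall fun x => ?_)
  simp only [Sfun, Pi.add_apply]
  ring

end Pair

theorem big_no_solution (hd : 1 ≤ d) {m : ℝ} (hm : 0 < m) {v : Sp d → ℝ} (hv : Integrable v)
    (hv0 : ∀ x, 0 ≤ v x) (he : ∀ x, v (-x) = v x) {V : ℝ} (hV : ∀ x, v x ≤ V) {C : ℝ}
    (hC : ∀ x, ‖x‖ ^ 2 * v x ≤ C) (hn : ¬ Integrable fun x => ‖x‖ ^ 2 * v x) {k : Sp d}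
    (hk : ∫ x, v x * Real.cos ⟪k, x⟫ < 0) :
    ∃ θ₀ : ℝ, 0 < θ₀ ∧ ∀ θ, 0 < θ → θ ≤ θ₀ → ∃ ρ₀ : ℝ, 0 < ρ₀ ∧ ∀ ρ, ρ₀ ≤ ρ →
      ¬ ∃ u, IsBigSolution m ρ (fun x => θ * v x) u := by
  rw [← ft_re hv] at hk
  obtain ⟨k₁, k₂, hk₁, hk₂, hk₃, w₁, w₂, w₃⟩ := choose_k hv hv0 hk
  have pos : ∀ q : Sp d, q ≠ 0 → 0 < ‖q‖ ^ 2 / m := fun q hq => by
    have := norm_pos_iff.mpr hq
    positivity
  obtain ⟨δ, hδ, H⟩ := core (pos _ hk₁) (pos _ hk₂) (pos _ hk₃) w₁ w₂ w₃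
  have hw0 := integral_pos_of_ft_neg hv0 hk
  set w₀ := ∫ x, v x with hw₀
  have V0 : 0 ≤ V := (hv0 0).trans (hV 0)
  set δ' := min δ (δ * w₀ / 2) with hδ'
  have hδ'0 : 0 < δ' := lt_min hδ (by positivity)
  refine ⟨δ' / (48125 * (V + 1)), by positivity, fun θ hθ hθδ => ?_⟩
  have hθ' : 48125 * (θ * V) ≤ δ' := by
    rw [le_div_iff₀ (by positivity)] at hθδ
    nlinarith
  set c := min δ (w₀ / 2) with hc
  have hc0 : 0 < c := lt_min hδ (by positivity)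
  refine ⟨max (1 / (θ * δ)) (25 * V / c), by positivity, fun ρ hρ ⟨u', hu', hw'⟩ => ?_⟩
  have hρ0 : 0 < ρ := lt_of_lt_of_le (by positivity) hρ
  obtain ⟨u, hu, h0, h1, hae⟩ := hu'.exists_good
  have hw : WeakEq m u (bigRHS ρ (fun x => θ * v x) u) := hw'.congr hae (bigRHS_congr ρ hae)
  have p : Pair (fun x => θ * v x) u (θ * V) :=
    ⟨hv.const_mul θ, fun x => mul_nonneg hθ.le (hv0 x),
      fun x => mul_le_mul_of_nonneg_left (hV x) hθ.le, hu, h0, h1⟩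
  have p' : Pair v u V := ⟨hv, hv0, hV, hu, h0, h1⟩
  have hSθ : Sfun (fun x => θ * v x) u = fun x => θ * Sfun v u x := by
    ext x; simp only [Sfun]; ring
  have hnS : ¬ Integrable fun x => ‖x‖ ^ 2 * Sfun (fun x => θ * v x) u x := by
    intro h
    apply p'.not_integrable_S hC hn
    refine (h.const_mul θ⁻¹).congr (Eventually.of_forall fun x => ?_)
    simp only [hSθ]
    field_simp
  have hN := big_mass_le hd hρ0 p hnS hw
  have hε : 1 / (θ * ρ) ≤ δ := by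
    have := (le_max_left _ _).trans hρ
    rw [div_le_iff₀ (by positivity)] at this ⊢
    linarith
  have huv : ∫ x, u x * v x ≤ c := by
    have a1 := p'.int_mul_le hv hV
    have a2 := (le_max_right _ _).trans hρ
    rw [div_le_iff₀ hc0] at a2
    have a3 : ρ * ∫ x, u x * v x ≤ ρ * c := by
      calc _ ≤ ρ * ((∫ x, u x) * V) := by gcongr
        _ = (ρ * ∫ x, u x) * V := by ring
        _ ≤ 25 * V := by gcongr
        _ ≤ _ := a2
    exact le_of_mul_le_mul_left a3 hρ0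
  have ha : ∀ q : Sp d, ‖(ρ : ℂ) * ft u q‖ ≤ 25 := fun q => by
    rw [norm_mul, norm_real, Real.norm_eq_abs, abs_of_pos hρ0]
    have := mul_le_mul_of_nonneg_left (norm_ft_le_of_nonneg h0 q) hρ0.le
    linarith
  have hτ : ∀ q : Sp d, ‖-ft (fun x => u x * v x) q‖ ≤ δ := fun q => by
    rw [norm_neg]
    exact (norm_ft_le_of_nonneg (fun x => mul_nonneg (h0 x) (hv0 x)) q).trans
      (huv.trans (min_le_left _ _))
  have hζ' : ∀ q : Sp d, ‖-((ρ : ℂ) * ft (Ef ρ (fun x => θ * v x) u) q)‖ ≤ δ' := fun q => by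
    rw [norm_neg]
    exact (p.norm_ft_E hρ0 hN q).trans hθ'
  have hζ : ∀ q : Sp d, ‖-((ρ : ℂ) * ft (Ef ρ (fun x => θ * v x) u) q)‖ ≤ δ := fun q =>
    (hζ' q).trans (min_le_left _ _)
  have heq : ∀ q : Sp d, (1 - (ρ : ℂ) * ft u q) ^ 2 * (((ft v q).re : ℂ)
      + -ft (fun x => u x * v x) q)
      = ((1 / (θ * ρ) : ℝ) : ℂ) * (((‖q‖ ^ 2 / m : ℝ) : ℂ) * (ρ * ft u q)
        + -((ρ : ℂ) * ft (Ef ρ (fun x => θ * v x) u) q)) := fun q => by
    have e := hw.ft_eq hu (p.hF ρ) q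
    rw [p.ft_bigRHS, hSθ, ft_const_mul, ft_Sfun hv hu h0 h1] at e
    have hre : ((ft v q).re : ℂ) = ft v q := by
      apply Complex.ext <;> simp [ft_im_even hv he q]
    have hρc : (ρ : ℂ) ≠ 0 := by exact_mod_cast hρ0.ne'
    have hθc : (θ : ℂ) ≠ 0 := by exact_mod_cast hθ.ne'
    have e2 : (((‖q‖ ^ 2 / m : ℝ) : ℂ) * (ρ * ft u q))
        = ρ * (((‖q‖ ^ 2 / m : ℝ) : ℂ) * ft u q) := by ring
    rw [hre, e2, e]
    push_cast
    field_simp
    ring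
  have hN1 : (ρ * (∫ x, u x) - 1) ^ 2 ≤ δ * (1 / (θ * ρ)) := by
    have e := congrArg norm (heq 0)
    have e0 : (1 - (ρ : ℂ) * ft u 0) ^ 2 * (((ft v 0).re : ℂ) + -ft (fun x => u x * v x) 0)
        = (((1 - ρ * ∫ x, u x) ^ 2 * (w₀ - ∫ x, u x * v x) : ℝ) : ℂ) := by
      simp only [ft_zero, ofReal_re, hw₀]
      push_cast
      ring
    rw [e0, norm_real, norm_mul ((1 / (θ * ρ) : ℝ) : ℂ), norm_real] at e
    simp only [norm_zero, ne_eq, OfNat.ofNat_ne_zero, not_false_eq_true, zero_pow, zero_div,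
      ofReal_zero, zero_mul, zero_add, Real.norm_eq_abs] at e
    rw [abs_of_pos (a := 1 / (θ * ρ)) (by positivity)] at e
    have b1 := (hζ' 0).trans (min_le_right _ _)
    have b2 : w₀ / 2 ≤ w₀ - ∫ x, u x * v x := by linarith [huv.trans (min_le_right _ _)]
    have b3 : (1 - ρ * ∫ x, u x) ^ 2 * (w₀ / 2) ≤ δ * (1 / (θ * ρ)) * (w₀ / 2) := by
      calc _ ≤ (1 - ρ * ∫ x, u x) ^ 2 * (w₀ - ∫ x, u x * v x) := by gcongr
        _ ≤ _ := le_abs_self _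
        _ = _ := e
        _ ≤ 1 / (θ * ρ) * (δ * w₀ / 2) := by gcongr
        _ = _ := by ring
    have b4 := le_of_mul_le_mul_right b3 (by positivity)
    calc _ = (1 - ρ * ∫ x, u x) ^ 2 := by ring
      _ ≤ _ := b4
  refine H (1 / (θ * ρ)) (ρ * ∫ x, u x) _ _ _ _ _ _ _ _ _ (by positivity) hε (ha k₁) (ha k₂)
    (ha (k₁ + k₂)) (hτ k₁) (hτ k₂) (hτ (k₁ + k₂)) (hζ k₁) (hζ k₂) (hζ (k₁ + k₂))
    (heq k₁) (heq k₂) (heq (k₁ + k₂)) hN1 ?_ ?_
  · rw [re_ofReal_mul]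
    exact mul_le_mul_of_nonneg_left (ft_re_le h0 _) hρ0.le
  · simp only [re_ofReal_mul]
    have := mul_le_mul_of_nonneg_left (ft_re_ineq hu h0 k₁ k₂) hρ0.le
    linarith

theorem exists_heavy_potential (hd : 1 ≤ d) : ∃ v : Sp d → ℝ, Integrable v ∧ Continuous v ∧
    (∀ x, 0 ≤ v x) ∧ (∀ x y, ‖x‖ = ‖y‖ → v x = v y) ∧ (∃ V, ∀ x, v x ≤ V ∧ ‖x‖ ^ 2 * v x ≤ V) ∧
    (¬ Integrable fun x => ‖x‖ ^ 2 * v x) ∧ ∃ k, (ft v k).re < 0 := by
  obtain ⟨k, hk⟩ := gdiff_ft_neg hd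
  have hI : 0 ≤ ∫ x, heavy d x := integral_nonneg fun x => (heavy_pos x).le
  set ε := -(ft (gdiff d) k).re / (2 * ((∫ x, heavy d x) + 1)) with hε
  have hε0 : 0 < ε := div_pos (by linarith) (by positivity)
  refine ⟨fun x => gdiff d x + ε * heavy d x, integrable_gdiff.add (integrable_heavy.const_mul ε),
    ?_, fun x => add_nonneg (gdiff_nonneg x) (mul_nonneg hε0.le (heavy_pos x).le), ?_,
    ⟨1 + ε, fun x => ⟨?_, ?_⟩⟩, ?_, k, ?_⟩
  · unfold gdiff heavy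
    refine Continuous.add (by fun_prop) (continuous_const.mul (Continuous.inv₀ (by fun_prop) ?_))
    intro x
    positivity
  · intro x y hxy
    simp only [gdiff, heavy, hxy]
  · have := mul_le_mul_of_nonneg_left (heavy_le_one x) hε0.le
    linarith [gdiff_le_one x]
  · have := mul_le_mul_of_nonneg_left (sq_mul_heavy_le hd x) hε0.le
    have := sq_mul_gdiff_le x
    nlinarith
  · intro h
    apply not_integrable_sq_mul_heavy hd
    refine (h.const_mul ε⁻¹).mono' ((by fun_prop : AEStronglyMeasurable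
      (fun x : Sp d => ‖x‖ ^ 2) volume).mul integrable_heavy.aestronglyMeasurable)
      (Eventually.of_forall fun x => ?_)
    rw [Real.norm_eq_abs, abs_of_nonneg (mul_nonneg (sq_nonneg _) (heavy_pos x).le),
      ← div_eq_inv_mul, le_div_iff₀ hε0]
    have := mul_nonneg (sq_nonneg ‖x‖) (gdiff_nonneg x)
    nlinarith
  · rw [ft_add integrable_gdiff (integrable_heavy.const_mul ε), ft_const_mul, add_re,
      re_ofReal_mul]
    have a1 := ft_re_le (fun x : Sp d => (heavy_pos x).le) k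
    have a2 : ε * (ft (heavy d) k).re ≤ ε * ((∫ x, heavy d x) + 1) := by
      gcongr; linarith
    have a3 : ε * ((∫ x, heavy d x) + 1) = -(ft (gdiff d) k).re / 2 := by
      rw [hε]; field_simp
    linarith

end Pool.Agent.Lib.MP_ef05c8_mp
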