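import Pool.Agent.Lib.MP_ef05c8_mp.Core

/-!
The algebraic core of the non-existence argument for a frequency and its double.
-/

open Complex

namespace Pool.Agent.Lib.MP_ef05c8_mp

/-- The relations between the transforms at a frequency and at its double are contradictory. -/
def Obs (κ₁ κ₃ w₁ w₃ : ℝ) : Prop :=
  ∃ δ : ℝ, 0 < δ ∧ ∀ (ε N : ℝ) (a₁ a₃ τ₁ τ₃ ζ₁ ζ₃ : ℂ), 0 < ε → ε ≤ δ →
    ‖a₁‖ ≤ 25 → ‖a₃‖ ≤ 25 → ‖τ₁‖ ≤ δ → ‖τ₃‖ ≤ δ → ‖ζ₁‖ ≤ δ → ‖ζ₃‖ ≤ δ →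
    (1 - a₁) ^ 2 * (w₁ + τ₁) = ε * (κ₁ * a₁ + ζ₁) →
    (1 - a₃) ^ 2 * (w₃ + τ₃) = ε * (κ₃ * a₃ + ζ₃) →
    (N - 1) ^ 2 ≤ δ * ε → a₃.re ≤ N → N - a₃.re ≤ 4 * (N - a₁.re) → False

lemma re_sq_le {b : ℂ} {c η : ℝ} (hc : 0 ≤ c) (h : ‖b ^ 2 - (c : ℂ)‖ ≤ η) : b.re ^ 2 ≤ c + η := by
  have h1 : ‖b ^ 2‖ ≤ ‖b ^ 2 - (c : ℂ)‖ + ‖(c : ℂ)‖ := by
    have := norm_add_le (b ^ 2 - (c : ℂ)) c
    rwa [sub_add_cancel] at this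
  rw [norm_pow, norm_real, Real.norm_eq_abs, abs_of_nonneg hc] at h1
  have h2 : b.re ^ 2 ≤ ‖b‖ ^ 2 := by
    rw [← sq_abs]
    exact pow_le_pow_left₀ (abs_nonneg _) (abs_re_le_norm b) 2
  linarith

lemma le_re_sq {b : ℂ} {c η : ℝ} (h : ‖b ^ 2 - (c : ℂ)‖ ≤ η) : c - η ≤ b.re ^ 2 := by
  have h1 := (abs_re_le_norm _).trans h
  simp only [sub_re, ofReal_re, sq, mul_re] at h1
  have := (abs_le.mp h1).1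
  nlinarith [sq_nonneg b.im]

theorem core_two {κ w₁ w₃ : ℝ} (hκ : 0 < κ) (hw₃ : 0 < w₃) (hw : 4 * w₃ < w₁) :
    Obs κ (4 * κ) w₁ w₃ := by
  have hw₁ : 0 < w₁ := by linarith
  set A := Real.sqrt (κ / w₁) with hA
  set B := Real.sqrt (4 * κ / w₃) with hB
  have hA0 : 0 < A := Real.sqrt_pos.mpr (by positivity)
  have hB0 : 0 < B := Real.sqrt_pos.mpr (by positivity)
  have hA2 : A ^ 2 = κ / w₁ := Real.sq_sqrt (by positivity)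
  have hB2 : B ^ 2 = 4 * κ / w₃ := Real.sq_sqrt (by positivity)
  have hAB : 4 * A < B := by
    refine lt_of_pow_lt_pow_left₀ 2 hB0.le ?_
    rw [mul_pow, hA2, hB2, ← mul_div_assoc, div_lt_div_iff₀ hw₁ hw₃]
    nlinarith
  set s := (B - 4 * A) / 10 with hs
  have hs0 : 0 < s := by rw [hs]; linarith
  have hBs : B = 4 * A + 10 * s := by rw [hs]; ring
  obtain ⟨δ₁, hδ₁, H₁⟩ := approx_sq (η := s ^ 2) hκ hw₁.ne' (by positivity)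
  obtain ⟨δ₃, hδ₃, H₃⟩ := approx_sq (η := s ^ 2) (κ := 4 * κ) (by positivity) hw₃.ne'
    (by positivity)
  refine ⟨min (min δ₁ δ₃) (s ^ 2), by positivity, ?_⟩
  intro ε N a₁ a₃ τ₁ τ₃ ζ₁ ζ₃ hε hεδ ha₁ ha₃ hτ₁ hτ₃ hζ₁ hζ₃ e₁ e₃ hN hle hineq
  have hN' : (N - 1) ^ 2 ≤ ε * s ^ 2 := by
    refine hN.trans ?_
    rw [mul_comm]
    gcongr
    exact min_le_right _ _
  simp only [le_min_iff] at hεδ hτ₁ hτ₃ hζ₁ hζ₃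
  have x₁ := re_sq_le (by positivity) (H₁ ε a₁ τ₁ ζ₁ hε hεδ.1.1 ha₁ hτ₁.1.1 hζ₁.1.1 e₁)
  have x₃ := le_re_sq (H₃ ε a₃ τ₃ ζ₃ hε hεδ.1.2 ha₃ hτ₃.1.2 hζ₃.1.2 e₃)
  simp only [sub_re, one_re] at x₁ x₃
  rw [← hA2] at x₁
  rw [← hB2] at x₃
  set r := Real.sqrt ε with hr
  have hr0 : 0 < r := Real.sqrt_pos.mpr hε
  have hr2 : r ^ 2 = ε := Real.sq_sqrt hε.le
  rw [← hr2] at x₁ x₃ hN'
  have hrA := mul_pos hr0 hA0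
  have hrs := mul_pos hr0 hs0
  have y₀ := abs_le_of_sq_le_sq' (hN'.trans_eq (mul_pow r s 2).symm) hrs.le
  have y₁ := abs_le_of_sq_le_sq' (a := 1 - a₁.re) (b := r * A + r * s)
    (by nlinarith [mul_pos hrA hrs]) (by positivity)
  have y₃ : (1 - a₃.re) ^ 2 ≤ (4 * (r * A) + 7 * (r * s)) ^ 2 :=
    sq_le_sq' (by linarith [y₀.2]) (by linarith [y₀.2, y₁.2])
  rw [hBs] at x₃
  nlinarith [mul_pos hrA hrs, mul_pos hrs hrs]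

end Pool.Agent.Lib.MP_ef05c8_mp
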