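import Pool.Agent.Lib.MP_ef05c8_mp.Example

/-!
Potentials whose Fourier transform drops by more than a factor four when the frequency is doubled.
-/

open MeasureTheory Filter Topology Complex
open scoped RealInnerProductSpace

namespace Pool.Agent.Lib.MP_ef05c8_mp

variable {d : ℕ} {v : Sp d → ℝ}

lemma choose_zero (hv : Integrable v) (hpos : 0 < ∫ x, v x) {k : Sp d}
    (h : ¬ 0 < (ft v ((2 : ℝ) • k)).re) :
    ∃ q : Sp d, q ≠ 0 ∧ 0 < (ft v (q + q)).re ∧ 4 * (ft v (q + q)).re < (ft v q).re := by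
  have hz : (ft v 0).re = ∫ x, v x := by rw [ft_zero, ofReal_re]
  have hk0 : k ≠ 0 := by
    rintro rfl
    rw [smul_zero, hz] at h
    exact h hpos
  set f : ℝ → ℝ := fun t => (ft v (t • k)).re with hf
  have hc : Continuous f := (continuous_re.comp (continuous_ft hv)).comp (by fun_prop)
  have hK : IsCompact (Set.Icc (0 : ℝ) 2 ∩ {t | f t ≤ 0}) :=
    isCompact_Icc.inter_right (isClosed_le hc continuous_const)
  obtain ⟨T, ⟨⟨hT0, hT2⟩, hT⟩, hmin⟩ := hK.exists_isLeast ⟨2, ⟨zero_le_two, le_rfl⟩, not_lt.mp h⟩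
  have hlt : ∀ t, 0 ≤ t → t < T → 0 < f t := fun t h0 h1 => not_le.mp fun e =>
    absurd (hmin ⟨⟨h0, by linarith⟩, e⟩) (not_le.mpr h1)
  have hT' : f T ≤ 0 := hT
  have hTp : 0 < T := hT0.lt_of_ne fun e => by
    rw [← e, hf] at hT'
    simp only [zero_smul, hz] at hT'
    linarith
  have hg : Continuous fun t => f t - 4 * f (2 * t) := by fun_prop
  have e1 : ∀ᶠ t in 𝓝 (T / 2), 0 < f t - 4 * f (2 * t) := by
    apply hg.continuousAt.eventually (p := fun y => 0 < y)
    apply lt_mem_nhds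
    have := hlt (T / 2) (by linarith) (by linarith)
    simp only [show 2 * (T / 2) = T by ring]
    linarith
  have e2 : ∀ᶠ t in 𝓝[<] (T / 2), t < T / 2 ∧ 0 < t ∧ 0 < f t - 4 * f (2 * t) := by
    filter_upwards [self_mem_nhdsWithin, mem_nhdsWithin_of_mem_nhds e1,
      mem_nhdsWithin_of_mem_nhds (lt_mem_nhds (half_pos hTp))] with t a b c using ⟨a, c, b⟩
  obtain ⟨t, h1, h2, h3⟩ := e2.exists
  have e : t • k + t • k = (2 * t) • k := by rw [two_mul, add_smul]
  refine ⟨t • k, smul_ne_zero h2.ne' hk0, ?_, ?_⟩ <;> rw [e]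
  · exact hlt _ (by linarith) (by linarith)
  · exact sub_pos.mp h3

lemma choose_two (hv : Integrable v) (hpos : 0 < ∫ x, v x) {k : Sp d}
    (hk : 4 * (ft v ((2 : ℝ) • k)).re < (ft v k).re) :
    ∃ q : Sp d, q ≠ 0 ∧ 0 < (ft v (q + q)).re ∧ 4 * (ft v (q + q)).re < (ft v q).re := by
  by_cases h : 0 < (ft v ((2 : ℝ) • k)).re
  · refine ⟨k, ?_, by rwa [← two_smul ℝ k], by rwa [← two_smul ℝ k]⟩
    rintro rfl
    rw [smul_zero] at hk h
    linarith
  · exact choose_zero hv hpos h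

lemma drop_of_nonpos (hv : Integrable v) (hpos : 0 < ∫ x, v x) {k : Sp d}
    (hk : (ft v k).re ≤ 0) : ∃ q : Sp d, 4 * (ft v ((2 : ℝ) • q)).re < (ft v q).re := by
  obtain ⟨q, -, -, h⟩ := choose_zero hv hpos (k := (2 : ℝ)⁻¹ • k)
    (by rw [smul_inv_smul₀ two_ne_zero]; exact not_lt.mpr hk)
  exact ⟨q, by rwa [two_smul]⟩

/-- Gaussian averages of the potential. -/
noncomputable def gav (v : Sp d → ℝ) (s : ℝ) : ℝ := ∫ x, v x * Real.exp (-s * ‖x‖ ^ 2)

lemma gauss_le_one {s : ℝ} (hs : 0 ≤ s) (x : Sp d) : Real.exp (-s * ‖x‖ ^ 2) ≤ 1 :=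
  Real.exp_le_one_iff.mpr (by nlinarith [mul_nonneg hs (sq_nonneg ‖x‖)])

lemma integrable_gav (hv : Integrable v) {s : ℝ} (hs : 0 ≤ s) :
    Integrable fun x => v x * Real.exp (-s * ‖x‖ ^ 2) :=
  hv.mul_bdd (c := 1) (by fun_prop) (Eventually.of_forall fun x => by
    rw [Real.norm_eq_abs, abs_of_pos (Real.exp_pos _)]
    exact gauss_le_one hs x)

lemma integral_gauss {b : ℝ} (hb : 0 < b) :
    ∫ x : Sp d, Real.exp (-b * ‖x‖ ^ 2) = (Real.pi / b) ^ ((d : ℝ) / 2) := by
  have := ft_gauss_re (d := d) hb 0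
  rwa [ft_zero, ofReal_re, norm_zero, zero_pow two_ne_zero, neg_zero, zero_div, Real.exp_zero,
    mul_one] at this

lemma integrable_ft_gauss (hv : Integrable v) {b : ℝ} (hb : 0 < b) (c : ℝ) :
    Integrable fun k : Sp d => (ft v (c • k)).re * Real.exp (-b * ‖k‖ ^ 2) :=
  (integrable_gauss hb).bdd_mul (c := ∫ x, |v x|)
    ((continuous_re.comp (continuous_ft hv)).comp (by fun_prop)).aestronglyMeasurable
    (Eventually.of_forall fun k => (abs_re_le_norm _).trans (norm_ft_le v _))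

lemma integral_ft_gauss (hv : Integrable v) {b : ℝ} (hb : 0 < b) (c : ℝ) :
    ∫ k : Sp d, (ft v (c • k)).re * Real.exp (-b * ‖k‖ ^ 2)
      = (Real.pi / b) ^ ((d : ℝ) / 2) * gav v (c ^ 2 / (4 * b)) := by
  have hi : Integrable (Function.uncurry fun k x : Sp d =>
      Real.exp (-b * ‖k‖ ^ 2) * v x * Real.cos ⟪c • k, x⟫) (volume.prod volume) :=
    ((integrable_gauss hb).mul_prod hv).mul_bdd (c := 1) (by fun_prop)
      (Eventually.of_forall fun x => Real.abs_cos_le_one _)
  have h := integral_integral_swap hi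
  calc _ = ∫ k : Sp d, ∫ x : Sp d, Real.exp (-b * ‖k‖ ^ 2) * v x * Real.cos ⟪c • k, x⟫ := by
        refine integral_congr_ae (Eventually.of_forall fun k => ?_)
        simp only [ft_re hv, mul_assoc, integral_const_mul]
        ring
    _ = _ := h
    _ = _ := by
        rw [gav, ← integral_const_mul]
        refine integral_congr_ae (Eventually.of_forall fun x => ?_)
        have e := ft_gauss_re hb (c • x)
        rw [ft_re (integrable_gauss hb), norm_smul, mul_pow, Real.norm_eq_abs, sq_abs] at e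
        have e2 : ∀ k : Sp d, Real.exp (-b * ‖k‖ ^ 2) * v x * Real.cos ⟪c • k, x⟫
            = v x * (Real.exp (-b * ‖k‖ ^ 2) * Real.cos ⟪c • x, k⟫) := fun k => by
          rw [real_inner_smul_left, real_inner_smul_left, real_inner_comm]
          ring
        simp only [e2, integral_const_mul, e]
        rw [show -(c ^ 2 * ‖x‖ ^ 2) / (4 * b) = -(c ^ 2 / (4 * b)) * ‖x‖ ^ 2 by ring]
        ring

lemma exists_gav_gt (hv : Integrable v) (h0 : ∀ x, 0 ≤ v x) (hpos : 0 < ∫ x, v x) :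
    ∃ s : ℝ, 0 < s ∧ (∫ x, v x) / 2 < gav v s := by
  have ht : Tendsto (fun n : ℕ => gav v (1 / ((n : ℝ) + 1))) atTop (𝓝 (∫ x, v x)) := by
    refine tendsto_integral_of_dominated_convergence v
      (fun n => (integrable_gav hv (by positivity)).aestronglyMeasurable) hv
      (fun n => Eventually.of_forall fun x => ?_) (Eventually.of_forall fun x => ?_)
    · rw [Real.norm_eq_abs, abs_of_nonneg (mul_nonneg (h0 x) (Real.exp_pos _).le)]
      exact mul_le_of_le_one_right (h0 x) (gauss_le_one (by positivity) x)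
    · have hc : Continuous fun s : ℝ => v x * Real.exp (-s * ‖x‖ ^ 2) := by fun_prop
      simpa [Function.comp_def] using (hc.tendsto 0).comp tendsto_one_div_add_atTop_nhds_zero_nat
  obtain ⟨n, hn⟩ := (ht.eventually (lt_mem_nhds (half_lt_self hpos))).exists
  exact ⟨_, by positivity, hn⟩

lemma gav_le (hv : Integrable v) (h0 : ∀ x, 0 ≤ v x) {s : ℝ} (hs : 0 ≤ s) : gav v s ≤ ∫ x, v x :=
  integral_mono (integrable_gav hv hs) hv fun x => mul_le_of_le_one_right (h0 x) (gauss_le_one hs x)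

lemma rpow_four (a : ℝ) (ha : 0 ≤ a) : (a / 4) ^ ((d : ℝ) / 2) = a ^ ((d : ℝ) / 2) / 2 ^ d := by
  rw [Real.div_rpow ha (by norm_num), show (4 : ℝ) = 2 ^ (2 : ℝ) by norm_num,
    ← Real.rpow_mul (by norm_num), show (2 : ℝ) * ((d : ℝ) / 2) = d by ring, Real.rpow_natCast]

section doubling

variable (hv : Integrable v) (h : ∀ k : Sp d, (ft v k).re ≤ 4 * (ft v ((2 : ℝ) • k)).re)
include hv h

lemma gav_le_four {s : ℝ} (hs : 0 < s) : gav v s ≤ 4 * gav v (4 * s) := by
  have hb : 0 < 1 / (4 * s) := by positivity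
  have h1 := integral_ft_gauss hv hb 1
  have h2 := integral_ft_gauss hv hb 2
  rw [show (1 : ℝ) ^ 2 / (4 * (1 / (4 * s))) = s by field_simp] at h1
  rw [show (2 : ℝ) ^ 2 / (4 * (1 / (4 * s))) = 4 * s by field_simp; ring] at h2
  have h3 := integral_mono (integrable_ft_gauss hv hb 1) ((integrable_ft_gauss hv hb 2).const_mul 4)
    fun k => by
      simp only [one_smul, ← mul_assoc]
      exact mul_le_mul_of_nonneg_right (h k) (Real.exp_pos _).le
  rw [integral_const_mul, h1, h2, mul_left_comm] at h3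
  exact le_of_mul_le_mul_left h3 (by positivity)

lemma gav_incr {s : ℝ} (hs : 0 < s) : gav v (4 * s) - gav v s / 2 ^ d ≤
    4 * (gav v (4 * (4 * s)) - gav v (4 * s) / 2 ^ d) := by
  have hb : 0 < 1 / (16 * s) := by positivity
  have hb' : 0 < 4 * (1 / (16 * s)) := by positivity
  have h1 := integral_ft_gauss hv hb 1
  have h2 := integral_ft_gauss hv hb 2
  have h1' := integral_ft_gauss hv hb' 1
  have h2' := integral_ft_gauss hv hb' 2
  rw [show (1 : ℝ) ^ 2 / (4 * (1 / (16 * s))) = 4 * s by field_simp; ring] at h1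
  rw [show (2 : ℝ) ^ 2 / (4 * (1 / (16 * s))) = 4 * (4 * s) by field_simp; ring] at h2
  rw [show (1 : ℝ) ^ 2 / (4 * (4 * (1 / (16 * s)))) = s by field_simp; ring] at h1'
  rw [show (2 : ℝ) ^ 2 / (4 * (4 * (1 / (16 * s)))) = 4 * s by field_simp; ring] at h2'
  rw [show Real.pi / (4 * (1 / (16 * s))) = Real.pi / (1 / (16 * s)) / 4 by field_simp,
    rpow_four _ (by positivity)] at h1' h2'
  have h3 := integral_mono ((integrable_ft_gauss hv hb 1).sub (integrable_ft_gauss hv hb' 1))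
    (((integrable_ft_gauss hv hb 2).sub (integrable_ft_gauss hv hb' 2)).const_mul 4) fun k => by
      have : Real.exp (-(4 * (1 / (16 * s))) * ‖k‖ ^ 2) ≤ Real.exp (-(1 / (16 * s)) * ‖k‖ ^ 2) :=
        Real.exp_le_exp.mpr (by nlinarith [mul_nonneg hb.le (sq_nonneg ‖k‖)])
      simp only [Pi.sub_apply, one_smul, ← mul_sub, ← mul_assoc]
      exact mul_le_mul_of_nonneg_right (h k) (sub_nonneg.mpr this)
  simp only [Pi.sub_apply] at h3
  rw [integral_const_mul, integral_sub (integrable_ft_gauss hv hb 1) (integrable_ft_gauss hv hb' 1),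
    integral_sub (integrable_ft_gauss hv hb 2) (integrable_ft_gauss hv hb' 2), h1, h2, h1',
    h2'] at h3
  refine le_of_mul_le_mul_left (a := (Real.pi / (1 / (16 * s))) ^ ((d : ℝ) / 2)) ?_ (by positivity)
  linarith [h3, mul_div_assoc ((Real.pi / (1 / (16 * s))) ^ ((d : ℝ) / 2)) (gav v s) (2 ^ d),
    mul_div_assoc ((Real.pi / (1 / (16 * s))) ^ ((d : ℝ) / 2)) (gav v (4 * s)) (2 ^ d),
    div_mul_eq_mul_div ((Real.pi / (1 / (16 * s))) ^ ((d : ℝ) / 2)) (2 ^ d) (gav v s),
    div_mul_eq_mul_div ((Real.pi / (1 / (16 * s))) ^ ((d : ℝ) / 2)) (2 ^ d) (gav v (4 * s))]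

end doubling

lemma rpow_four_pow {s : ℝ} (hs : 0 < s) (n : ℕ) :
    (Real.pi / (4 ^ n * s)) ^ ((d : ℝ) / 2) = (Real.pi / s) ^ ((d : ℝ) / 2) / (2 ^ d) ^ n := by
  induction n with
  | zero => simp
  | succ n ih =>
    rw [show Real.pi / (4 ^ (n + 1) * s) = Real.pi / (4 ^ n * s) / 4 by field_simp; ring,
      rpow_four _ (by positivity), ih, div_div, ← pow_succ]

/-- Bounded potentials in dimension at least two. -/
theorem drop_of_bounded (hd : 2 ≤ d) (hv : Integrable v) (h0 : ∀ x, 0 ≤ v x) (hpos : 0 < ∫ x, v x)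
    {V : ℝ} (hV : ∀ x, v x ≤ V) : ∃ k : Sp d, 4 * (ft v ((2 : ℝ) • k)).re < (ft v k).re := by
  by_contra hcon
  have h : ∀ k : Sp d, (ft v k).re ≤ 4 * (ft v ((2 : ℝ) • k)).re := fun k =>
    not_lt.mp fun e => hcon ⟨k, e⟩
  obtain ⟨s', hs', hg⟩ := exists_gav_gt hv h0 hpos
  obtain ⟨s, rfl⟩ : ∃ s, s' = 4 * s := ⟨s' / 4, by ring⟩
  have hs : 0 < s := by linarith
  have h4 : (4 : ℝ) ≤ 2 ^ d := by
    calc (4 : ℝ) = 2 ^ 2 := by norm_num
      _ ≤ _ := pow_le_pow_right₀ one_le_two hd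
  set H : ℕ → ℝ := fun n => (2 ^ d) ^ n * gav v (4 ^ n * s) with hH
  have hE : ∀ n, H (n + 1) - H n =
      (2 ^ d) ^ (n + 1) * (gav v (4 * (4 ^ n * s)) - gav v (4 ^ n * s) / 2 ^ d) := fun n => by
    simp only [hH]
    rw [show (4 : ℝ) ^ (n + 1) * s = 4 * (4 ^ n * s) by ring]
    field_simp
    ring
  have h1 : 0 < H 1 - H 0 := by
    rw [hE, pow_zero, one_mul]
    refine mul_pos (by positivity) (sub_pos.mpr (lt_of_le_of_lt ?_ hg))
    exact div_le_div₀ hpos.le (gav_le hv h0 hs.le) two_pos (by linarith)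
  have h2 : ∀ n, H 1 - H 0 ≤ H (n + 1) - H n := fun n => by
    induction n with
    | zero => exact le_rfl
    | succ n ih =>
      have a := gav_incr hv h (s := 4 ^ n * s) (by positivity)
      have b := h1.trans_le ih
      refine ih.trans ?_
      rw [hE] at b
      rw [hE, hE, show (4 : ℝ) ^ (n + 1) * s = 4 * (4 ^ n * s) by ring, pow_succ _ (n + 1),
        mul_assoc]
      have c := (mul_pos_iff_of_pos_left (by positivity)).1 b
      gcongr
      nlinarith
  have h3 : ∀ n : ℕ, n * (H 1 - H 0) ≤ H n - H 0 := fun n => by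
    induction n with
    | zero => simp
    | succ n ih => push_cast; linarith [h2 n]
  have h5 : ∀ n, H n ≤ V * (Real.pi / s) ^ ((d : ℝ) / 2) := fun n => by
    have hp : 0 < (4 : ℝ) ^ n * s := by positivity
    have := integral_mono (integrable_gav hv hp.le) ((integrable_gauss hp).const_mul V)
      fun x => mul_le_mul_of_nonneg_right (hV x) (Real.exp_pos _).le
    rw [integral_const_mul, integral_gauss hp, rpow_four_pow hs, ← mul_div_assoc,
      le_div_iff₀ (by positivity), mul_comm] at this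
    exact this
  obtain ⟨n, hn⟩ := exists_nat_gt ((V * (Real.pi / s) ^ ((d : ℝ) / 2) - H 0) / (H 1 - H 0))
  rw [div_lt_iff₀ h1] at hn
  linarith [h3 n, h5 n]

/-- Potentials in `Lᵖ` with `(d - 2) p > d`. -/
theorem drop_of_memLp (hv : Integrable v) (h0 : ∀ x, 0 ≤ v x) (hpos : 0 < ∫ x, v x) {p : ℝ}
    (hp : 1 < p) (hdp : (d : ℝ) < (d - 2) * p) (hL : MemLp v (ENNReal.ofReal p)) :
    ∃ k : Sp d, 4 * (ft v ((2 : ℝ) • k)).re < (ft v k).re := by
  by_contra hcon
  have h : ∀ k : Sp d, (ft v k).re ≤ 4 * (ft v ((2 : ℝ) • k)).re := fun k =>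
    not_lt.mp fun e => hcon ⟨k, e⟩
  obtain ⟨s, hs, hg⟩ := exists_gav_gt hv h0 hpos
  have hI : Integrable fun x => v x ^ p := by
    have := hL.integrable_norm_rpow (by simpa using by linarith) ENNReal.ofReal_ne_top
    rw [ENNReal.toReal_ofReal (by linarith)] at this
    simpa only [Real.norm_eq_abs, abs_of_nonneg (h0 _)] using this
  obtain ⟨a, ha1, ha2⟩ := exists_between (show 2 / (p - 1) < (d : ℝ) - 2 by
    rw [div_lt_iff₀ (by linarith)]; linarith)
  rw [div_lt_iff₀ (by linarith)] at ha1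
  set θ : ℝ := 2 ^ a with hθ
  have hθ0 : 0 < θ := by positivity
  have e4 : (4 : ℝ) = 2 ^ (2 : ℝ) := by norm_num
  have r1 : 4 * θ / 2 ^ d < 1 := by
    rw [div_lt_one (by positivity), e4, hθ, ← Real.rpow_add two_pos, ← Real.rpow_natCast]
    exact Real.rpow_lt_rpow_of_exponent_lt one_lt_two (by linarith)
  have r2 : 4 * θ ^ (1 - p) < 1 := by
    rw [e4, hθ, ← Real.rpow_mul zero_le_two, ← Real.rpow_add two_pos]
    exact Real.rpow_lt_one_of_one_lt_of_neg one_lt_two (by linarith)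
  have h1 : ∀ n : ℕ, gav v s ≤ 4 ^ n * gav v (4 ^ n * s) := fun n => by
    induction n with
    | zero => simp
    | succ n ih =>
      have := gav_le_four hv h (s := 4 ^ n * s) (by positivity)
      rw [show (4 : ℝ) ^ (n + 1) * s = 4 * (4 ^ n * s) by ring, pow_succ, mul_assoc]
      exact ih.trans (mul_le_mul_of_nonneg_left this (by positivity))
  have h2 : ∀ n : ℕ, 4 ^ n * gav v (4 ^ n * s) ≤ (Real.pi / s) ^ ((d : ℝ) / 2) * (4 * θ / 2 ^ d) ^ n
      + (∫ x, v x ^ p) * (4 * θ ^ (1 - p)) ^ n := fun n => by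
    have hq : 0 < (4 : ℝ) ^ n * s := by positivity
    have hl : 0 < θ ^ n := by positivity
    have i1 := (integrable_gauss (d := d) hq).const_mul (θ ^ n)
    have i2 := hI.const_mul ((θ ^ n) ^ (1 - p))
    have := integral_mono (integrable_gav hv hq.le) (i1.add i2) fun x => by
      have g0 := Real.exp_pos (-(4 ^ n * s) * ‖x‖ ^ 2)
      have g1 := gauss_le_one hq.le x
      have g2 : 0 ≤ (θ ^ n) ^ (1 - p) * v x ^ p := mul_nonneg (by positivity) (Real.rpow_nonneg (h0 x) p)
      simp only [Pi.add_apply]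
      rcases le_total (v x) (θ ^ n) with e | e
      · nlinarith
      · have hx : 0 < v x := hl.trans_le e
        have g3 : v x ≤ (θ ^ n) ^ (1 - p) * v x ^ p := by
          calc v x = v x ^ (1 - p) * v x ^ p := by rw [← Real.rpow_add hx]; simp
            _ ≤ _ := mul_le_mul_of_nonneg_right (Real.rpow_le_rpow_of_nonpos hl e (by linarith))
                (by positivity)
        nlinarith [mul_pos hl g0]
    simp only [Pi.add_apply] at this
    rw [integral_add i1 i2, integral_const_mul, integral_const_mul, integral_gauss hq,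
      rpow_four_pow hs, ← Real.rpow_natCast θ n, ← Real.rpow_mul hθ0.le, mul_comm (n : ℝ),
      Real.rpow_mul hθ0.le, Real.rpow_natCast, Real.rpow_natCast] at this
    refine (mul_le_mul_of_nonneg_left this (by positivity)).trans_eq ?_
    rw [div_pow, mul_pow, mul_pow]
    ring
  have t1 := (tendsto_pow_atTop_nhds_zero_of_lt_one (by positivity) r1).const_mul
    ((Real.pi / s) ^ ((d : ℝ) / 2))
  have t2 := (tendsto_pow_atTop_nhds_zero_of_lt_one (by positivity) r2).const_mul (∫ x, v x ^ p)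
  have := ge_of_tendsto' (t1.add t2) fun n => (h1 n).trans (h2 n)
  simp only [mul_zero, add_zero] at this
  linarith

end Pool.Agent.Lib.MP_ef05c8_mp
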