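import Pool.Agent.Lib.MP_ef05c8_mp.Medium
import Pool.Agent.Lib.MP_ef05c8_mp.Core2
import Pool.Agent.Lib.MP_ef05c8_mp.Doubling

/-!
Non-existence for the Medium Equation at high density, from the doubling inequality.
-/

open MeasureTheory Filter Topology Complex
open scoped RealInnerProductSpace

namespace Pool.Agent.Lib.MP_ef05c8_mp

variable {d : ℕ}

lemma obs_double {m w₁ w₃ : ℝ} (hm : 0 < m) {k : Sp d} (hk : k ≠ 0) (hw₃ : 0 < w₃)
    (hw : 4 * w₃ < w₁) : Obs (‖k‖ ^ 2 / m) (‖k + k‖ ^ 2 / m) w₁ w₃ := by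
  have := norm_pos_iff.mpr hk
  rw [← two_smul ℝ k, norm_smul, Real.norm_eq_abs, abs_two,
    show (2 * ‖k‖) ^ 2 / m = 4 * (‖k‖ ^ 2 / m) by ring]
  exact core_two (by positivity) hw₃ hw

lemma Admissible.integral_pos {v : Sp d → ℝ} (hv : Admissible v) : 0 < ∫ x, v x :=
  (integral_nonneg hv.1).lt_of_ne fun e =>
    hv.2.1 ((integral_eq_zero_iff_of_nonneg hv.1 hv.2.2.1).mp e.symm)

lemma medium_mass_one {m ρ : ℝ} (hm : 0 < m) {v u : Sp d → ℝ} (hv : Integrable v)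
    (hv0 : ∀ x, 0 ≤ v x) (hpos : 0 < ∫ x, v x) {k : Sp d} (hk0 : k ≠ 0) (hu : Integrable u)
    (h0 : ∀ x, 0 ≤ u x) (h1 : ∀ x, u x ≤ 1) (h : WeakEq m u (mediumRHS ρ v u)) :
    ρ * ∫ x, u x = 1 := by
  have hS := integrable_Sfun hv hu h0 h1
  have hF := integrable_mediumRHS ρ hS hu
  have e0 := h.ft_eq hu hF 0
  rw [ft_mediumRHS ρ hS hu, ft_zero, ft_zero] at e0
  simp only [norm_zero, ne_eq, OfNat.ofNat_ne_zero, not_false_eq_true, zero_pow, zero_div,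
    ofReal_zero, zero_mul] at e0
  rcases mul_eq_zero.mp e0.symm with hs | hs
  · exfalso
    have hs' : ∫ x, Sfun v u x = 0 := by exact_mod_cast hs
    have hz : ∀ q : Sp d, ft (Sfun v u) q = 0 := fun q => by
      have := norm_ft_le_of_nonneg (Sfun_nonneg hv0 h1) q
      rw [hs'] at this
      exact norm_le_zero_iff.mp this
    have hz2 : ∀ t : ℝ, 0 < t → ft u (t • k) = 0 := fun t ht => by
      have e := h.ft_eq hu hF (t • k)
      rw [ft_mediumRHS ρ hS hu, hz, zero_mul] at e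
      rcases mul_eq_zero.mp e with e | e
      · exfalso
        have : 0 < ‖t • k‖ := norm_pos_iff.mpr (smul_ne_zero ht.ne' hk0)
        have h3 : 0 < ‖t • k‖ ^ 2 / m := by positivity
        exact h3.ne' (by exact_mod_cast e)
      · exact e
    have c1 : Continuous fun t : ℝ => ft u (t • k) := (continuous_ft hu).comp (by fun_prop)
    have t1 : Tendsto (fun t : ℝ => ft u (t • k)) (𝓝[>] 0) (𝓝 (ft u ((0 : ℝ) • k))) :=
      c1.continuousAt.tendsto.mono_left nhdsWithin_le_nhds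
    have t2 : Tendsto (fun t : ℝ => ft u (t • k)) (𝓝[>] 0) (𝓝 0) := by
      apply tendsto_const_nhds.congr'
      filter_upwards [self_mem_nhdsWithin] with t ht using (hz2 t ht).symm
    have e := tendsto_nhds_unique t1 t2
    rw [zero_smul, ft_zero] at e
    have e' : ∫ x, u x = 0 := by exact_mod_cast e
    have hu0 : u =ᵐ[volume] 0 := (integral_eq_zero_iff_of_nonneg h0 hu).mp e'
    have : ∫ x, Sfun v u x = ∫ x, v x := by
      apply integral_congr_ae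
      filter_upwards [hu0] with x hx
      simp [Sfun, hx]
    linarith
  · have := pow_eq_zero_iff (two_ne_zero) |>.mp hs
    have h3 : (1 : ℝ) - ρ * ∫ x, u x = 0 := by exact_mod_cast this
    linarith

theorem medium_none {m : ℝ} (hm : 0 < m) {v : Sp d → ℝ} (hv : Integrable v)
    (hv0 : ∀ x, 0 ≤ v x) (he : ∀ x, v (-x) = v x) (hpos : 0 < ∫ x, v x) {k : Sp d}
    (hk : 4 * (ft v ((2 : ℝ) • k)).re < (ft v k).re) :
    ∃ ρ₀ : ℝ, 0 < ρ₀ ∧ ∀ ρ, ρ₀ ≤ ρ → ¬ ∃ u, IsMediumSolution m ρ v u := by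
  obtain ⟨k₁, hk₁, w₃, w₁⟩ := choose_two hv hpos hk
  obtain ⟨δ, hδ, H⟩ := obs_double hm hk₁ w₃ w₁
  obtain ⟨c, hc, Hc⟩ := small_uv hv hv0 hδ
  refine ⟨max (1 / c) (1 / δ), by positivity, fun ρ hρ ⟨u', hu', hw'⟩ => ?_⟩
  have hρ0 : 0 < ρ := lt_of_lt_of_le (by positivity) hρ
  obtain ⟨u, hu, h0, h1, hae⟩ := hu'.exists_good
  have hw : WeakEq m u (mediumRHS ρ v u) := hw'.congr hae (mediumRHS_congr ρ hae)
  have hN := medium_mass_one hm hv hv0 hpos hk₁ hu h0 h1 hw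
  have hS := integrable_Sfun hv hu h0 h1
  have hF := integrable_mediumRHS ρ hS hu
  have hM : ∫ x, u x = 1 / ρ := by field_simp; linarith
  have hρc : 1 / ρ ≤ c := by
    rw [one_div_le hρ0 hc]; exact (le_max_left _ _).trans hρ
  have hρδ : 1 / ρ ≤ δ := by
    rw [one_div_le hρ0 hδ]; exact (le_max_right _ _).trans hρ
  have huv := Hc u hu h0 h1 (hM ▸ hρc)
  have ha : ∀ q : Sp d, ‖(ρ : ℂ) * ft u q‖ ≤ 25 := fun q => by
    rw [norm_mul, norm_real, Real.norm_eq_abs, abs_of_pos hρ0]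
    have := mul_le_mul_of_nonneg_left (norm_ft_le_of_nonneg h0 q) hρ0.le
    linarith
  have hτ : ∀ q : Sp d, ‖-ft (fun x => u x * v x) q‖ ≤ δ := fun q => by
    rw [norm_neg]
    exact (norm_ft_le_of_nonneg (fun x => mul_nonneg (h0 x) (hv0 x)) q).trans huv
  have heq : ∀ q : Sp d, (1 - (ρ : ℂ) * ft u q) ^ 2 * (((ft v q).re : ℂ)
      + -ft (fun x => u x * v x) q)
      = ((1 / ρ : ℝ) : ℂ) * (((‖q‖ ^ 2 / m : ℝ) : ℂ) * (ρ * ft u q) + 0) := fun q => by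
    have e := hw.ft_eq hu hF q
    rw [ft_mediumRHS ρ hS hu, ft_Sfun hv hu h0 h1] at e
    have hre : ((ft v q).re : ℂ) = ft v q := by
      apply Complex.ext <;> simp [ft_im_even hv he q]
    have hρc : (ρ : ℂ) ≠ 0 := by exact_mod_cast hρ0.ne'
    rw [hre, mul_comm, ← sub_eq_add_neg, ← e]
    push_cast
    field_simp
    ring
  refine H (1 / ρ) 1 _ _ _ _ 0 0 (by positivity) hρδ (ha k₁) (ha (k₁ + k₁))
    (hτ k₁) (hτ (k₁ + k₁)) (by simpa using hδ.le) (by simpa using hδ.le)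
    (heq k₁) (heq (k₁ + k₁)) (by simp; positivity) ?_ ?_
  · rw [re_ofReal_mul, ← hN]
    exact mul_le_mul_of_nonneg_left (ft_re_le h0 _) hρ0.le
  · simp only [re_ofReal_mul]
    have := mul_le_mul_of_nonneg_left (ft_re_ineq hu h0 k₁ k₁) hρ0.le
    rw [← hN]
    linarith

/-- The conditions under which the transform drops by more than a factor four. -/
theorem Admissible.drop {v : Sp d → ℝ} (hv : Admissible v)
    (h : (∃ k : Sp d, ∫ x, v x * Real.cos ⟪k, x⟫ ≤ 0) ∨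
      (∃ k : Sp d, 4 * ∫ x, v x * Real.cos ⟪(2 : ℝ) • k, x⟫ < ∫ x, v x * Real.cos ⟪k, x⟫) ∨
      (2 ≤ d ∧ ∃ V : ℝ, ∀ x, v x ≤ V) ∨
      (∃ p : ℝ, 1 < p ∧ (d : ℝ) < (d - 2) * p ∧ MemLp v (ENNReal.ofReal p)) ∨ 4 ≤ d) :
    ∃ k : Sp d, 4 * (ft v ((2 : ℝ) • k)).re < (ft v k).re := by
  rcases h with ⟨k, hk⟩ | ⟨k, hk⟩ | ⟨hd, V, hV⟩ | ⟨p, h1, h2, h3⟩ | hd
  · exact drop_of_nonpos hv.2.2.1 hv.integral_pos (k := k) (by rwa [ft_re hv.2.2.1])
  · exact ⟨k, by rwa [ft_re hv.2.2.1, ft_re hv.2.2.1]⟩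
  · exact drop_of_bounded hd hv.2.2.1 hv.1 hv.integral_pos hV
  · exact drop_of_memLp hv.2.2.1 hv.1 hv.integral_pos h1 h2 h3
  · obtain ⟨p, h1, h3⟩ := hv.2.2.2
    have h4 : (4 : ℝ) ≤ d := by exact_mod_cast hd
    rw [max_lt_iff] at h1
    exact drop_of_memLp hv.2.2.1 hv.1 hv.integral_pos h1.2 (by nlinarith [h1.1]) h3

lemma gauss_admissible : Admissible fun x : Sp d => Real.exp (-‖x‖ ^ 2) := by
  have h1 : ∀ x : Sp d, Real.exp (-‖x‖ ^ 2) ≤ 1 := fun x =>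
    Real.exp_le_one_iff.mpr (by nlinarith [sq_nonneg ‖x‖])
  refine ⟨fun x => (Real.exp_pos _).le, fun h => ?_, integrable_gauss_one,
    max ((d : ℝ) / 2) 1 + 1, by linarith, memLp_of_bounded_integrable integrable_gauss_one
      (fun x => (Real.exp_pos _).le) h1 (by linarith [le_max_right ((d : ℝ) / 2) 1])⟩
  obtain ⟨x, hx⟩ := h.exists
  exact (Real.exp_pos _).ne' hx

lemma gauss_drop (hd : 1 ≤ d) : ∃ k : Sp d,
    4 * (ft (fun x : Sp d => Real.exp (-‖x‖ ^ 2)) ((2 : ℝ) • k)).re <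
      (ft (fun x : Sp d => Real.exp (-‖x‖ ^ 2)) k).re := by
  let k : Sp d := EuclideanSpace.single ⟨0, hd⟩ 2
  have hk : ‖k‖ = 2 := by simp only [k, PiLp.norm_single, Real.norm_eq_abs, abs_two]
  have e : (fun x : Sp d => Real.exp (-‖x‖ ^ 2)) = fun x => Real.exp (-1 * ‖x‖ ^ 2) := by simp
  refine ⟨k, ?_⟩
  rw [e, ft_gauss_re one_pos, ft_gauss_re one_pos, norm_smul, hk, Real.norm_eq_abs, abs_two,
    mul_left_comm, show -((2 : ℝ) * 2) ^ 2 / (4 * 1) = -3 + -1 by norm_num,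
    show -(2 : ℝ) ^ 2 / (4 * 1) = -1 by norm_num, Real.exp_add, ← mul_assoc 4]
  refine mul_lt_mul_of_pos_left (mul_lt_of_lt_one_left (Real.exp_pos _) ?_) (by positivity)
  rw [Real.exp_neg, ← div_eq_mul_inv, div_lt_one (Real.exp_pos _)]
  linarith [Real.add_one_lt_exp (x := 3) (by norm_num)]

end Pool.Agent.Lib.MP_ef05c8_mp
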