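import Pool.Agent.Lib.MP_ef05c8_mp.Big
import Pool.Agent.Lib.MP_ef05c8_mp.Medium2

/-!
Non-existence for the Big Equation at high density, from the doubling inequality.
-/

open MeasureTheory Filter Topology Complex
open scoped RealInnerProductSpace

namespace Pool.Agent.Lib.MP_ef05c8_mp

variable {d : ℕ}

theorem big_none (hd : 1 ≤ d) {m : ℝ} (hm : 0 < m) {v : Sp d → ℝ} (hv : Integrable v)
    (hv0 : ∀ x, 0 ≤ v x) (he : ∀ x, v (-x) = v x) {V : ℝ} (hV : ∀ x, v x ≤ V) {C : ℝ}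
    (hC : ∀ x, ‖x‖ ^ 2 * v x ≤ C) (hn : ¬ Integrable fun x => ‖x‖ ^ 2 * v x)
    (hw0 : 0 < ∫ x, v x) {k : Sp d} (hk : 4 * (ft v ((2 : ℝ) • k)).re < (ft v k).re) :
    ∃ θ₀ : ℝ, 0 < θ₀ ∧ ∀ θ, 0 < θ → θ ≤ θ₀ → ∃ ρ₀ : ℝ, 0 < ρ₀ ∧ ∀ ρ, ρ₀ ≤ ρ →
      ¬ ∃ u, IsBigSolution m ρ (fun x => θ * v x) u := by
  obtain ⟨k₁, hk₁, w₃, w₁⟩ := choose_two hv hw0 hk
  obtain ⟨δ, hδ, H⟩ := obs_double hm hk₁ w₃ w₁
  set w₀ := ∫ x, v x with hw₀
  have V0 : 0 ≤ V := (hv0 0).trans (hV 0)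
  set δ' := min δ (δ * w₀ / 2) with hδ'
  have hδ'0 : 0 < δ' := lt_min hδ (by positivity)
  refine ⟨δ' / (48125 * (V + 1)), by positivity, fun θ hθ hθδ => ?_⟩
  have hθ' : 48125 * (θ * V) ≤ δ' := by
    rw [le_div_iff₀ (by positivity)] at hθδ
    nlinarith
  set c := min δ (w₀ / 2) with hc
  have hc0 : 0 < c := lt_min hδ (by positivity)
  refine ⟨max (1 / (θ * δ)) (25 * V / c), by positivity, fun ρ hρ ⟨u', hu', hw'⟩ => ?_⟩
  have hρ0 : 0 < ρ := lt_of_lt_of_le (by positivity) hρ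
  obtain ⟨u, hu, h0, h1, hae⟩ := hu'.exists_good
  have hw : WeakEq m u (bigRHS ρ (fun x => θ * v x) u) := hw'.congr hae (bigRHS_congr ρ hae)
  have p : Pair (fun x => θ * v x) u (θ * V) :=
    ⟨hv.const_mul θ, fun x => mul_nonneg hθ.le (hv0 x),
      fun x => mul_le_mul_of_nonneg_left (hV x) hθ.le, hu, h0, h1⟩
  have p' : Pair v u V := ⟨hv, hv0, hV, hu, h0, h1⟩
  have hSθ : Sfun (fun x => θ * v x) u = fun x => θ * Sfun v u x := by
    ext x; simp only [Sfun]; ring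
  have hnS : ¬ Integrable fun x => ‖x‖ ^ 2 * Sfun (fun x => θ * v x) u x := by
    intro h
    apply p'.not_integrable_S hC hn
    refine (h.const_mul θ⁻¹).congr (Eventually.of_forall fun x => ?_)
    simp only [hSθ]
    field_simp
  have hN := big_mass_le hd hρ0 p hnS hw
  have hε : 1 / (θ * ρ) ≤ δ := by
    have := (le_max_left _ _).trans hρ
    rw [div_le_iff₀ (by positivity)] at this ⊢
    linarith
  have huv : ∫ x, u x * v x ≤ c := by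
    have a1 := p'.int_mul_le hv hV
    have a2 := (le_max_right _ _).trans hρ
    rw [div_le_iff₀ hc0] at a2
    have a3 : ρ * ∫ x, u x * v x ≤ ρ * c := by
      calc _ ≤ ρ * ((∫ x, u x) * V) := by gcongr
        _ = (ρ * ∫ x, u x) * V := by ring
        _ ≤ 25 * V := by gcongr
        _ ≤ _ := a2
    exact le_of_mul_le_mul_left a3 hρ0
  have ha : ∀ q : Sp d, ‖(ρ : ℂ) * ft u q‖ ≤ 25 := fun q => by
    rw [norm_mul, norm_real, Real.norm_eq_abs, abs_of_pos hρ0]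
    have := mul_le_mul_of_nonneg_left (norm_ft_le_of_nonneg h0 q) hρ0.le
    linarith
  have hτ : ∀ q : Sp d, ‖-ft (fun x => u x * v x) q‖ ≤ δ := fun q => by
    rw [norm_neg]
    exact (norm_ft_le_of_nonneg (fun x => mul_nonneg (h0 x) (hv0 x)) q).trans
      (huv.trans (min_le_left _ _))
  have hζ' : ∀ q : Sp d, ‖-((ρ : ℂ) * ft (Ef ρ (fun x => θ * v x) u) q)‖ ≤ δ' := fun q => by
    rw [norm_neg]
    exact (p.norm_ft_E hρ0 hN q).trans hθ'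
  have hζ : ∀ q : Sp d, ‖-((ρ : ℂ) * ft (Ef ρ (fun x => θ * v x) u) q)‖ ≤ δ := fun q =>
    (hζ' q).trans (min_le_left _ _)
  have heq : ∀ q : Sp d, (1 - (ρ : ℂ) * ft u q) ^ 2 * (((ft v q).re : ℂ)
      + -ft (fun x => u x * v x) q)
      = ((1 / (θ * ρ) : ℝ) : ℂ) * (((‖q‖ ^ 2 / m : ℝ) : ℂ) * (ρ * ft u q)
        + -((ρ : ℂ) * ft (Ef ρ (fun x => θ * v x) u) q)) := fun q => by
    have e := hw.ft_eq hu (p.hF ρ) q
    rw [p.ft_bigRHS, hSθ, ft_const_mul, ft_Sfun hv hu h0 h1] at e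
    have hre : ((ft v q).re : ℂ) = ft v q := by
      apply Complex.ext <;> simp [ft_im_even hv he q]
    have hρc : (ρ : ℂ) ≠ 0 := by exact_mod_cast hρ0.ne'
    have hθc : (θ : ℂ) ≠ 0 := by exact_mod_cast hθ.ne'
    have e2 : (((‖q‖ ^ 2 / m : ℝ) : ℂ) * (ρ * ft u q))
        = ρ * (((‖q‖ ^ 2 / m : ℝ) : ℂ) * ft u q) := by ring
    rw [hre, e2, e]
    push_cast
    field_simp
    ring
  have hN1 : (ρ * (∫ x, u x) - 1) ^ 2 ≤ δ * (1 / (θ * ρ)) := by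
    have e := congrArg norm (heq 0)
    have e0 : (1 - (ρ : ℂ) * ft u 0) ^ 2 * (((ft v 0).re : ℂ) + -ft (fun x => u x * v x) 0)
        = (((1 - ρ * ∫ x, u x) ^ 2 * (w₀ - ∫ x, u x * v x) : ℝ) : ℂ) := by
      simp only [ft_zero, ofReal_re, hw₀]
      push_cast
      ring
    rw [e0, norm_real, norm_mul ((1 / (θ * ρ) : ℝ) : ℂ), norm_real] at e
    simp only [norm_zero, ne_eq, OfNat.ofNat_ne_zero, not_false_eq_true, zero_pow, zero_div,
      ofReal_zero, zero_mul, zero_add, Real.norm_eq_abs] at e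
    rw [abs_of_pos (a := 1 / (θ * ρ)) (by positivity)] at e
    have b1 := (hζ' 0).trans (min_le_right _ _)
    have b2 : w₀ / 2 ≤ w₀ - ∫ x, u x * v x := by linarith [huv.trans (min_le_right _ _)]
    have b3 : (1 - ρ * ∫ x, u x) ^ 2 * (w₀ / 2) ≤ δ * (1 / (θ * ρ)) * (w₀ / 2) := by
      calc _ ≤ (1 - ρ * ∫ x, u x) ^ 2 * (w₀ - ∫ x, u x * v x) := by gcongr
        _ ≤ _ := le_abs_self _
        _ = _ := e
        _ ≤ 1 / (θ * ρ) * (δ * w₀ / 2) := by gcongr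
        _ = _ := by ring
    have b4 := le_of_mul_le_mul_right b3 (by positivity)
    calc _ = (1 - ρ * ∫ x, u x) ^ 2 := by ring
      _ ≤ _ := b4
  refine H (1 / (θ * ρ)) (ρ * ∫ x, u x) _ _ _ _ _ _ (by positivity) hε (ha k₁)
    (ha (k₁ + k₁)) (hτ k₁) (hτ (k₁ + k₁)) (hζ k₁) (hζ (k₁ + k₁))
    (heq k₁) (heq (k₁ + k₁)) hN1 ?_ ?_
  · rw [re_ofReal_mul]
    exact mul_le_mul_of_nonneg_left (ft_re_le h0 _) hρ0.le
  · simp only [re_ofReal_mul]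
    have := mul_le_mul_of_nonneg_left (ft_re_ineq hu h0 k₁ k₁) hρ0.le
    linarith

end Pool.Agent.Lib.MP_ef05c8_mp
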