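import Mathlib

/-!
The algebraic core of the non-existence argument.
-/

open Complex

namespace Pool.Agent.Lib.MP_ef05c8_mp

lemma approx_sq {κ w η : ℝ} (hκ : 0 < κ) (hw : w ≠ 0) (hη : 0 < η) :
    ∃ δ : ℝ, 0 < δ ∧ ∀ (ε : ℝ) (a τ ζ : ℂ), 0 < ε → ε ≤ δ → ‖a‖ ≤ 25 → ‖τ‖ ≤ δ → ‖ζ‖ ≤ δ →
      (1 - a) ^ 2 * (w + τ) = ε * (κ * a + ζ) →
      ‖(1 - a) ^ 2 - ((ε * (κ / w) : ℝ) : ℂ)‖ ≤ ε * η := by
  set W := |w| with hW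
  have hW0 : 0 < W := abs_pos.mpr hw
  set η' := η * W / (6 * κ) with hη'
  have hη'0 : 0 < η' := by positivity
  refine ⟨min (min (W / 2) 1) (min (min (η * W / 6) (η * W ^ 2 / (6 * κ)))
    (η' ^ 2 * W / (2 * (25 * κ + 1)))), by positivity, ?_⟩
  intro ε a τ ζ hε hεδ ha hτ hζ heq
  simp only [le_min_iff] at hεδ hτ hζ
  obtain ⟨⟨-, -⟩, ⟨-, -⟩, hε5⟩ := hεδ
  obtain ⟨⟨hτ1, -⟩, ⟨-, hτ4⟩, -⟩ := hτ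
  obtain ⟨⟨-, hζ2⟩, ⟨hζ3, -⟩, -⟩ := hζ
  have hwτ : W / 2 ≤ ‖(w : ℂ) + τ‖ := by
    have h1 : ‖(w : ℂ)‖ ≤ ‖(w : ℂ) + τ‖ + ‖τ‖ := by
      calc ‖(w : ℂ)‖ = ‖((w : ℂ) + τ) - τ‖ := by ring_nf
        _ ≤ _ := norm_sub_le _ _
    rw [norm_real, Real.norm_eq_abs] at h1
    linarith
  have h2 : ‖1 - a‖ ^ 2 * (W / 2) ≤ ε * (25 * κ + 1) := by
    calc ‖1 - a‖ ^ 2 * (W / 2) ≤ ‖1 - a‖ ^ 2 * ‖(w : ℂ) + τ‖ := by gcongr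
      _ = ‖(1 - a) ^ 2 * (w + τ)‖ := by rw [norm_mul, norm_pow]
      _ = ε * ‖κ * a + ζ‖ := by
          rw [heq, norm_mul, norm_real, Real.norm_eq_abs, abs_of_pos hε]
      _ ≤ ε * (25 * κ + 1) := by
          gcongr
          calc ‖κ * a + ζ‖ ≤ ‖(κ : ℂ) * a‖ + ‖ζ‖ := norm_add_le _ _
            _ ≤ κ * 25 + 1 := by
                rw [norm_mul, norm_real, Real.norm_eq_abs, abs_of_pos hκ]
                gcongr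
            _ = _ := by ring
  have h3 : ‖1 - a‖ ≤ η' := by
    apply le_of_sq_le_sq _ hη'0.le
    have hp : 0 < 25 * κ + 1 := by positivity
    have h4 : ε * (25 * κ + 1) ≤ η' ^ 2 * (W / 2) := by
      calc ε * (25 * κ + 1) ≤ (η' ^ 2 * W / (2 * (25 * κ + 1))) * (25 * κ + 1) := by gcongr
        _ = η' ^ 2 * (W / 2) := by field_simp
    exact le_of_mul_le_mul_right (h2.trans h4) (by positivity)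
  have hwc : (w : ℂ) ≠ 0 := by exact_mod_cast hw
  have h5 : ((1 - a) ^ 2 - ((ε * (κ / w) : ℝ) : ℂ)) * (w + τ)
      = ε * (κ * (a - 1) + ζ - κ * τ / w) := by
    rw [sub_mul, heq]
    push_cast
    field_simp
    ring
  have h6 : ‖(κ : ℂ) * (a - 1) + ζ - κ * τ / w‖ ≤ η * (W / 2) := by
    have e1 : ‖(κ : ℂ) * (a - 1)‖ ≤ η * W / 6 := by
      rw [norm_mul, norm_real, Real.norm_eq_abs, abs_of_pos hκ, norm_sub_rev]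
      calc κ * ‖1 - a‖ ≤ κ * η' := by gcongr
        _ = η * W / 6 := by rw [hη']; field_simp
    have e2 : ‖(κ : ℂ) * τ / w‖ ≤ η * W / 6 := by
      rw [norm_div, norm_mul, norm_real, norm_real, Real.norm_eq_abs, abs_of_pos hκ,
        Real.norm_eq_abs, ← hW]
      calc κ * ‖τ‖ / W ≤ κ * (η * W ^ 2 / (6 * κ)) / W := by gcongr
        _ = η * W / 6 := by field_simp
    calc _ ≤ ‖(κ : ℂ) * (a - 1) + ζ‖ + ‖(κ : ℂ) * τ / w‖ := norm_sub_le _ _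
      _ ≤ ‖(κ : ℂ) * (a - 1)‖ + ‖ζ‖ + ‖(κ : ℂ) * τ / w‖ := by gcongr; exact norm_add_le _ _
      _ ≤ η * W / 6 + η * W / 6 + η * W / 6 := by gcongr
      _ = η * (W / 2) := by ring
  have h7 : ‖(1 - a) ^ 2 - ((ε * (κ / w) : ℝ) : ℂ)‖ * (W / 2) ≤ ε * η * (W / 2) := by
    calc _ ≤ ‖(1 - a) ^ 2 - ((ε * (κ / w) : ℝ) : ℂ)‖ * ‖(w : ℂ) + τ‖ := by gcongr
      _ = ε * ‖(κ : ℂ) * (a - 1) + ζ - κ * τ / w‖ := by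
          rw [← norm_mul, h5, norm_mul, norm_real, Real.norm_eq_abs, abs_of_pos hε]
      _ ≤ ε * (η * (W / 2)) := by gcongr
      _ = _ := by ring
  exact le_of_mul_le_mul_right h7 (by positivity)

lemma neg_side {b : ℂ} {ε γ η s : ℝ} (hε : 0 < ε) (hγ : 0 < γ) (hη : η ≤ γ / 2)
    (hηs : η ^ 2 ≤ 2 * γ * s ^ 2) (h : ‖b ^ 2 - ((ε * (-γ) : ℝ) : ℂ)‖ ≤ ε * η) :
    b.re ^ 2 ≤ ε * s ^ 2 := by
  have h1 := (abs_re_le_norm _).trans h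
  have h2 := (abs_im_le_norm _).trans h
  simp only [sub_re, ofReal_re, sub_im, ofReal_im, sub_zero, sq, mul_re, mul_im] at h1 h2
  have hy : ε * γ / 2 ≤ b.im ^ 2 := by
    have := (abs_le.mp h1).2
    nlinarith [sq_nonneg b.re, mul_le_mul_of_nonneg_left hη hε.le]
  have hxy : (2 * b.re * b.im) ^ 2 ≤ (ε * η) ^ 2 := by
    have h3 : |2 * b.re * b.im| ≤ ε * η := by
      have : 2 * b.re * b.im = b.re * b.im + b.im * b.re := by ring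
      rw [this]; exact h2
    rw [← sq_abs]
    exact pow_le_pow_left₀ (abs_nonneg _) h3 2
  have h4 : b.re ^ 2 * (2 * ε * γ) ≤ ε * s ^ 2 * (2 * ε * γ) := by
    calc b.re ^ 2 * (2 * ε * γ) = 4 * b.re ^ 2 * (ε * γ / 2) := by ring
      _ ≤ 4 * b.re ^ 2 * b.im ^ 2 := by gcongr
      _ = (2 * b.re * b.im) ^ 2 := by ring
      _ ≤ (ε * η) ^ 2 := hxy
      _ = ε ^ 2 * η ^ 2 := by ring
      _ ≤ ε ^ 2 * (2 * γ * s ^ 2) := by gcongr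
      _ = _ := by ring
  exact le_of_mul_le_mul_right h4 (by positivity)

lemma pos_side {b : ℂ} {ε γ : ℝ} (h : ‖b ^ 2 - ((ε * γ : ℝ) : ℂ)‖ ≤ ε * (γ / 2)) :
    ε * (γ / 2) ≤ b.re ^ 2 := by
  have h1 := (abs_re_le_norm _).trans h
  simp only [sub_re, ofReal_re, sq, mul_re] at h1
  have := (abs_le.mp h1).1
  nlinarith [sq_nonneg b.im]

theorem core {κ₁ κ₂ κ₃ w₁ w₂ w₃ : ℝ} (hκ₁ : 0 < κ₁) (hκ₂ : 0 < κ₂) (hκ₃ : 0 < κ₃)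
    (hw₁ : w₁ < 0) (hw₂ : w₂ < 0) (hw₃ : 0 < w₃) :
    ∃ δ : ℝ, 0 < δ ∧ ∀ (ε N : ℝ) (a₁ a₂ a₃ τ₁ τ₂ τ₃ ζ₁ ζ₂ ζ₃ : ℂ), 0 < ε → ε ≤ δ →
      ‖a₁‖ ≤ 25 → ‖a₂‖ ≤ 25 → ‖a₃‖ ≤ 25 → ‖τ₁‖ ≤ δ → ‖τ₂‖ ≤ δ → ‖τ₃‖ ≤ δ →
      ‖ζ₁‖ ≤ δ → ‖ζ₂‖ ≤ δ → ‖ζ₃‖ ≤ δ →
      (1 - a₁) ^ 2 * (w₁ + τ₁) = ε * (κ₁ * a₁ + ζ₁) →
      (1 - a₂) ^ 2 * (w₂ + τ₂) = ε * (κ₂ * a₂ + ζ₂) →
      (1 - a₃) ^ 2 * (w₃ + τ₃) = ε * (κ₃ * a₃ + ζ₃) →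
      (N - 1) ^ 2 ≤ δ * ε → a₃.re ≤ N →
      N - a₃.re ≤ 2 * (N - a₁.re) + 2 * (N - a₂.re) → False := by
  set γ₃ := κ₃ / w₃ with hγ₃
  have hγ₃0 : 0 < γ₃ := by positivity
  set s := Real.sqrt (γ₃ / 200) with hs
  have hs0 : 0 < s := Real.sqrt_pos.mpr (by positivity)
  have hs2 : s ^ 2 = γ₃ / 200 := Real.sq_sqrt (by positivity)
  have key : ∀ {κ w : ℝ}, 0 < κ → w < 0 → ∃ δ : ℝ, 0 < δ ∧ ∀ (ε : ℝ) (a τ ζ : ℂ), 0 < ε → ε ≤ δ →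
      ‖a‖ ≤ 25 → ‖τ‖ ≤ δ → ‖ζ‖ ≤ δ → (1 - a) ^ 2 * (w + τ) = ε * (κ * a + ζ) →
      (1 - a.re) ^ 2 ≤ ε * s ^ 2 := by
    intro κ w hκ hw
    set γ := κ / (-w) with hγ
    have hγ0 : 0 < γ := div_pos hκ (by linarith)
    have hη0 : 0 < min (γ / 2) (Real.sqrt (2 * γ) * s) :=
      lt_min (by positivity) (mul_pos (Real.sqrt_pos.mpr (by positivity)) hs0)
    obtain ⟨δ, hδ, H⟩ := approx_sq hκ hw.ne hη0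
    refine ⟨δ, hδ, fun ε a τ ζ hε hεδ ha hτ hζ heq => ?_⟩
    have h := H ε a τ ζ hε hεδ ha hτ hζ heq
    have hγ' : κ / w = -γ := by rw [hγ, div_neg, neg_neg]
    rw [hγ'] at h
    have := neg_side (s := s) hε hγ0 (min_le_left _ _) ?_ h
    · simpa using this
    · calc _ ≤ (Real.sqrt (2 * γ) * s) ^ 2 :=
            pow_le_pow_left₀ hη0.le (min_le_right _ _) 2
        _ = _ := by rw [mul_pow, Real.sq_sqrt (by positivity)]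
  obtain ⟨δ₁, hδ₁, H₁⟩ := key hκ₁ hw₁
  obtain ⟨δ₂, hδ₂, H₂⟩ := key hκ₂ hw₂
  obtain ⟨δ₃, hδ₃, H₃⟩ := approx_sq (η := γ₃ / 2) hκ₃ hw₃.ne' (by positivity)
  refine ⟨min (min δ₁ δ₂) (min δ₃ (s ^ 2)), by positivity, ?_⟩
  intro ε N a₁ a₂ a₃ τ₁ τ₂ τ₃ ζ₁ ζ₂ ζ₃ hε hεδ ha₁ ha₂ ha₃ hτ₁ hτ₂ hτ₃ hζ₁ hζ₂ hζ₃ e₁ e₂ e₃
    hN hle hineq
  have hN' : (N - 1) ^ 2 ≤ ε * s ^ 2 := by
    refine hN.trans ?_
    rw [mul_comm]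
    gcongr
    exact (min_le_right _ _).trans (min_le_right _ _)
  simp only [le_min_iff] at hεδ hτ₁ hτ₂ hτ₃ hζ₁ hζ₂ hζ₃
  have x₁ := H₁ ε a₁ τ₁ ζ₁ hε hεδ.1.1 ha₁ hτ₁.1.1 hζ₁.1.1 e₁
  have x₂ := H₂ ε a₂ τ₂ ζ₂ hε hεδ.1.2 ha₂ hτ₂.1.2 hζ₂.1.2 e₂
  have x₃ := pos_side (H₃ ε a₃ τ₃ ζ₃ hε hεδ.2.1 ha₃ hτ₃.2.1 hζ₃.2.1 e₃)
  simp only [sub_re, one_re] at x₃
  set r := Real.sqrt ε * s with hr
  have hr0 : 0 < r := mul_pos (Real.sqrt_pos.mpr hε) hs0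
  have hr2 : r ^ 2 = ε * s ^ 2 := by rw [hr, mul_pow, Real.sq_sqrt hε.le]
  rw [← hr2] at x₁ x₂ hN'
  have y₁ := abs_le_of_sq_le_sq' x₁ hr0.le
  have y₂ := abs_le_of_sq_le_sq' x₂ hr0.le
  have y₀ := abs_le_of_sq_le_sq' hN' hr0.le
  have y₃ : (10 * r) ^ 2 ≤ (1 - a₃.re) ^ 2 := by
    refine le_of_eq_of_le ?_ x₃
    rw [mul_pow, hr2, hs2]
    ring
  have hlow : -r ≤ 1 - a₃.re := by linarith [y₀.2]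
  have hup : 1 - a₃.re ≤ 7 * r := by linarith [y₀.2, y₁.2, y₂.2]
  nlinarith

end Pool.Agent.Lib.MP_ef05c8_mp
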