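import Pool.Agent.Lib.MP_ef05c8_mp.Basic
import Pool.Agent.Lib.MP_ef05c8_mp.Core

/-!
Non-existence for the Medium Equation at high density.
-/

open MeasureTheory Filter Topology Complex
open scoped RealInnerProductSpace

namespace Pool.Agent.Lib.MP_ef05c8_mp

variable {d : ℕ}

lemma integral_pos_of_ft_neg {v : Sp d → ℝ} (h0 : ∀ x, 0 ≤ v x) {k : Sp d}
    (hk : (ft v k).re < 0) : 0 < ∫ x, v x := by
  have h1 := norm_ft_le_of_nonneg h0 k
  have h2 := abs_re_le_norm (ft v k)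
  have h3 := neg_abs_le (ft v k).re
  have h4 : 0 < |(ft v k).re| := abs_pos.mpr hk.ne
  linarith

lemma ne_zero_of_ft_neg {v : Sp d → ℝ} (h0 : ∀ x, 0 ≤ v x) {k : Sp d}
    (hk : (ft v k).re < 0) : k ≠ 0 := by
  rintro rfl
  rw [ft_zero, ofReal_re] at hk
  exact absurd (integral_nonneg h0) (not_le.mpr hk)

lemma choose_k {v : Sp d → ℝ} (hv : Integrable v) (h0 : ∀ x, 0 ≤ v x) {k : Sp d}
    (hk : (ft v k).re < 0) : ∃ k₁ k₂ : Sp d, k₁ ≠ 0 ∧ k₂ ≠ 0 ∧ k₁ + k₂ ≠ 0 ∧
      (ft v k₁).re < 0 ∧ (ft v k₂).re < 0 ∧ 0 < (ft v (k₁ + k₂)).re := by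
  have hk0 := ne_zero_of_ft_neg h0 hk
  have hc : Continuous fun q : Sp d => (ft v q).re := continuous_re.comp (continuous_ft hv)
  have c1 : Continuous fun t : ℝ => (ft v (t • k)).re := hc.comp (by fun_prop)
  have c2 : Continuous fun t : ℝ => (ft v (t • k - k)).re := hc.comp (by fun_prop)
  have e1 : ∀ᶠ t in 𝓝 (0 : ℝ), 0 < (ft v (t • k)).re := by
    apply c1.continuousAt.eventually (p := fun y => 0 < y)
    apply lt_mem_nhds
    simpa [ft_zero] using integral_pos_of_ft_neg h0 hk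
  have e2 : ∀ᶠ t in 𝓝 (0 : ℝ), (ft v (t • k - k)).re < 0 := by
    apply c2.continuousAt.eventually (p := fun y => y < 0)
    apply gt_mem_nhds
    simpa [ft_neg_re hv] using hk
  have e3 : ∀ᶠ t in 𝓝[>] (0 : ℝ), 0 < t ∧ 0 < (ft v (t • k)).re ∧ (ft v (t • k - k)).re < 0 := by
    filter_upwards [self_mem_nhdsWithin, mem_nhdsWithin_of_mem_nhds e1,
      mem_nhdsWithin_of_mem_nhds e2] with t a b c using ⟨a, b, c⟩
  obtain ⟨t, ht, ht1, ht2⟩ := e3.exists
  have hsum : k + (t • k - k) = t • k := by abel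
  refine ⟨k, t • k - k, hk0, ne_zero_of_ft_neg h0 ht2, ?_, hk, ht2, ?_⟩
  · rw [hsum]; exact smul_ne_zero ht.ne' hk0
  · rw [hsum]; exact ht1

lemma small_uv {v : Sp d → ℝ} (hv : Integrable v) (h0 : ∀ x, 0 ≤ v x) {δ : ℝ} (hδ : 0 < δ) :
    ∃ c : ℝ, 0 < c ∧ ∀ u : Sp d → ℝ, Integrable u → (∀ x, 0 ≤ u x) → (∀ x, u x ≤ 1) →
      (∫ x, u x) ≤ c → ∫ x, u x * v x ≤ δ := by
  have hi : ∀ n : ℕ, Integrable fun x => max (v x - n) 0 := by
    intro n
    refine hv.mono' ((hv.aestronglyMeasurable.sub aestronglyMeasurable_const).sup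
      aestronglyMeasurable_const) (Eventually.of_forall fun x => ?_)
    rw [Real.norm_eq_abs, abs_of_nonneg (le_max_right _ _)]
    exact max_le (by linarith [Nat.cast_nonneg (α := ℝ) n]) (h0 x)
  have ht : Tendsto (fun n : ℕ => ∫ x, max (v x - n) 0) atTop (𝓝 (∫ _x : Sp d, (0 : ℝ))) := by
    refine tendsto_integral_of_dominated_convergence v (fun n => (hi n).aestronglyMeasurable) hv
      (fun n => Eventually.of_forall fun x => ?_) (Eventually.of_forall fun x => ?_)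
    · rw [Real.norm_eq_abs, abs_of_nonneg (le_max_right _ _)]
      exact max_le (by linarith [Nat.cast_nonneg (α := ℝ) n]) (h0 x)
    · apply tendsto_const_nhds.congr'
      obtain ⟨N, hN⟩ := exists_nat_gt (v x)
      filter_upwards [eventually_ge_atTop N] with n hn
      have : (N : ℝ) ≤ n := by exact_mod_cast hn
      rw [max_eq_right (by linarith)]
  rw [integral_zero] at ht
  obtain ⟨n, hn⟩ := (ht.eventually (gt_mem_nhds (half_pos hδ))).exists
  have hn0 : (0 : ℝ) ≤ n := Nat.cast_nonneg n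
  refine ⟨δ / (2 * (n + 1)), by positivity, fun u hu hu0 hu1 hc => ?_⟩
  calc ∫ x, u x * v x ≤ ∫ x, (u x * n + max (v x - n) 0) := by
        refine integral_mono_of_nonneg (Eventually.of_forall fun x => mul_nonneg (hu0 x) (h0 x))
          ((hu.mul_const _).add (hi n)) (Eventually.of_forall fun x => ?_)
        have a1 := le_max_left (v x - n) 0
        have a2 := le_max_right (v x - n) 0
        have := hu0 x
        have := hu1 x
        simp only
        nlinarith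
    _ = (∫ x, u x) * n + ∫ x, max (v x - n) 0 := by
        rw [integral_add (hu.mul_const _) (hi n), integral_mul_const]
    _ ≤ δ / (2 * (n + 1)) * (n + 1) + δ / 2 := by
        gcongr
        linarith
    _ = δ := by field_simp; ring

lemma integrable_mul_of_le_one {v u : Sp d → ℝ} (hv : Integrable v) (hu : Integrable u)
    (h0 : ∀ x, 0 ≤ u x) (h1 : ∀ x, u x ≤ 1) : Integrable fun x => u x * v x := by
  refine hv.bdd_mul (c := 1) hu.aestronglyMeasurable (Eventually.of_forall fun x => ?_)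
  rw [Real.norm_eq_abs, abs_of_nonneg (h0 x)]
  exact h1 x

lemma ft_Sfun {v u : Sp d → ℝ} (hv : Integrable v) (hu : Integrable u)
    (h0 : ∀ x, 0 ≤ u x) (h1 : ∀ x, u x ≤ 1) (k : Sp d) :
    ft (Sfun v u) k = ft v k - ft (fun x => u x * v x) k := by
  rw [← ft_sub hv (integrable_mul_of_le_one hv hu h0 h1)]
  congr 1
  ext x
  simp only [Sfun]
  ring

lemma integrable_mediumRHS (ρ : ℝ) {v u : Sp d → ℝ} (hS : Integrable (Sfun v u))
    (hu : Integrable u) : Integrable (mediumRHS ρ v u) :=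
  (hS.sub ((integrable_conv hu hS).const_mul _)).add
    ((integrable_conv hu (integrable_conv hu hS)).const_mul _)

lemma ft_mediumRHS (ρ : ℝ) {v u : Sp d → ℝ} (hS : Integrable (Sfun v u))
    (hu : Integrable u) (k : Sp d) :
    ft (mediumRHS ρ v u) k = ft (Sfun v u) k * (1 - ρ * ft u k) ^ 2 := by
  have hT := integrable_conv hu hS
  have hP := integrable_conv hu hT
  have h1 : mediumRHS ρ v u = fun x => (Sfun v u x - 2 * ρ * conv u (Sfun v u) x)
      + ρ ^ 2 * conv u (conv u (Sfun v u)) x := rfl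
  have h2 : Integrable fun x => Sfun v u x - 2 * ρ * conv u (Sfun v u) x :=
    hS.sub (hT.const_mul _)
  rw [h1, ft_add h2 (hP.const_mul _), ft_sub hS (hT.const_mul _),
    ft_const_mul, ft_const_mul, ft_conv hu hT, ft_conv hu hS]
  push_cast
  ring

lemma medium_mass {m ρ : ℝ} (hm : 0 < m) {v u : Sp d → ℝ} (hv : Integrable v)
    (hv0 : ∀ x, 0 ≤ v x) {k : Sp d} (hk : (ft v k).re < 0) (hu : Integrable u)
    (h0 : ∀ x, 0 ≤ u x) (h1 : ∀ x, u x ≤ 1) (h : WeakEq m u (mediumRHS ρ v u)) :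
    ρ * ∫ x, u x = 1 := by
  have hS := integrable_Sfun hv hu h0 h1
  have hF := integrable_mediumRHS ρ hS hu
  have e0 := h.ft_eq hu hF 0
  rw [ft_mediumRHS ρ hS hu, ft_zero, ft_zero] at e0
  simp only [norm_zero, ne_eq, OfNat.ofNat_ne_zero, not_false_eq_true, zero_pow, zero_div,
    ofReal_zero, zero_mul] at e0
  rcases mul_eq_zero.mp e0.symm with hs | hs
  · exfalso
    have hs' : ∫ x, Sfun v u x = 0 := by exact_mod_cast hs
    have hk0 := ne_zero_of_ft_neg hv0 hk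
    have hz : ∀ q : Sp d, ft (Sfun v u) q = 0 := fun q => by
      have := norm_ft_le_of_nonneg (Sfun_nonneg hv0 h1) q
      rw [hs'] at this
      exact norm_le_zero_iff.mp this
    have hz2 : ∀ t : ℝ, 0 < t → ft u (t • k) = 0 := fun t ht => by
      have e := h.ft_eq hu hF (t • k)
      rw [ft_mediumRHS ρ hS hu, hz, zero_mul] at e
      rcases mul_eq_zero.mp e with e | e
      · exfalso
        have : 0 < ‖t • k‖ := norm_pos_iff.mpr (smul_ne_zero ht.ne' hk0)
        have h3 : 0 < ‖t • k‖ ^ 2 / m := by positivity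
        exact h3.ne' (by exact_mod_cast e)
      · exact e
    have c1 : Continuous fun t : ℝ => ft u (t • k) := (continuous_ft hu).comp (by fun_prop)
    have t1 : Tendsto (fun t : ℝ => ft u (t • k)) (𝓝[>] 0) (𝓝 (ft u ((0 : ℝ) • k))) :=
      c1.continuousAt.tendsto.mono_left nhdsWithin_le_nhds
    have t2 : Tendsto (fun t : ℝ => ft u (t • k)) (𝓝[>] 0) (𝓝 0) := by
      apply tendsto_const_nhds.congr'
      filter_upwards [self_mem_nhdsWithin] with t ht using (hz2 t ht).symm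
    have e := tendsto_nhds_unique t1 t2
    rw [zero_smul, ft_zero] at e
    have e' : ∫ x, u x = 0 := by exact_mod_cast e
    have hu0 : u =ᵐ[volume] 0 := (integral_eq_zero_iff_of_nonneg h0 hu).mp e'
    have : ∫ x, Sfun v u x = ∫ x, v x := by
      apply integral_congr_ae
      filter_upwards [hu0] with x hx
      simp [Sfun, hx]
    have := integral_pos_of_ft_neg hv0 hk
    linarith
  · have := pow_eq_zero_iff (two_ne_zero) |>.mp hs
    have h3 : (1 : ℝ) - ρ * ∫ x, u x = 0 := by exact_mod_cast this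
    linarith

theorem medium_no_solution {m : ℝ} (hm : 0 < m) {v : Sp d → ℝ} (hv : Integrable v)
    (hv0 : ∀ x, 0 ≤ v x) (he : ∀ x, v (-x) = v x) {k : Sp d}
    (hk : ∫ x, v x * Real.cos ⟪k, x⟫ < 0) :
    ∃ ρ₀ : ℝ, 0 < ρ₀ ∧ ∀ ρ, ρ₀ ≤ ρ → ¬ ∃ u, IsMediumSolution m ρ v u := by
  rw [← ft_re hv] at hk
  obtain ⟨k₁, k₂, hk₁, hk₂, hk₃, w₁, w₂, w₃⟩ := choose_k hv hv0 hk
  have pos : ∀ q : Sp d, q ≠ 0 → 0 < ‖q‖ ^ 2 / m := fun q hq => by
    have := norm_pos_iff.mpr hq
    positivity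
  obtain ⟨δ, hδ, H⟩ := core (pos _ hk₁) (pos _ hk₂) (pos _ hk₃) w₁ w₂ w₃
  obtain ⟨c, hc, Hc⟩ := small_uv hv hv0 hδ
  refine ⟨max (1 / c) (1 / δ), by positivity, fun ρ hρ ⟨u', hu', hw'⟩ => ?_⟩
  have hρ0 : 0 < ρ := lt_of_lt_of_le (by positivity) hρ
  obtain ⟨u, hu, h0, h1, hae⟩ := hu'.exists_good
  have hw : WeakEq m u (mediumRHS ρ v u) := hw'.congr hae (mediumRHS_congr ρ hae)
  have hN := medium_mass hm hv hv0 hk hu h0 h1 hw
  have hS := integrable_Sfun hv hu h0 h1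
  have hF := integrable_mediumRHS ρ hS hu
  have hM : ∫ x, u x = 1 / ρ := by field_simp; linarith
  have hρc : 1 / ρ ≤ c := by
    rw [one_div_le hρ0 hc]; exact (le_max_left _ _).trans hρ
  have hρδ : 1 / ρ ≤ δ := by
    rw [one_div_le hρ0 hδ]; exact (le_max_right _ _).trans hρ
  have huv := Hc u hu h0 h1 (hM ▸ hρc)
  have ha : ∀ q : Sp d, ‖(ρ : ℂ) * ft u q‖ ≤ 25 := fun q => by
    rw [norm_mul, norm_real, Real.norm_eq_abs, abs_of_pos hρ0]
    have := mul_le_mul_of_nonneg_left (norm_ft_le_of_nonneg h0 q) hρ0.le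
    linarith
  have hτ : ∀ q : Sp d, ‖-ft (fun x => u x * v x) q‖ ≤ δ := fun q => by
    rw [norm_neg]
    exact (norm_ft_le_of_nonneg (fun x => mul_nonneg (h0 x) (hv0 x)) q).trans huv
  have heq : ∀ q : Sp d, (1 - (ρ : ℂ) * ft u q) ^ 2 * (((ft v q).re : ℂ)
      + -ft (fun x => u x * v x) q)
      = ((1 / ρ : ℝ) : ℂ) * (((‖q‖ ^ 2 / m : ℝ) : ℂ) * (ρ * ft u q) + 0) := fun q => by
    have e := hw.ft_eq hu hF q
    rw [ft_mediumRHS ρ hS hu, ft_Sfun hv hu h0 h1] at e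
    have hre : ((ft v q).re : ℂ) = ft v q := by
      apply Complex.ext <;> simp [ft_im_even hv he q]
    have hρc : (ρ : ℂ) ≠ 0 := by exact_mod_cast hρ0.ne'
    rw [hre, mul_comm, ← sub_eq_add_neg, ← e]
    push_cast
    field_simp
    ring
  refine H (1 / ρ) 1 _ _ _ _ _ _ 0 0 0 (by positivity) hρδ (ha k₁) (ha k₂) (ha (k₁ + k₂))
    (hτ k₁) (hτ k₂) (hτ (k₁ + k₂)) (by simpa using hδ.le) (by simpa using hδ.le)
    (by simpa using hδ.le) (heq k₁) (heq k₂) (heq (k₁ + k₂)) (by simp; positivity) ?_ ?_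
  · rw [re_ofReal_mul, ← hN]
    exact mul_le_mul_of_nonneg_left (ft_re_le h0 _) hρ0.le
  · simp only [re_ofReal_mul]
    have := mul_le_mul_of_nonneg_left (ft_re_ineq hu h0 k₁ k₂) hρ0.le
    rw [← hN]
    linarith

end Pool.Agent.Lib.MP_ef05c8_mp
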