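import Pool.Agent.Lib.MP_ef05c8_mp.Tail
import Pool.Agent.Lib.MP_ef05c8_mp.Medium

/-!
A priori bound on the mass of a solution of the Big Equation for a heavy-tailed potential.
-/

open MeasureTheory Filter Topology Complex Asymptotics
open scoped RealInnerProductSpace

namespace Pool.Agent.Lib.MP_ef05c8_mp

variable {d : ℕ}

/-- Standing hypotheses on the pair `(v, u)`. -/
structure Pair (v u : Sp d → ℝ) (V : ℝ) : Prop where
  hv : Integrable v
  v0 : ∀ x, 0 ≤ v x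
  vV : ∀ x, v x ≤ V
  hu : Integrable u
  u0 : ∀ x, 0 ≤ u x
  u1 : ∀ x, u x ≤ 1

/-- `T = u * S`. -/
noncomputable def Tf (v u : Sp d → ℝ) : Sp d → ℝ := conv u (Sfun v u)
/-- `P = u * u * S`. -/
noncomputable def Pf (v u : Sp d → ℝ) : Sp d → ℝ := conv u (Tf v u)
/-- `Q = u * (u T)`. -/
noncomputable def Qf (v u : Sp d → ℝ) : Sp d → ℝ := conv u (fun y => u y * Tf v u y)
/-- `W = -2ρ T + ρ² (P - 2 Q)`. -/
noncomputable def Wf (ρ : ℝ) (v u : Sp d → ℝ) : Sp d → ℝ :=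
  fun x => -2 * ρ * Tf v u x + ρ ^ 2 * (Pf v u x - 2 * Qf v u x)

lemma bigRHS_eq (ρ : ℝ) (v u : Sp d → ℝ) :
    bigRHS ρ v u = fun x => Sfun v u x + (1 - u x) * Wf ρ v u x := rfl

namespace Pair

variable {v u : Sp d → ℝ} {V : ℝ} (p : Pair v u V)
include p

lemma V0 : 0 ≤ V := (p.v0 0).trans (p.vV 0)
lemma M0 : 0 ≤ ∫ x, u x := integral_nonneg p.u0
lemma hS : Integrable (Sfun v u) := integrable_Sfun p.hv p.hu p.u0 p.u1
lemma S0 (x : Sp d) : 0 ≤ Sfun v u x := Sfun_nonneg p.v0 p.u1 x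
lemma s0 : 0 ≤ ∫ x, Sfun v u x := integral_nonneg p.S0
lemma SV (x : Sp d) : Sfun v u x ≤ V := by
  have := mul_nonneg (p.u0 x) (p.v0 x)
  have := p.vV x
  simp only [Sfun]
  linarith
lemma hT : Integrable (Tf v u) := integrable_conv p.hu p.hS
lemma T0 (x : Sp d) : 0 ≤ Tf v u x := conv_nonneg p.u0 p.S0 x
lemma Ts (x : Sp d) : Tf v u x ≤ ∫ y, Sfun v u y := by
  simpa [Tf] using conv_le_left p.hu p.hS p.u0 p.u1 p.S0 x
lemma TV (x : Sp d) : Tf v u x ≤ (∫ y, u y) * V := conv_le_right p.hu p.u0 p.S0 p.SV x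
lemma intT : ∫ x, Tf v u x = (∫ x, u x) * ∫ x, Sfun v u x := integral_conv p.hu p.hS
lemma mul_int {g : Sp d → ℝ} (hg : Integrable g) : Integrable fun x => u x * g x :=
  integrable_mul_of_le_one hg p.hu p.u0 p.u1
lemma one_sub_mul_int {g : Sp d → ℝ} (hg : Integrable g) :
    Integrable fun x => (1 - u x) * g x := integrable_Sfun hg p.hu p.u0 p.u1
lemma huT : Integrable fun x => u x * Tf v u x := p.mul_int p.hT
lemma uT0 (x : Sp d) : 0 ≤ u x * Tf v u x := mul_nonneg (p.u0 x) (p.T0 x)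
lemma uT_le (x : Sp d) : u x * Tf v u x ≤ Tf v u x := by
  have := mul_le_mul_of_nonneg_right (p.u1 x) (p.T0 x)
  linarith
lemma hP : Integrable (Pf v u) := integrable_conv p.hu p.hT
lemma P0 (x : Sp d) : 0 ≤ Pf v u x := conv_nonneg p.u0 p.T0 x
lemma Ps (x : Sp d) : Pf v u x ≤ (∫ y, u y) * ∫ y, Sfun v u y :=
  conv_le_right p.hu p.u0 p.T0 p.Ts x
lemma PV (x : Sp d) : Pf v u x ≤ (∫ y, u y) * ((∫ y, u y) * V) :=
  conv_le_right p.hu p.u0 p.T0 p.TV x
lemma intP : ∫ x, Pf v u x = (∫ x, u x) * ((∫ x, u x) * ∫ x, Sfun v u x) := by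
  rw [← p.intT]; exact integral_conv p.hu p.hT
lemma hQ : Integrable (Qf v u) := integrable_conv p.hu p.huT
lemma Q0 (x : Sp d) : 0 ≤ Qf v u x := conv_nonneg p.u0 p.uT0 x
lemma QP (x : Sp d) : Qf v u x ≤ Pf v u x :=
  conv_mono_right p.hu p.hT p.u0 p.u1 p.uT0 p.uT_le x
lemma intQ : ∫ x, Qf v u x = (∫ x, u x) * ∫ x, u x * Tf v u x := integral_conv p.hu p.huT
lemma hW (ρ : ℝ) : Integrable (Wf ρ v u) :=
  (p.hT.const_mul _).add ((p.hP.sub (p.hQ.const_mul _)).const_mul _)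
lemma hF (ρ : ℝ) : Integrable (bigRHS ρ v u) := p.hS.add (p.one_sub_mul_int (p.hW ρ))
lemma decT : Decays (Tf v u) := decays_conv p.hu p.hS p.u0 p.u1 p.S0 p.SV
lemma decP : Decays (Pf v u) := decays_conv p.hu p.hT p.u0 p.u1 p.T0 p.Ts

lemma absW (ρ : ℝ) (x : Sp d) : |Wf ρ v u x| ≤ 2 * |ρ| * Tf v u x + ρ ^ 2 * Pf v u x := by
  have h1 : |Pf v u x - 2 * Qf v u x| ≤ Pf v u x := by
    rw [abs_le]; constructor <;> linarith [p.Q0 x, p.QP x]
  calc _ ≤ |-2 * ρ * Tf v u x| + |ρ ^ 2 * (Pf v u x - 2 * Qf v u x)| := abs_add_le _ _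
    _ = 2 * |ρ| * Tf v u x + ρ ^ 2 * |Pf v u x - 2 * Qf v u x| := by
        simp [abs_mul, abs_of_nonneg (p.T0 x)]
    _ ≤ _ := by gcongr

lemma decW (ρ : ℝ) : Decays (Wf ρ v u) := by
  intro η hη
  obtain ⟨K₁, hK₁, H₁⟩ := p.decT (η / (2 * (2 * |ρ| + 1))) (by positivity)
  obtain ⟨K₂, hK₂, H₂⟩ := p.decP (η / (2 * (ρ ^ 2 + 1))) (by positivity)
  refine ⟨K₁ + K₂, by positivity, fun x hx => (p.absW ρ x).trans ?_⟩
  have a1 := (le_abs_self _).trans (H₁ x (by linarith))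
  have a2 := (le_abs_self _).trans (H₂ x (by linarith))
  calc _ ≤ (2 * |ρ| + 1) * (η / (2 * (2 * |ρ| + 1))) + (ρ ^ 2 + 1) * (η / (2 * (ρ ^ 2 + 1))) := by
        gcongr
        · exact p.T0 x
        · linarith
        · exact p.P0 x
        · linarith
    _ = η := by field_simp; ring

lemma int_one_sub_mul {g : Sp d → ℝ} (hg : Integrable g) :
    ∫ x, (1 - u x) * g x = (∫ x, g x) - ∫ x, u x * g x := by
  rw [← integral_sub hg (p.mul_int hg)]
  simp only [sub_mul, one_mul]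

end Pair

lemma Aq_add {f g : Sp d → ℝ} (hf : Integrable f) (hg : Integrable g) (k : Sp d) :
    Aq (fun x => f x + g x) k = Aq f k + Aq g k := by
  simp only [Aq, integral_add hf hg, ft_add hf hg, add_re]; ring

lemma Aq_sub {f g : Sp d → ℝ} (hf : Integrable f) (hg : Integrable g) (k : Sp d) :
    Aq (fun x => f x - g x) k = Aq f k - Aq g k := by
  simp only [Aq, integral_sub hf hg, ft_sub hf hg, sub_re]; ring

lemma Aq_const_mul (c : ℝ) (f : Sp d → ℝ) (k : Sp d) :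
    Aq (fun x => c * f x) k = c * Aq f k := by
  simp only [Aq, integral_const_mul, ft_const_mul, re_ofReal_mul]; ring

lemma WeakEq.integral_zero {m : ℝ} {u F : Sp d → ℝ} (h : WeakEq m u F) (hu : Integrable u)
    (hF : Integrable F) : ∫ x, F x = 0 := by
  have e := h.cos hu hF 0
  simpa using e.symm

/-- The tail inequality. -/
theorem big_tail {m ρ V : ℝ} (hρ : 0 < ρ) {v u : Sp d → ℝ} (p : Pair v u V)
    (hn : ¬ Integrable fun x => ‖x‖ ^ 2 * Sfun v u x) (h : WeakEq m u (bigRHS ρ v u)) :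
    ρ * ∫ x, u x = 1 ∨ ρ * ∫ x, (1 - u x) * Tf v u x ≤ ∫ x, Sfun v u x := by
  by_contra hcon
  push Not at hcon
  obtain ⟨hN, hδ⟩ := hcon
  obtain ⟨l, hl0, hl, hne, h2S⟩ := heavy_filter p.hS p.S0 hn
  set M := ∫ x, u x with hM
  set s := ∫ x, Sfun v u x with hs
  set Φ : Sp d → ℝ := fun k => Aq u k + Aq (Sfun v u) k with hΦ
  have Au0 := Aq_nonneg p.u0
  have AS0 := Aq_nonneg p.S0
  have hAu : Aq u =O[l] Φ := IsBigO.of_bound' (Eventually.of_forall fun k => by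
    rw [Real.norm_eq_abs, Real.norm_eq_abs, abs_of_nonneg (Au0 k),
      abs_of_nonneg (add_nonneg (Au0 k) (AS0 k))]
    linarith [AS0 k])
  have hAS : Aq (Sfun v u) =O[l] Φ := IsBigO.of_bound' (Eventually.of_forall fun k => by
    rw [Real.norm_eq_abs, Real.norm_eq_abs, abs_of_nonneg (AS0 k),
      abs_of_nonneg (add_nonneg (Au0 k) (AS0 k))]
    linarith [Au0 k])
  have h2 : (fun k => ‖k‖ ^ 2) =o[l] Φ := h2S.trans_isBigO hAS
  have RT := Aq_conv_isLittleO hl h2 p.hu p.hS p.u0 p.S0 hAu hAS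
  have hAT : Aq (Tf v u) =O[l] Φ := by
    have := RT.isBigO.add ((hAS.const_mul_left M).add (hAu.const_mul_left s))
    refine this.congr_left fun k => ?_
    simp only [Tf, hM, hs]
    ring
  have RP := Aq_conv_isLittleO hl h2 p.hu p.hT p.u0 p.T0 hAu hAT
  have RuT : Aq (fun x => u x * Tf v u x) =o[l] Φ :=
    Aq_mul_isLittleO h2 p.hu p.u0 hAu p.huT (C := s)
      (fun x => by rw [abs_of_nonneg (p.T0 x)]; exact p.Ts x) p.decT
  have RQ := Aq_conv_isLittleO hl h2 p.hu p.huT p.u0 p.uT0 hAu RuT.isBigO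
  have RW : Aq (fun x => u x * Wf ρ v u x) =o[l] Φ :=
    Aq_mul_isLittleO h2 p.hu p.u0 hAu (p.mul_int (p.hW ρ)) (C := 2 * |ρ| * s + ρ ^ 2 * (M * s))
      (fun x => (p.absW ρ x).trans (by gcongr; exacts [p.Ts x, p.Ps x])) (p.decW ρ)
  have RF : Aq (bigRHS ρ v u) =o[l] Φ := by
    refine IsBigO.trans_isLittleO (IsBigO.of_bound (|1 / m| * M)
      (Eventually.of_forall fun k => ?_)) h2
    have e1 := h.integral_zero p.hu (p.hF ρ)
    have e2 := congrArg Complex.re (h.ft_eq p.hu (p.hF ρ) k)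
    rw [re_ofReal_mul] at e2
    have e3 := (abs_re_le_norm _).trans (norm_ft_le_of_nonneg p.u0 k)
    simp only [Aq, e1, ← e2, zero_sub, norm_neg, Real.norm_eq_abs, abs_mul]
    rw [div_eq_mul_one_div, abs_mul]
    calc _ ≤ |‖k‖ ^ 2| * |1 / m| * M := by gcongr
      _ = _ := by ring
  have hAW : ∀ k, Aq (Wf ρ v u) k = -2 * ρ * Aq (Tf v u) k
      + ρ ^ 2 * (Aq (Pf v u) k - 2 * Aq (Qf v u) k) := by
    intro k
    have i1 : Integrable fun x => Pf v u x - 2 * Qf v u x := p.hP.sub (p.hQ.const_mul _)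
    unfold Wf
    rw [Aq_add (p.hT.const_mul _) (i1.const_mul _), Aq_const_mul, Aq_const_mul,
      Aq_sub p.hP (p.hQ.const_mul _), Aq_const_mul]
  have hAF : ∀ k, Aq (bigRHS ρ v u) k = Aq (Sfun v u) k + Aq (Wf ρ v u) k
      - Aq (fun x => u x * Wf ρ v u x) k := by
    intro k
    have e : bigRHS ρ v u = fun x => (Sfun v u x + Wf ρ v u x) - u x * Wf ρ v u x := by
      rw [bigRHS_eq]; ext x; ring
    have i1 : Integrable fun x => Sfun v u x + Wf ρ v u x := p.hS.add (p.hW ρ)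
    rw [e, Aq_sub i1 (p.mul_int (p.hW ρ)), Aq_add p.hS (p.hW ρ)]
  set δ := ∫ x, (1 - u x) * Tf v u x with hδdef
  have hδ' : δ = M * s - ∫ x, u x * Tf v u x := by
    rw [hδdef, p.int_one_sub_mul p.hT, p.intT]
  have main : (fun k => (1 - ρ * M) ^ 2 * Aq (Sfun v u) k + 2 * ρ * (ρ * δ - s) * Aq u k)
      =o[l] Φ := by
    have := ((((RF.add RW).add (RT.const_mul_left (2 * ρ - ρ ^ 2 * M))).sub
      (RP.const_mul_left (ρ ^ 2))).add (RQ.const_mul_left (2 * ρ ^ 2))).add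
      (RuT.const_mul_left (2 * ρ ^ 2 * M))
    refine this.congr_left fun k => ?_
    rw [hAF, hAW, hδ', p.intT]
    simp only [Tf, Pf, Qf, ← hM, ← hs]
    ring
  have c1 : 0 < (1 - ρ * M) ^ 2 := by
    have : 1 - ρ * M ≠ 0 := fun h => hN (by linarith)
    positivity
  have c2 : 0 < 2 * ρ * (ρ * δ - s) := mul_pos (by positivity) (by linarith)
  set c := min ((1 - ρ * M) ^ 2) (2 * ρ * (ρ * δ - s)) with hc
  have hc0 : 0 < c := lt_min c1 c2
  have ev1 := main.def (c := c / 2) (by positivity)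
  have ev2 := h2.def (c := 1) one_pos
  obtain ⟨k, hk1, hk2, hk3⟩ := (ev1.and (ev2.and hne)).exists
  have Φ0 : 0 ≤ Φ k := add_nonneg (Au0 k) (AS0 k)
  rw [Real.norm_eq_abs, Real.norm_eq_abs, abs_of_nonneg Φ0] at hk1 hk2
  have b1 := (le_abs_self _).trans hk1
  have b2 := (le_abs_self _).trans hk2
  have b3 : 0 < ‖k‖ ^ 2 := by have := norm_pos_iff.mpr hk3; positivity
  have b4 : c * Aq (Sfun v u) k ≤ (1 - ρ * M) ^ 2 * Aq (Sfun v u) k :=
    mul_le_mul_of_nonneg_right (min_le_left _ _) (AS0 k)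
  have b5 : c * Aq u k ≤ 2 * ρ * (ρ * δ - s) * Aq u k :=
    mul_le_mul_of_nonneg_right (min_le_right _ _) (Au0 k)
  have b6 : c * Φ k = c * Aq u k + c * Aq (Sfun v u) k := by simp only [hΦ]; ring
  have b7 : 0 < c * Φ k := mul_pos hc0 (by linarith)
  linarith

lemma Pair.norm_ft_sub_le {v u : Sp d → ℝ} {V : ℝ} (p : Pair v u V) {g : Sp d → ℝ}
    (hg : Integrable g) (g0 : ∀ x, 0 ≤ g x) {b : ℝ} (gb : ∀ x, g x ≤ b)
    (hint : ∫ x, g x = b * ∫ x, u x) (k : Sp d) :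
    ‖ft g k - b * ft u k‖ ≤ 2 * ∫ x, (1 - u x) * g x := by
  rw [← ft_const_mul, ← ft_sub hg (p.hu.const_mul b)]
  refine (norm_ft_le _ k).trans ?_
  have i1 := p.one_sub_mul_int hg
  have i2 : Integrable fun x => b * u x - u x * g x := (p.hu.const_mul b).sub (p.mul_int hg)
  calc _ ≤ ∫ x, ((1 - u x) * g x + (b * u x - u x * g x)) := by
        refine integral_mono (hg.sub (p.hu.const_mul b)).abs (i1.add i2) fun x => ?_
        have a1 := mul_nonneg (sub_nonneg.mpr (p.u1 x)) (g0 x)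
        have a2 := mul_nonneg (p.u0 x) (sub_nonneg.mpr (gb x))
        simp only
        rw [abs_le]
        constructor <;> nlinarith
    _ = _ := by
        rw [integral_add i1 i2, integral_sub (p.hu.const_mul b) (p.mul_int hg),
          integral_const_mul, p.int_one_sub_mul hg, hint]
        ring

lemma exists_norm_ft_half (hd : 1 ≤ d) {u : Sp d → ℝ} (hu : Integrable u) (h0 : ∀ x, 0 ≤ u x) :
    ∃ k : Sp d, ‖ft u k‖ = (∫ x, u x) / 2 := by
  have hM : 0 ≤ ∫ x, u x := integral_nonneg h0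
  have e0 : ‖ft u 0‖ = ∫ x, u x := by
    rw [ft_zero, norm_real, Real.norm_eq_abs, abs_of_nonneg hM]
  rcases hM.eq_or_lt with hz | hpos
  · exact ⟨0, by rw [e0, ← hz]; simp⟩
  let e : Sp d := EuclideanSpace.single ⟨0, hd⟩ 1
  have he : e ≠ 0 := by
    intro h
    have : ‖e‖ = 1 := by simp [e]
    rw [h, norm_zero] at this
    exact zero_ne_one this
  have ht := (ft_tendsto_zero u he).norm
  rw [norm_zero] at ht
  obtain ⟨t, ht⟩ := (ht.eventually (gt_mem_nhds (half_pos hpos))).exists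
  have hc : Continuous fun k : Sp d => ‖ft u k‖ := (continuous_ft hu).norm
  have := intermediate_value_univ (t • e) 0 hc (show (∫ x, u x) / 2 ∈ Set.Icc _ _ from
    ⟨ht.le, by rw [e0]; linarith⟩)
  exact this

/-- The a priori bound. -/
theorem big_mass_le (hd : 1 ≤ d) {m ρ V : ℝ} (hρ : 0 < ρ) {v u : Sp d → ℝ} (p : Pair v u V)
    (hn : ¬ Integrable fun x => ‖x‖ ^ 2 * Sfun v u x) (h : WeakEq m u (bigRHS ρ v u)) :
    ρ * ∫ x, u x ≤ 25 := by
  rcases big_tail hρ p hn h with h1 | hδ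
  · rw [h1]; norm_num
  set M := ∫ x, u x with hM
  set s := ∫ x, Sfun v u x with hs
  have hM0 : 0 ≤ M := p.M0
  have hs0 : 0 < s := by
    refine p.s0.lt_of_ne fun hz => hn ?_
    have : Sfun v u =ᵐ[volume] 0 := (integral_eq_zero_iff_of_nonneg p.S0 p.hS).mp hz.symm
    refine (integrable_zero _ _ _).congr ?_
    filter_upwards [this] with x hx
    simp [hx]
  set δ := ∫ x, (1 - u x) * Tf v u x with hδdef
  set π' := ∫ x, (1 - u x) * Pf v u x with hπ
  have δ0 : 0 ≤ δ := integral_nonneg fun x => mul_nonneg (sub_nonneg.mpr (p.u1 x)) (p.T0 x)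
  have hδ' : δ = M * s - ∫ x, u x * Tf v u x := by
    rw [hδdef, p.int_one_sub_mul p.hT, p.intT]
  have e1 := h.integral_zero p.hu (p.hF ρ)
  have iPQ : Integrable fun x => Pf v u x - Qf v u x := p.hP.sub p.hQ
  have e2 : ∫ x, (1 - u x) * (Pf v u x - Qf v u x) ≤ M * δ := by
    calc _ ≤ ∫ x, (Pf v u x - Qf v u x) := by
          refine integral_mono (p.one_sub_mul_int iPQ) iPQ fun x => ?_
          have := mul_nonneg (p.u0 x) (sub_nonneg.mpr (p.QP x))
          simp only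
          nlinarith
      _ = M * δ := by
          rw [integral_sub p.hP p.hQ, p.intP, p.intQ, hδ']
          ring
  have e3 : ∫ x, bigRHS ρ v u x = s - 2 * ρ * δ
      + ρ ^ 2 * (2 * (∫ x, (1 - u x) * (Pf v u x - Qf v u x)) - π') := by
    have e : bigRHS ρ v u = fun x => (Sfun v u x - 2 * ρ * ((1 - u x) * Tf v u x))
        + ρ ^ 2 * (2 * ((1 - u x) * (Pf v u x - Qf v u x)) - (1 - u x) * Pf v u x) := by
      rw [bigRHS_eq]; ext x; simp only [Wf]; ring
    have i1 := (p.one_sub_mul_int p.hT).const_mul (2 * ρ)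
    have i2 := (p.one_sub_mul_int iPQ).const_mul 2
    have i3 := p.one_sub_mul_int p.hP
    have i4 : Integrable fun x => Sfun v u x - 2 * ρ * ((1 - u x) * Tf v u x) := p.hS.sub i1
    have i5 : Integrable fun x => 2 * ((1 - u x) * (Pf v u x - Qf v u x))
        - (1 - u x) * Pf v u x := i2.sub i3
    rw [e, integral_add i4 (i5.const_mul _), integral_sub p.hS i1, integral_const_mul,
      integral_const_mul, integral_sub i2 i3, integral_const_mul]
  have e4 : ρ ^ 2 * π' ≤ s + 2 * (ρ * M) * s := by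
    have a1 : ρ ^ 2 * (M * δ) ≤ (ρ * M) * s := by
      calc _ = (ρ * M) * (ρ * δ) := by ring
        _ ≤ _ := by gcongr
    have a2 := mul_le_mul_of_nonneg_left e2 (sq_nonneg ρ)
    have a3 : 0 ≤ ρ * δ := by positivity
    rw [e3] at e1
    nlinarith
  obtain ⟨k, hk⟩ := exists_norm_ft_half hd p.hu p.u0
  have f1 := p.norm_ft_sub_le p.hT p.T0 p.Ts (by rw [p.intT, mul_comm]) k
  have f2 := p.norm_ft_sub_le p.hP p.P0 p.Ps (by rw [p.intP]; ring) k
  rw [← hM] at hk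
  rw [← hs, ← hδdef] at f1
  rw [← hs, ← hM, ← hπ] at f2
  have f3 : ft (Pf v u) k = ft u k * ft (Tf v u) k := ft_conv p.hu p.hT k
  have f4 : M / 2 ≤ ‖ft u k - M‖ := by
    have := norm_sub_norm_le (M : ℂ) (ft u k)
    rw [norm_real, Real.norm_eq_abs, abs_of_nonneg hM0, hk, norm_sub_rev] at this
    linarith
  have f5 : (s : ℂ) * ft u k * (ft u k - M)
      = (ft (Pf v u) k - ((M * s : ℝ) : ℂ) * ft u k) - ft u k * (ft (Tf v u) k - s * ft u k) := by
    rw [f3]; push_cast; ring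
  have f6 : s * (M / 2) * (M / 2) ≤ 2 * π' + M / 2 * (2 * δ) := by
    calc _ ≤ s * (M / 2) * ‖ft u k - M‖ := by gcongr
      _ = ‖(s : ℂ) * ft u k * (ft u k - M)‖ := by
          rw [norm_mul, norm_mul, norm_real, Real.norm_eq_abs, abs_of_pos hs0, hk]
      _ ≤ ‖ft (Pf v u) k - ((M * s : ℝ) : ℂ) * ft u k‖
          + ‖ft u k * (ft (Tf v u) k - s * ft u k)‖ := by rw [f5]; exact norm_sub_le _ _
      _ ≤ _ := by
          rw [norm_mul, hk]
          gcongr
  set N := ρ * M with hN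
  have hN0 : 0 ≤ N := by positivity
  have f7 : s * (N ^ 2 / 4) ≤ s * (2 + 5 * N) := by
    have a1 := mul_le_mul_of_nonneg_left f6 (sq_nonneg ρ)
    have a2 : N * (ρ * δ) ≤ N * s := by gcongr
    have a3 : ρ ^ 2 * (s * (M / 2) * (M / 2)) = s * (N ^ 2 / 4) := by rw [hN]; ring
    have a4 : ρ ^ 2 * (2 * π' + M / 2 * (2 * δ)) = 2 * (ρ ^ 2 * π') + N * (ρ * δ) := by
      rw [hN]; ring
    rw [a3, a4] at a1
    linarith
  have f8 := le_of_mul_le_mul_left f7 hs0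
  nlinarith

end Pool.Agent.Lib.MP_ef05c8_mp
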