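import Mathlib

/-!
Definitions for the Medium and Big Equations of the Simplified approach to the Bose gas.
-/

open MeasureTheory
open scoped ContDiff

namespace Pool.Agent.Lib.MP_ef05c8_mp

/-- Euclidean space of dimension `d`, with Lebesgue measure `volume`. -/
abbrev Sp (d : ℕ) : Type := EuclideanSpace ℝ (Fin d)

/-- Convolution `(f * g)(x) = ∫ f(x - y) g(y) dy`. -/
noncomputable def conv {d : ℕ} (f g : Sp d → ℝ) : Sp d → ℝ :=
  fun x => ∫ y, f (x - y) * g y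

/-- Admissible potentials: `v ≥ 0`, not a.e. zero, in `L¹ ∩ Lᵖ` for some `p > max (d/2) 1`. -/
def Admissible {d : ℕ} (v : Sp d → ℝ) : Prop :=
  (∀ x, 0 ≤ v x) ∧ ¬ (v =ᵐ[volume] 0) ∧ Integrable v ∧
    ∃ p : ℝ, max ((d : ℝ) / 2) 1 < p ∧ MemLp v (ENNReal.ofReal p)

/-- The function `S = (1 - u) v`. -/
def Sfun {d : ℕ} (v u : Sp d → ℝ) : Sp d → ℝ := fun x => (1 - u x) * v x

/-- Right-hand side of the Medium Equation: `(1-u)v - 2ρ u*S + ρ² u*u*S`. -/
noncomputable def mediumRHS {d : ℕ} (ρ : ℝ) (v u : Sp d → ℝ) : Sp d → ℝ :=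
  fun x => (1 - u x) * v x - 2 * ρ * conv u (Sfun v u) x
    + ρ ^ 2 * conv u (conv u (Sfun v u)) x

/-- The function `K = u*S` of the Big Equation. -/
noncomputable def bigK {d : ℕ} (v u : Sp d → ℝ) : Sp d → ℝ := conv u (Sfun v u)

/-- The function `L = u*u*S - 2 u*(u (u*S))` of the Big Equation. -/
noncomputable def bigL {d : ℕ} (v u : Sp d → ℝ) : Sp d → ℝ :=
  fun x => conv u (conv u (Sfun v u)) x
    - 2 * conv u (fun y => u y * conv u (Sfun v u) y) x

/-- Right-hand side of the Big Equation: `(1-u)v + (1-u)(-2ρ K + ρ² L)`. -/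
noncomputable def bigRHS {d : ℕ} (ρ : ℝ) (v u : Sp d → ℝ) : Sp d → ℝ :=
  fun x => (1 - u x) * v x + (1 - u x) * (-2 * ρ * bigK v u x + ρ ^ 2 * bigL v u x)

/-- `-(1/m) Δ u = F` in the sense of distributions: tested against every smooth compactly
supported function. -/
def WeakEq {d : ℕ} (m : ℝ) (u F : Sp d → ℝ) : Prop :=
  ∀ φ : Sp d → ℝ, ContDiff ℝ ∞ φ → HasCompactSupport φ →
    ∫ x, -(1 / m) * (u x * Laplacian.laplacian φ x) = ∫ x, F x * φ x

/-- An integrable function with values in `[0,1]` almost everywhere. -/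
def InClass {d : ℕ} (u : Sp d → ℝ) : Prop :=
  Integrable u ∧ ∀ᵐ x, 0 ≤ u x ∧ u x ≤ 1

/-- `u` solves the Medium Equation. -/
def IsMediumSolution {d : ℕ} (m ρ : ℝ) (v u : Sp d → ℝ) : Prop :=
  InClass u ∧ WeakEq m u (mediumRHS ρ v u)

/-- `u` solves the Big Equation. -/
def IsBigSolution {d : ℕ} (m ρ : ℝ) (v u : Sp d → ℝ) : Prop :=
  InClass u ∧ WeakEq m u (bigRHS ρ v u)

end Pool.Agent.Lib.MP_ef05c8_mp
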