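import Pool.Agent.Lib.MP_ef05c8_mp.Zyg

/-!
A potential of positive type whose transform is rough at a non-zero frequency.
-/

open MeasureTheory Filter Topology Asymptotics
open scoped RealInnerProductSpace

namespace Pool.Agent.Lib.MP_ef05c8_mp

variable {d : ℕ}

/-- Wide Gaussians of mass `2 ^ (-j)`. -/
noncomputable def oscG (d j : ℕ) (x : Sp d) : ℝ :=
  (1 / 2) ^ j * (((Real.pi / (1 / 16) ^ j) ^ ((d : ℝ) / 2))⁻¹ * Real.exp (-(1 / 16) ^ j * ‖x‖ ^ 2))

/-- Their transforms. -/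
noncomputable def oscT (j : ℕ) (k : Sp d) : ℝ := (1 / 2) ^ j * Real.exp (-(16 ^ j / 4 * ‖k‖ ^ 2))

/-- The envelope. -/
noncomputable def oscW (d : ℕ) (x : Sp d) : ℝ := ∑' j, oscG d j x

lemma oscG_pos (j : ℕ) (x : Sp d) : 0 < oscG d j x := by
  unfold oscG
  positivity

lemma oscG_le (j : ℕ) (x : Sp d) : ‖oscG d j x‖ ≤ (1 / 2) ^ j := by
  rw [Real.norm_eq_abs, abs_of_pos (oscG_pos j x)]
  refine mul_le_of_le_one_right (by positivity) (mul_le_one₀ (inv_le_one_of_one_le₀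
    (Real.one_le_rpow ?_ (by positivity))) (Real.exp_pos _).le (gauss_le_one (by positivity) x))
  rw [one_le_div (by positivity)]
  exact (pow_le_one₀ (by norm_num) (by norm_num)).trans (by linarith [Real.pi_gt_three])

lemma oscG_int (j : ℕ) : Integrable (oscG d j) :=
  ((integrable_gauss (by positivity)).const_mul _).const_mul _

lemma oscG_cos (j : ℕ) (k : Sp d) : ∫ x, oscG d j x * Real.cos ⟪k, x⟫ = oscT j k := by
  have b : (0 : ℝ) < (1 / 16) ^ j := by positivity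
  simp only [oscG, mul_assoc]
  rw [integral_const_mul, integral_const_mul, ← ft_re (integrable_gauss b), ft_gauss_re b,
    inv_mul_cancel_left₀ (by positivity), oscT]
  congr 2
  rw [one_div, inv_pow]
  field_simp

lemma oscT_pos (j : ℕ) (k : Sp d) : 0 < oscT j k := by
  unfold oscT
  positivity

lemma oscT_zero (j : ℕ) : oscT j (0 : Sp d) = (1 / 2) ^ j := by simp [oscT]

lemma oscG_sum (x : Sp d) : Summable fun j => oscG d j x :=
  .of_norm_bounded summable_geometric_two fun j => oscG_le j x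

lemma oscW_cont : Continuous (oscW d) :=
  continuous_tsum (fun j => by unfold oscG; fun_prop) summable_geometric_two oscG_le

lemma oscW_pos (x : Sp d) : 0 < oscW d x :=
  (oscG_sum x).tsum_pos (fun j => (oscG_pos j x).le) 0 (oscG_pos 0 x)

lemma oscW_le (x : Sp d) : oscW d x ≤ 2 :=
  hasSum_le (fun j => (le_abs_self _).trans (oscG_le j x)) (oscG_sum x).hasSum hasSum_geometric_two

lemma oscG_mass (j : ℕ) : ∫ x, ‖oscG d j x‖ = (1 / 2) ^ j := by
  rw [← oscT_zero (d := d), ← oscG_cos]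
  simp [abs_of_pos (oscG_pos j _)]

lemma oscW_int : Integrable (oscW d) := by
  refine ⟨oscW_cont.aestronglyMeasurable, ?_⟩
  rw [hasFiniteIntegral_iff_ofReal (.of_forall fun x => (oscW_pos x).le)]
  simp only [oscW, fun x : Sp d =>
    ENNReal.ofReal_tsum_of_nonneg (fun j => (oscG_pos j x).le) (oscG_sum x)]
  rw [lintegral_tsum fun j => (oscG_int j).aemeasurable.ennreal_ofReal]
  simp only [fun j => (ofReal_integral_eq_lintegral_ofReal (oscG_int (d := d) j)
    (.of_forall fun x => (oscG_pos j x).le)).symm]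
  have e : ∀ j, ∫ x, oscG d j x = (1 / 2) ^ j := fun j => by
    simpa [abs_of_pos (oscG_pos j _)] using oscG_mass (d := d) j
  simp only [e]
  rw [← ENNReal.ofReal_tsum_of_nonneg (fun j => by positivity) summable_geometric_two]
  exact ENNReal.ofReal_lt_top

lemma oscW_cos (k : Sp d) :
    HasSum (fun j => oscT j k) (∫ x, oscW d x * Real.cos ⟪k, x⟫) := by
  simp only [← oscG_cos, oscW, ← tsum_mul_right]
  refine hasSum_integral_of_summable_integral_norm (fun j => integrable_mul_cos (oscG_int j) k)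
    (summable_geometric_two.of_nonneg_of_le (fun j => integral_nonneg fun _ => norm_nonneg _)
      fun j => ?_)
  rw [← oscG_mass (d := d)]
  refine integral_mono (integrable_mul_cos (oscG_int j) k).norm (oscG_int j).norm fun x => ?_
  simp only [norm_mul]
  exact mul_le_of_le_one_right (norm_nonneg _) (Real.abs_cos_le_one _)

lemma osc_exp {A s t : ℝ} (hA : 0 ≤ A) (hs : 1 / 4 ≤ s) :
    Real.exp (-(A * s)) - Real.exp (-(A * t)) ≤ 4 * |s - t| := by
  have e := Real.exp_pos (-(A * s))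
  have h1 : A * s * Real.exp (-(A * s)) ≤ 1 := by
    rw [Real.exp_neg, ← div_eq_mul_inv, div_le_one (Real.exp_pos _)]
    linarith [Real.add_one_le_exp (A * s)]
  have h2 : Real.exp (-(A * t)) = Real.exp (-(A * s)) * Real.exp (A * (s - t)) := by
    rw [← Real.exp_add]
    congr 1
    ring
  have h3 : A * Real.exp (-(A * s)) ≤ 4 := by nlinarith [mul_nonneg hA e.le]
  have h4 := mul_le_mul_of_nonneg_left (Real.add_one_le_exp (A * (s - t))) e.le
  have h5 := mul_le_mul_of_nonneg_left (neg_le_abs (s - t)) (mul_nonneg hA e.le)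
  have h6 := mul_le_mul_of_nonneg_right h3 (abs_nonneg (s - t))
  rw [h2]
  nlinarith

lemma oscW_lip {q h : Sp d} (h1 : 1 ≤ ‖q‖) (h2 : ‖q‖ ≤ 2) (h3 : ‖h‖ ≤ 1 / 2) :
    (∫ x, oscW d x * Real.cos ⟪q + h, x⟫) - ∫ x, oscW d x * Real.cos ⟪q, x⟫ ≤ 40 * ‖h‖ := by
  have a := abs_le.1 (show |‖q + h‖ - ‖q‖| ≤ ‖h‖ by simpa using abs_norm_sub_norm_le (q + h) q)
  have n := norm_nonneg h
  have b : |‖q + h‖ ^ 2 - ‖q‖ ^ 2| ≤ 5 * ‖h‖ := abs_le.2 ⟨by nlinarith, by nlinarith⟩
  refine (hasSum_le (fun j => ?_) ((oscW_cos _).sub (oscW_cos _))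
    (hasSum_geometric_two.mul_right (20 * ‖h‖))).trans_eq (by ring)
  rw [oscT, oscT, ← mul_sub]
  exact mul_le_mul_of_nonneg_left ((osc_exp (by positivity) (by nlinarith)).trans (by linarith))
    (by positivity)

lemma oscW_drop {h : Sp d} {j : ℕ} (hj : ‖h‖ = (1 / 4) ^ j) : (1 / 2) ^ j * (1 / 5) ≤
    (∫ x, oscW d x * Real.cos ⟪(0 : Sp d), x⟫) - ∫ x, oscW d x * Real.cos ⟪h, x⟫ := by
  refine le_trans ?_ (le_hasSum ((oscW_cos _).sub (oscW_cos _)) j fun i _ => ?_)
  · rw [oscT_zero, oscT, hj, ← mul_one_sub, ← pow_mul, mul_comm j, pow_mul, div_mul_eq_mul_div,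
      ← mul_pow]
    refine mul_le_mul_of_nonneg_left ?_ (by positivity)
    have := Real.add_one_le_exp (1 / 4)
    rw [show (16 : ℝ) * (1 / 4) ^ 2 = 1 by norm_num, one_pow, Real.exp_neg]
    linarith [(inv_le_comm₀ (Real.exp_pos (1 / 4)) (by norm_num : (0 : ℝ) < 4 / 5)).2
      (by linarith)]
  · rw [oscT_zero, oscT, sub_nonneg]
    exact mul_le_of_le_one_right (by positivity)
      (Real.exp_le_one_iff.2 (neg_nonpos.2 (by positivity)))

/-- The potential. -/
noncomputable def oscV (e : Sp d) (x : Sp d) : ℝ := (1 + Real.cos ⟪e, x⟫) * oscW d x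

lemma oscV_cos (e k : Sp d) : ∫ x, oscV e x * Real.cos ⟪k, x⟫ =
    (∫ x, oscW d x * Real.cos ⟪k, x⟫) + ((∫ x, oscW d x * Real.cos ⟪k + e, x⟫) +
      ∫ x, oscW d x * Real.cos ⟪k - e, x⟫) / 2 := by
  have i := integrable_mul_cos (oscW_int (d := d))
  rw [← integral_add' (i _) (i _), ← integral_div,
    ← integral_add (i _) (((i _).add (i _)).div_const _)]
  congr 1
  ext x
  rw [Pi.add_apply, inner_add_left, inner_sub_left, Real.cos_add, Real.cos_sub, oscV]
  ring

theorem exists_osc (hd : 1 ≤ d) : ∃ v : Sp d → ℝ, Admissible v ∧ Continuous v ∧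
    (∀ x, v (-x) = v x) ∧ (∀ x, v x ≤ 4) ∧ (∀ k : Sp d, 0 < ∫ x, v x * Real.cos ⟪k, x⟫) ∧
    ∀ m ρ : ℝ, 0 < m → 0 < ρ → ¬ ∃ u, IsMediumSolution m ρ v u := by
  let e : Sp d := EuclideanSpace.single ⟨0, hd⟩ 1
  have he : ‖e‖ = 1 := by simp only [e, PiLp.norm_single, norm_one]
  have c0 : ∀ x, 0 ≤ 1 + Real.cos ⟪e, x⟫ := fun x => by linarith [Real.neg_one_le_cos ⟪e, x⟫]
  have v0 : ∀ x, 0 ≤ oscV e x := fun x => mul_nonneg (c0 x) (oscW_pos x).le
  have v4 : ∀ x, oscV e x ≤ 4 := fun x => (mul_le_mul (by linarith [Real.cos_le_one ⟪e, x⟫])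
    (oscW_le x) (oscW_pos x).le zero_le_two).trans_eq (by norm_num)
  have vI : Integrable (oscV e) := (oscW_int.add (integrable_mul_cos oscW_int e)).congr
    (.of_forall fun x => by simp only [Pi.add_apply, oscV]; ring)
  have W : ∀ k : Sp d, 0 < ∫ x, oscW d x * Real.cos ⟪k, x⟫ := fun k =>
    (oscT_pos 0 k).trans_le (le_hasSum (oscW_cos k) 0 fun i _ => (oscT_pos i k).le)
  have pos : ∀ k : Sp d, 0 < ∫ x, oscV e x * Real.cos ⟪k, x⟫ := fun k => by
    rw [oscV_cos]
    linarith [W k, W (k + e), W (k - e)]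
  have ad : Admissible (oscV e) := ⟨v0, fun h => (pos 0).ne' (integral_eq_zero_of_ae
    (h.mono fun x hx => by simp [hx])), vI, max ((d : ℝ) / 2) 1 + 1, by linarith,
    memLp_of_bounded_integrable vI v0 v4 (by linarith [le_max_right ((d : ℝ) / 2) 1])⟩
  refine ⟨oscV e, ad, (by fun_prop : Continuous fun x => 1 + Real.cos ⟪e, x⟫).mul oscW_cont,
    fun x => by simp [oscV, oscW, oscG], v4, pos, fun m ρ hm hρ ⟨u, hu⟩ => ?_⟩
  obtain ⟨C, hC⟩ := (medium_zyg hm hρ ad v4 hu (norm_pos_iff.1 (he ▸ one_pos))).bound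
  have t4 := tendsto_pow_atTop_nhds_zero_of_lt_one (r := (1 / 4 : ℝ)) (by norm_num) (by norm_num)
  have t2 := (tendsto_pow_atTop_nhds_zero_of_lt_one (r := (1 / 2 : ℝ)) (by norm_num)
    (by norm_num)).const_mul (C + 120)
  have ts : Tendsto (fun j : ℕ => (1 / 4 : ℝ) ^ j • e) atTop (𝓝 0) := by
    simpa using t4.smul_const e
  obtain ⟨j, k1, k2, k3⟩ := ((ts.eventually hC).and ((t4.eventually_le_const one_half_pos).and
    (t2.eventually_lt_const (by norm_num : (C + 120) * 0 < 1 / 5)))).exists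
  have hn : ‖(1 / 4 : ℝ) ^ j • e‖ = (1 / 4) ^ j := by
    rw [norm_smul, he, mul_one, Real.norm_eq_abs, abs_of_pos (by positivity)]
  generalize (1 / 4 : ℝ) ^ j • e = h at k1 hn
  have hn' : ‖-h‖ = (1 / 4) ^ j := by rwa [norm_neg]
  have e2 : ‖e + e‖ = 2 := by rw [← two_smul ℝ e, norm_smul, he]; simp
  have a1 := oscW_lip he.ge (by linarith) (hn ▸ k2)
  have a2 := oscW_lip he.ge (by linarith) (hn' ▸ k2)
  have a3 := oscW_lip (q := e + e) (by linarith) e2.le (hn ▸ k2)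
  have a4 := oscW_lip (q := e + e) (by linarith) e2.le (hn' ▸ k2)
  have a5 := oscW_drop hn
  have a6 := oscW_drop hn'
  simp only [ft_re vI, oscV_cos, sub_eq_add_neg e h, add_right_comm e _ e, add_sub_cancel_left,
    sub_self, Real.norm_eq_abs, abs_norm] at k1
  have a7 := (abs_le.1 k1).1
  have q : (1 / 4 : ℝ) ^ j = (1 / 2) ^ j * (1 / 2) ^ j := by rw [← mul_pow]; norm_num
  rw [hn] at a1 a3 a7
  rw [hn'] at a2 a4
  have a8 := mul_lt_mul_of_pos_left k3 (show (0 : ℝ) < (1 / 2) ^ j by positivity)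
  rw [mul_left_comm, ← q, add_mul] at a8
  linarith

end Pool.Agent.Lib.MP_ef05c8_mp
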