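import Pool.Agent.Lib.MP_ef05c8_mp.Basic

/-!
Small wave-vector calculus for the functional `f ↦ ∫ f (1 - cos ⟨k,x⟩)`.
-/

open MeasureTheory Filter Topology Complex Asymptotics
open scoped RealInnerProductSpace

namespace Pool.Agent.Lib.MP_ef05c8_mp

variable {d : ℕ}

/-- The part of `f` outside the ball of radius `K`. -/
noncomputable def far (f : Sp d → ℝ) (K : ℝ) : Sp d → ℝ := {x | K ≤ ‖x‖}.indicator f

lemma measurableSet_far (K : ℝ) : MeasurableSet {x : Sp d | K ≤ ‖x‖} :=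
  (isClosed_le continuous_const continuous_norm).measurableSet

lemma integrable_far {f : Sp d → ℝ} (hf : Integrable f) (K : ℝ) : Integrable (far f K) :=
  hf.indicator (measurableSet_far K)

lemma far_nonneg {f : Sp d → ℝ} (h0 : ∀ x, 0 ≤ f x) (K : ℝ) (x : Sp d) : 0 ≤ far f K x :=
  Set.indicator_nonneg (fun y _ => h0 y) x

lemma far_of_le {f : Sp d → ℝ} {K : ℝ} {x : Sp d} (h : K ≤ ‖x‖) : far f K x = f x :=
  Set.indicator_of_mem (s := {x : Sp d | K ≤ ‖x‖}) h f

lemma exists_far_le {f : Sp d → ℝ} (hf : Integrable f) (h0 : ∀ x, 0 ≤ f x) {η : ℝ}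
    (hη : 0 < η) : ∃ K : ℝ, 0 ≤ K ∧ ∫ x, far f K x ≤ η := by
  have ht : Tendsto (fun n : ℕ => ∫ x, far f n x) atTop (𝓝 (∫ _x : Sp d, (0 : ℝ))) := by
    refine tendsto_integral_of_dominated_convergence f
      (fun n => (integrable_far hf n).aestronglyMeasurable) hf
      (fun n => Eventually.of_forall fun x => ?_) (Eventually.of_forall fun x => ?_)
    · rw [Real.norm_eq_abs, abs_of_nonneg (far_nonneg h0 _ x)]
      exact Set.indicator_le_self' (fun y _ => h0 y) x
    · apply tendsto_const_nhds.congr'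
      obtain ⟨N, hN⟩ := exists_nat_gt ‖x‖
      filter_upwards [eventually_ge_atTop N] with n hn
      have : (N : ℝ) ≤ n := by exact_mod_cast hn
      exact (Set.indicator_of_notMem (by simp only [Set.mem_ofPred_eq, not_le]; linarith) f).symm
  rw [integral_zero] at ht
  obtain ⟨n, hn⟩ := (ht.eventually (gt_mem_nhds hη)).exists
  exact ⟨n, Nat.cast_nonneg n, hn.le⟩

/-- Uniform decay at infinity. -/
def Decays (w : Sp d → ℝ) : Prop := ∀ η : ℝ, 0 < η → ∃ K : ℝ, 0 ≤ K ∧ ∀ x, K ≤ ‖x‖ → |w x| ≤ η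

lemma decays_conv {u g : Sp d → ℝ} (hu : Integrable u) (hg : Integrable g) (h0 : ∀ x, 0 ≤ u x)
    (h1 : ∀ x, u x ≤ 1) (hg0 : ∀ x, 0 ≤ g x) {G : ℝ} (hG : ∀ x, g x ≤ G) :
    Decays (conv u g) := by
  intro η hη
  have hG0 : 0 ≤ G := (hg0 0).trans (hG 0)
  obtain ⟨K₁, hK₁, H₁⟩ := exists_far_le hu h0 (η := η / (2 * (G + 1))) (by positivity)
  obtain ⟨K₂, hK₂, H₂⟩ := exists_far_le hg hg0 (η := η / 2) (by positivity)
  refine ⟨K₁ + K₂, by positivity, fun x hx => ?_⟩
  rw [abs_of_nonneg (conv_nonneg h0 hg0 x)]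
  have i1 : Integrable fun y => far u K₁ (x - y) * G :=
    ((integrable_far hu K₁).comp_sub_left x).mul_const G
  calc conv u g x ≤ ∫ y, (far u K₁ (x - y) * G + far g K₂ y) := by
        refine integral_mono_of_nonneg (Eventually.of_forall fun y => mul_nonneg (h0 _) (hg0 y))
          (i1.add (integrable_far hg K₂)) (Eventually.of_forall fun y => ?_)
        simp only
        rcases le_or_gt K₂ ‖y‖ with hy | hy
        · rw [far_of_le hy]
          have := mul_nonneg (far_nonneg h0 K₁ (x - y)) hG0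
          have := mul_le_mul_of_nonneg_right (h1 (x - y)) (hg0 y)
          linarith
        · have h2 : K₁ ≤ ‖x - y‖ := by
            have := norm_sub_norm_le x y
            linarith
          rw [far_of_le h2]
          have := far_nonneg hg0 K₂ y
          have := mul_le_mul_of_nonneg_left (hG y) (h0 (x - y))
          linarith
    _ = (∫ y, far u K₁ y) * G + ∫ y, far g K₂ y := by
        rw [integral_add i1 (integrable_far hg K₂), integral_mul_const,
          integral_sub_left_eq_self (far u K₁) volume x]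
    _ ≤ η / (2 * (G + 1)) * (G + 1) + η / 2 := by
        gcongr
        linarith
    _ = η := by field_simp; ring

/-- The functional `∫ f (1 - cos ⟨k,x⟩)`. -/
noncomputable def Aq (f : Sp d → ℝ) (k : Sp d) : ℝ := (∫ x, f x) - (ft f k).re

lemma integrable_mul_one_sub_cos {f : Sp d → ℝ} (hf : Integrable f) (k : Sp d) :
    Integrable fun x => f x * (1 - Real.cos ⟪k, x⟫) := by
  simp only [mul_sub, mul_one]
  exact hf.sub (integrable_mul_cos hf k)

lemma Aq_eq {f : Sp d → ℝ} (hf : Integrable f) (k : Sp d) :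
    Aq f k = ∫ x, f x * (1 - Real.cos ⟪k, x⟫) := by
  rw [Aq, ft_re hf, ← integral_sub hf (integrable_mul_cos hf k)]
  simp only [mul_sub, mul_one]

lemma Aq_nonneg {f : Sp d → ℝ} (h0 : ∀ x, 0 ≤ f x) (k : Sp d) : 0 ≤ Aq f k :=
  sub_nonneg.mpr (ft_re_le h0 k)

lemma Aq_tendsto {f : Sp d → ℝ} (hf : Integrable f) : Tendsto (Aq f) (𝓝 0) (𝓝 0) := by
  have hc : Continuous (Aq f) := continuous_const.sub (continuous_re.comp (continuous_ft hf))
  have h := hc.tendsto 0
  rwa [show Aq f 0 = 0 by simp [Aq, ft_zero]] at h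

lemma one_sub_cos_inner_le (k x : Sp d) {K : ℝ} (hx : ‖x‖ ≤ K) :
    1 - Real.cos ⟪k, x⟫ ≤ K ^ 2 * ‖k‖ ^ 2 := by
  have h1 := Real.one_sub_sq_div_two_le_cos (x := ⟪k, x⟫)
  have h2 : |⟪k, x⟫| ≤ K * ‖k‖ := by
    calc _ ≤ ‖k‖ * ‖x‖ := abs_real_inner_le_norm k x
      _ ≤ ‖k‖ * K := by gcongr
      _ = _ := mul_comm _ _
  have h3 : ⟪k, x⟫ ^ 2 ≤ (K * ‖k‖) ^ 2 := by
    rw [← sq_abs]; exact pow_le_pow_left₀ (abs_nonneg _) h2 2
  nlinarith [sq_nonneg ⟪k, x⟫]

lemma isLittleO_of_split {l : Filter (Sp d)} {Φ g A : Sp d → ℝ}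
    (h2 : (fun k => ‖k‖ ^ 2) =o[l] Φ) (hA : A =O[l] Φ)
    (h : ∀ η : ℝ, 0 < η → ∃ C : ℝ, ∀ k, |g k| ≤ η * |A k| + C * ‖k‖ ^ 2) : g =o[l] Φ := by
  obtain ⟨c, hc, hA⟩ := hA.exists_pos
  rw [isLittleO_iff]
  intro ε hε
  obtain ⟨C, hC⟩ := h (ε / (2 * c)) (by positivity)
  have h3 := (h2.const_mul_left C).def (c := ε / 2) (by positivity)
  filter_upwards [hA.bound, h3] with k hk hk3
  have a1 := hC k
  simp only [Real.norm_eq_abs] at hk hk3 ⊢
  have a2 := le_abs_self (C * ‖k‖ ^ 2)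
  have a3 : ε / (2 * c) * |A k| ≤ ε / 2 * |Φ k| := by
    calc _ ≤ ε / (2 * c) * (c * |Φ k|) := by gcongr
      _ = _ := by field_simp
  linarith

lemma Aq_mul_isLittleO {l : Filter (Sp d)} {Φ u w : Sp d → ℝ}
    (h2 : (fun k => ‖k‖ ^ 2) =o[l] Φ) (hu : Integrable u) (h0 : ∀ x, 0 ≤ u x)
    (hA : Aq u =O[l] Φ) (huw : Integrable fun x => u x * w x) {C : ℝ} (hC : ∀ x, |w x| ≤ C)
    (hw : Decays w) : Aq (fun x => u x * w x) =o[l] Φ := by
  refine isLittleO_of_split h2 hA fun η hη => ?_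
  obtain ⟨K, hK, H⟩ := hw η hη
  refine ⟨C * K ^ 2 * ∫ x, u x, fun k => ?_⟩
  rw [abs_of_nonneg (Aq_nonneg h0 k), Aq_eq huw, Aq_eq hu]
  have i1 : Integrable fun x => η * (u x * (1 - Real.cos ⟪k, x⟫)) :=
    (integrable_mul_one_sub_cos hu k).const_mul η
  have i2 : Integrable fun x => (C * K ^ 2 * ‖k‖ ^ 2) * u x := hu.const_mul _
  have hC0 : 0 ≤ C := (abs_nonneg _).trans (hC 0)
  calc _ ≤ ∫ x, (η * (u x * (1 - Real.cos ⟪k, x⟫)) + (C * K ^ 2 * ‖k‖ ^ 2) * u x) := by
        refine (abs_integral_le_integral_abs).trans (integral_mono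
          (integrable_mul_one_sub_cos huw k).abs (i1.add i2) fun x => ?_)
        have c0 : 0 ≤ 1 - Real.cos ⟪k, x⟫ := sub_nonneg.mpr (Real.cos_le_one _)
        have u0 := h0 x
        simp only [abs_mul, abs_of_nonneg c0, abs_of_nonneg u0]
        rcases le_or_gt K ‖x‖ with hx | hx
        · have b1 := H x hx
          have b2 : 0 ≤ (C * K ^ 2 * ‖k‖ ^ 2) * u x := by positivity
          have b3 : u x * |w x| * (1 - Real.cos ⟪k, x⟫) ≤ u x * η * (1 - Real.cos ⟪k, x⟫) := by
            gcongr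
          nlinarith
        · have b1 := one_sub_cos_inner_le k x hx.le
          have b2 : 0 ≤ η * (u x * (1 - Real.cos ⟪k, x⟫)) := by positivity
          have b3 : u x * |w x| * (1 - Real.cos ⟪k, x⟫) ≤ u x * C * (K ^ 2 * ‖k‖ ^ 2) := by
            gcongr
            exact hC x
          nlinarith
    _ = _ := by
        rw [integral_add i1 i2, integral_const_mul, integral_const_mul]
        ring

lemma abs_sin_le_aux (θ : ℝ) {μ : ℝ} (hμ : 0 < μ) :
    |Real.sin θ| ≤ μ / 2 + (1 - Real.cos θ) / μ := by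
  have h1 := Real.sin_sq_add_cos_sq θ
  have h2 : |Real.sin θ| ^ 2 ≤ 2 * (1 - Real.cos θ) := by
    rw [sq_abs]; nlinarith [sq_nonneg (1 - Real.cos θ)]
  rw [div_add_div _ _ two_ne_zero hμ.ne', le_div_iff₀ (by positivity)]
  nlinarith [sq_nonneg (|Real.sin θ| - μ)]

lemma im_sq_isLittleO {l : Filter (Sp d)} {Φ f : Sp d → ℝ}
    (h2 : (fun k => ‖k‖ ^ 2) =o[l] Φ) (hf : Integrable f) (h0 : ∀ x, 0 ≤ f x)
    (hA : Aq f =O[l] Φ) : (fun k => (ft f k).im ^ 2) =o[l] Φ := by
  refine isLittleO_of_split h2 hA fun η hη => ?_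
  obtain ⟨K, hK, H⟩ := exists_far_le hf h0 (η := η / 4) (by positivity)
  refine ⟨2 * (K * ∫ x, f x) ^ 2, fun k => ?_⟩
  have hA0 := Aq_nonneg h0 k
  rw [abs_of_nonneg hA0, abs_of_nonneg (sq_nonneg _)]
  have hM : 0 ≤ ∫ x, f x := integral_nonneg h0
  have key : ∀ μ : ℝ, 0 < μ →
      |(ft f k).im| ≤ K * ‖k‖ * (∫ x, f x) + μ / 2 * (η / 4) + Aq f k / μ := by
    intro μ hμ
    have i1 : Integrable fun x => K * ‖k‖ * f x := hf.const_mul _
    have i2 : Integrable fun x => μ / 2 * far f K x := (integrable_far hf K).const_mul _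
    have i3 : Integrable fun x => f x * (1 - Real.cos ⟪k, x⟫) / μ :=
      (integrable_mul_one_sub_cos hf k).div_const μ
    have i12 : Integrable fun x => K * ‖k‖ * f x + μ / 2 * far f K x := i1.add i2
    rw [ft_im hf, Aq_eq hf]
    calc _ ≤ ∫ x, (K * ‖k‖ * f x + μ / 2 * far f K x + f x * (1 - Real.cos ⟪k, x⟫) / μ) := by
          refine (abs_integral_le_integral_abs).trans (integral_mono_of_nonneg
            (Eventually.of_forall fun x => abs_nonneg _) (i12.add i3)
            (Eventually.of_forall fun x => ?_))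
          have c0 : 0 ≤ 1 - Real.cos ⟪k, x⟫ := sub_nonneg.mpr (Real.cos_le_one _)
          have u0 := h0 x
          simp only [abs_mul, abs_of_nonneg u0]
          rcases le_or_gt K ‖x‖ with hx | hx
          · rw [far_of_le hx]
            have b1 := mul_le_mul_of_nonneg_left (abs_sin_le_aux ⟪k, x⟫ hμ) u0
            have b2 : 0 ≤ K * ‖k‖ * f x := by positivity
            have b3 : f x * (μ / 2 + (1 - Real.cos ⟪k, x⟫) / μ)
                = μ / 2 * f x + f x * (1 - Real.cos ⟪k, x⟫) / μ := by ring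
            linarith
          · have b1 : |Real.sin ⟪k, x⟫| ≤ K * ‖k‖ := by
              calc _ ≤ |⟪k, x⟫| := Real.abs_sin_le_abs
                _ ≤ ‖k‖ * ‖x‖ := abs_real_inner_le_norm k x
                _ ≤ ‖k‖ * K := by gcongr
                _ = _ := mul_comm _ _
            have b2 := mul_le_mul_of_nonneg_left b1 u0
            have b3 : 0 ≤ μ / 2 * far f K x := mul_nonneg (by positivity) (far_nonneg h0 K x)
            have b4 : 0 ≤ f x * (1 - Real.cos ⟪k, x⟫) / μ := by positivity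
            nlinarith
      _ = K * ‖k‖ * (∫ x, f x) + μ / 2 * (∫ x, far f K x)
            + (∫ x, f x * (1 - Real.cos ⟪k, x⟫)) / μ := by
          rw [integral_add i12 i3, integral_add i1 i2, integral_const_mul, integral_const_mul,
            integral_div]
      _ ≤ _ := by gcongr
  rw [← sq_abs]
  set B := |(ft f k).im| with hB
  have hB0 : 0 ≤ B := abs_nonneg _
  rcases hB0.eq_or_lt with hz | hpos
  · rw [← hz, zero_pow two_ne_zero]; positivity
  · have h3 := key (2 * B / η) (by positivity)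
    have e1 : 2 * B / η / 2 * (η / 4) = B / 4 := by field_simp
    have e2 : Aq f k / (2 * B / η) = η * Aq f k / (2 * B) := by field_simp
    rw [e1, e2] at h3
    have h4 := mul_le_mul_of_nonneg_right h3 hpos.le
    have e3 : (K * ‖k‖ * (∫ x, f x) + B / 4 + η * Aq f k / (2 * B)) * B
        = K * ‖k‖ * (∫ x, f x) * B + B ^ 2 / 4 + η * Aq f k / 2 := by field_simp
    rw [e3] at h4
    nlinarith [sq_nonneg (K * ‖k‖ * (∫ x, f x) - B / 2)]

lemma Aq_conv_isLittleO {l : Filter (Sp d)} (hl : l ≤ 𝓝 0) {Φ f g : Sp d → ℝ}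
    (h2 : (fun k => ‖k‖ ^ 2) =o[l] Φ) (hf : Integrable f) (hg : Integrable g)
    (f0 : ∀ x, 0 ≤ f x) (g0 : ∀ x, 0 ≤ g x) (hAf : Aq f =O[l] Φ) (hAg : Aq g =O[l] Φ) :
    (fun k => Aq (conv f g) k - ((∫ x, f x) * Aq g k + (∫ x, g x) * Aq f k)) =o[l] Φ := by
  have e : (fun k => Aq (conv f g) k - ((∫ x, f x) * Aq g k + (∫ x, g x) * Aq f k))
      = fun k => (ft f k).im * (ft g k).im - Aq f k * Aq g k := by
    ext k
    simp only [Aq, integral_conv hf hg, ft_conv hf hg, mul_re]
    ring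
  rw [e]
  refine IsLittleO.sub ?_ ?_
  · refine IsBigO.trans_isLittleO (g := fun k => (ft f k).im ^ 2 + (ft g k).im ^ 2)
      (IsBigO.of_bound' (Eventually.of_forall fun k => ?_))
      ((im_sq_isLittleO h2 hf f0 hAf).add (im_sq_isLittleO h2 hg g0 hAg))
    rw [Real.norm_eq_abs, Real.norm_eq_abs, abs_of_nonneg (a := _ + _) (by positivity), abs_mul,
      ← sq_abs (ft f k).im, ← sq_abs (ft g k).im]
    nlinarith [sq_nonneg (|(ft f k).im| - |(ft g k).im|), abs_nonneg (ft f k).im,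
      abs_nonneg (ft g k).im]
  · have h1 : Aq f =o[l] fun _ => (1 : ℝ) :=
      (isLittleO_one_iff ℝ).mpr ((Aq_tendsto hf).mono_left hl)
    simpa using h1.mul_isBigO hAg

lemma heavy_filter {S : Sp d → ℝ} (hS : Integrable S) (h0 : ∀ x, 0 ≤ S x)
    (hn : ¬ Integrable fun x => ‖x‖ ^ 2 * S x) :
    ∃ l : Filter (Sp d), l.NeBot ∧ l ≤ 𝓝 0 ∧ (∀ᶠ k in l, k ≠ 0) ∧
      (fun k => ‖k‖ ^ 2) =o[l] Aq S := by
  have h1 : ∃ i : Fin d, ¬ Integrable fun x : Sp d => (x i) ^ 2 * S x := by
    by_contra hc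
    push Not at hc
    apply hn
    have := integrable_finsetSum Finset.univ fun i _ => hc i
    refine this.congr (Eventually.of_forall fun x => ?_)
    simp only [EuclideanSpace.real_norm_sq_eq, Finset.sum_mul]
  obtain ⟨i, hi⟩ := h1
  let e : Sp d := EuclideanSpace.single i 1
  have he : ‖e‖ = 1 := by simp [e]
  have hin : ∀ (t : ℝ) (x : Sp d), ⟪t • e, x⟫ = t * x i := by
    intro t x
    rw [real_inner_smul_left]
    simp [e, EuclideanSpace.inner_single_left]
  have hc : Continuous fun t : ℝ => t • e := by fun_prop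
  refine ⟨map (fun t : ℝ => t • e) (𝓝[>] 0), inferInstance, ?_, ?_, ?_⟩
  · have := hc.tendsto 0
    rw [zero_smul] at this
    exact this.mono_left nhdsWithin_le_nhds
  · rw [eventually_map]
    filter_upwards [self_mem_nhdsWithin] with t ht
    refine smul_ne_zero (ne_of_gt ht) ?_
    intro h; rw [h, norm_zero] at he; exact zero_ne_one he
  · rw [isLittleO_iff]
    intro c hc
    have hloc : ∀ n : ℕ, IntegrableOn (fun x : Sp d => (x i) ^ 2 * S x)
        (Metric.closedBall 0 n) := by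
      intro n
      refine Integrable.bdd_mul (c := (n : ℝ) ^ 2) hS.integrableOn (by fun_prop) ?_
      rw [ae_restrict_iff' Metric.isClosed_closedBall.measurableSet]
      refine Eventually.of_forall fun x hx => ?_
      rw [norm_pow]
      have : ‖x i‖ ≤ n := (PiLp.norm_apply_le x i).trans (by simpa using hx)
      gcongr
    have hbig : ∃ n : ℕ, Real.pi ^ 2 / (2 * c) ≤
        ∫ x in Metric.closedBall (0 : Sp d) n, (x i) ^ 2 * S x := by
      by_contra hcon
      push Not at hcon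
      exact hi ((aecover_closedBall (x := (0 : Sp d)) (μ := volume)
        tendsto_natCast_atTop_atTop).integrable_of_integral_bounded_of_nonneg_ae _ hloc
        (Eventually.of_forall fun x => mul_nonneg (sq_nonneg _) (h0 x))
        (Eventually.of_forall fun n => (hcon n).le))
    obtain ⟨n, hn⟩ := hbig
    rw [eventually_map]
    have hmem : Set.Ioo (0 : ℝ) (Real.pi / (n + 1)) ∈ 𝓝[>] (0 : ℝ) :=
      Ioo_mem_nhdsGT (by positivity)
    filter_upwards [hmem] with t ht
    rw [Real.norm_eq_abs, Real.norm_eq_abs, abs_of_nonneg (Aq_nonneg h0 _),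
      abs_of_nonneg (sq_nonneg _), norm_smul, he, mul_one, Real.norm_eq_abs, sq_abs, Aq_eq hS]
    have h3 : 2 / Real.pi ^ 2 * t ^ 2 * (∫ x in Metric.closedBall (0 : Sp d) n, (x i) ^ 2 * S x)
        ≤ ∫ x, S x * (1 - Real.cos ⟪t • e, x⟫) := by
      rw [← integral_const_mul]
      refine le_trans (setIntegral_mono_on ((hloc n).const_mul _)
        (integrable_mul_one_sub_cos hS (t • e)).integrableOn
        Metric.isClosed_closedBall.measurableSet fun x hx => ?_)
        (setIntegral_le_integral (integrable_mul_one_sub_cos hS (t • e))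
          (Eventually.of_forall fun x =>
            mul_nonneg (h0 x) (sub_nonneg.mpr (Real.cos_le_one _))))
      rw [hin]
      have hx' : |x i| ≤ n := (PiLp.norm_apply_le x i).trans (by simpa using hx)
      have h4 : |t * x i| ≤ Real.pi := by
        rw [abs_mul, abs_of_pos ht.1]
        have h5 := ht.2
        rw [lt_div_iff₀ (by positivity)] at h5
        nlinarith [ht.1]
      have h6 := Real.cos_le_one_sub_mul_cos_sq h4
      have h7 := mul_le_mul_of_nonneg_left h6 (h0 x)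
      nlinarith
    calc t ^ 2 = c * (2 / Real.pi ^ 2 * t ^ 2 * (Real.pi ^ 2 / (2 * c))) := by
          field_simp
      _ ≤ c * (2 / Real.pi ^ 2 * t ^ 2 *
          (∫ x in Metric.closedBall (0 : Sp d) n, (x i) ^ 2 * S x)) := by gcongr
      _ ≤ _ := by gcongr

end Pool.Agent.Lib.MP_ef05c8_mp
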