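import Pool.Agent.Lib.MP_ef05c8_mp.Defs

/-!
Extension of the weak formulation to bounded smooth test functions.
-/

open MeasureTheory Filter Topology InnerProductSpace
open scoped ContDiff Laplacian RealInnerProductSpace

namespace Pool.Agent.Lib.MP_ef05c8_mp

variable {d : ℕ}

lemma nat_le_infty (i : ℕ) : (i : WithTop ℕ∞) ≤ ∞ := by exact_mod_cast le_top

lemma abs_laplacian_le (φ : Sp d → ℝ) (x : Sp d) :
    |(Δ φ) x| ≤ d * ‖iteratedFDeriv ℝ 2 φ x‖ := by
  rw [laplacian_eq_iteratedFDeriv_orthonormalBasis φ (EuclideanSpace.basisFun (Fin d) ℝ)]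
  refine (Finset.abs_sum_le_sum_abs _ _).trans ?_
  have : ∀ i : Fin d, |iteratedFDeriv ℝ 2 φ x
      ![EuclideanSpace.basisFun (Fin d) ℝ i, EuclideanSpace.basisFun (Fin d) ℝ i]|
      ≤ ‖iteratedFDeriv ℝ 2 φ x‖ := by
    intro i
    have h := (iteratedFDeriv ℝ 2 φ x).le_opNorm
      ![EuclideanSpace.basisFun (Fin d) ℝ i, EuclideanSpace.basisFun (Fin d) ℝ i]
    simpa [Fin.prod_univ_two] using h
  calc _ ≤ ∑ _i : Fin d, ‖iteratedFDeriv ℝ 2 φ x‖ := Finset.sum_le_sum fun i _ => this i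
    _ = _ := by simp

lemma continuous_laplacian {φ : Sp d → ℝ} (hφ : ContDiff ℝ ∞ φ) : Continuous (Δ φ) := by
  rw [laplacian_eq_iteratedFDeriv_orthonormalBasis φ (EuclideanSpace.basisFun (Fin d) ℝ)]
  refine continuous_finsetSum _ fun i _ => ?_
  have h : Continuous (iteratedFDeriv ℝ 2 φ) :=
    hφ.continuous_iteratedFDeriv (m := 2) (nat_le_infty 2)
  exact (continuous_eval_const _).comp h

/-- A fixed bump function equal to one on the unit ball. -/
noncomputable def bump (d : ℕ) : ContDiffBump (0 : Sp d) := ⟨1, 2, one_pos, one_lt_two⟩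

/-- The rescaled cutoffs. -/
noncomputable def cutoff (d : ℕ) (n : ℕ) : Sp d → ℝ :=
  fun x => bump d (((n : ℝ) + 1)⁻¹ • x)

lemma cutoff_contDiff (n : ℕ) : ContDiff ℝ ∞ (cutoff d n) :=
  (bump d).contDiff.comp (contDiff_const_smul _)

lemma cutoff_compact (n : ℕ) : HasCompactSupport (cutoff d n) := by
  have h : ((n : ℝ) + 1)⁻¹ ≠ 0 := by positivity
  exact (bump d).hasCompactSupport.comp_homeomorph (Homeomorph.smulOfNeZero _ h)

lemma cutoff_abs_le (n : ℕ) (x : Sp d) : |cutoff d n x| ≤ 1 := by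
  unfold cutoff
  rw [abs_of_nonneg (bump d).nonneg]
  exact (bump d).le_one

lemma cutoff_eventually (x : Sp d) : ∀ᶠ n : ℕ in atTop, cutoff d n =ᶠ[𝓝 x] fun _ => 1 := by
  obtain ⟨N, hN⟩ := exists_nat_gt ‖x‖
  filter_upwards [eventually_ge_atTop N] with n hn
  have hn' : (N : ℝ) ≤ n := by exact_mod_cast hn
  have hopen : Metric.ball (0 : Sp d) ((n : ℝ) + 1) ∈ 𝓝 x := by
    apply Metric.isOpen_ball.mem_nhds
    simp only [Metric.mem_ball, dist_zero_right]
    linarith
  filter_upwards [hopen] with y hy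
  unfold cutoff
  apply (bump d).one_of_mem_closedBall
  simp only [Metric.mem_ball, dist_zero_right] at hy
  have hpos : (0 : ℝ) < (n : ℝ) + 1 := by positivity
  simp only [Metric.mem_closedBall, dist_zero_right, norm_smul, norm_inv, Real.norm_eq_abs,
    abs_of_pos hpos, bump]
  rw [inv_mul_le_iff₀ hpos]
  linarith

lemma cutoff_deriv_bound : ∃ B : ℝ, 0 ≤ B ∧ ∀ n : ℕ, ∀ i ≤ 2, ∀ x : Sp d,
    ‖iteratedFDeriv ℝ i (cutoff d n) x‖ ≤ B := by
  have h : ∀ i : ℕ, ∃ B : ℝ, ∀ x : Sp d, ‖iteratedFDeriv ℝ i (bump d) x‖ ≤ B := by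
    intro i
    have hc : Continuous (iteratedFDeriv ℝ i (bump d)) :=
      (bump d).contDiff.continuous_iteratedFDeriv (m := i) (n := ∞) (by exact_mod_cast le_top)
    have hs : HasCompactSupport (iteratedFDeriv ℝ i (bump d)) :=
      (bump d).hasCompactSupport.iteratedFDeriv i
    exact hc.bounded_above_of_compact_support hs
  choose B hB using h
  refine ⟨|B 0| + |B 1| + |B 2|, by positivity, fun n i hi x => ?_⟩
  have hle : B i ≤ |B 0| + |B 1| + |B 2| := by
    have h0 := le_abs_self (B 0)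
    have h1 := le_abs_self (B 1)
    have h2 := le_abs_self (B 2)
    have := abs_nonneg (B 0)
    have := abs_nonneg (B 1)
    have := abs_nonneg (B 2)
    interval_cases i <;> linarith
  unfold cutoff
  rw [iteratedFDeriv_comp_const_smul _ ((bump d).contDiff (n := i))]
  rw [norm_smul]
  have hpos : (0 : ℝ) < (n : ℝ) + 1 := by positivity
  have h1 : ‖(((n : ℝ) + 1)⁻¹) ^ i‖ ≤ 1 := by
    rw [norm_pow]
    apply pow_le_one₀ (norm_nonneg _)
    rw [norm_inv, Real.norm_eq_abs, abs_of_pos hpos]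
    apply inv_le_one_of_one_le₀
    linarith [Nat.cast_nonneg (α := ℝ) n]
  calc _ ≤ 1 * B i := mul_le_mul h1 (hB i _) (norm_nonneg _) zero_le_one
    _ ≤ _ := by linarith

theorem WeakEq.extend {m : ℝ} {u F : Sp d → ℝ} (h : WeakEq m u F) (hu : Integrable u)
    (hF : Integrable F) {φ : Sp d → ℝ} (hφ : ContDiff ℝ ∞ φ) {C : ℝ}
    (hC : ∀ i ≤ 2, ∀ x, ‖iteratedFDeriv ℝ i φ x‖ ≤ C) :
    ∫ x, -(1 / m) * (u x * (Δ φ) x) = ∫ x, F x * φ x := by
  obtain ⟨B, hB0, hB⟩ := cutoff_deriv_bound (d := d)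
  have hC0 : 0 ≤ C := (norm_nonneg _).trans (hC 0 (by norm_num) 0)
  set ψ : ℕ → Sp d → ℝ := fun n x => cutoff d n x * φ x with hψ
  have hψs : ∀ n, ContDiff ℝ ∞ (ψ n) := fun n => (cutoff_contDiff n).mul hφ
  have hψc : ∀ n, HasCompactSupport (ψ n) := fun n => (cutoff_compact n).mul_right
  have hev : ∀ x, ∀ᶠ n : ℕ in atTop, ψ n =ᶠ[𝓝 x] φ := by
    intro x
    filter_upwards [cutoff_eventually x] with n hn
    filter_upwards [hn] with y hy
    simp [hψ, hy]
  have hD : ∀ n x, ‖iteratedFDeriv ℝ 2 (ψ n) x‖ ≤ 4 * (B * C) := by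
    intro n x
    have h1 := norm_iteratedFDeriv_mul_le (cutoff_contDiff (d := d) n) hφ x (n := 2)
      (nat_le_infty 2)
    refine h1.trans ?_
    have hb : ∀ i ≤ 2, ∀ j ≤ 2, ‖iteratedFDeriv ℝ i (cutoff d n) x‖ * ‖iteratedFDeriv ℝ j φ x‖
        ≤ B * C := fun i hi j hj =>
      mul_le_mul (hB n i hi x) (hC j hj x) (norm_nonneg _) hB0
    have a0 := hb 0 (by norm_num) 2 (by norm_num)
    have a1 := hb 1 (by norm_num) 1 (by norm_num)
    have a2 := hb 2 (by norm_num) 0 (by norm_num)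
    simp only [Finset.sum_range_succ, Finset.range_zero, Finset.sum_empty, Nat.sub_zero,
      Nat.choose_zero_right, Nat.choose_one_right, Nat.choose_self,
      Nat.add_one_sub_one, Nat.cast_one, Nat.cast_ofNat]
    linarith
  have hφb : ∀ x, |φ x| ≤ C := fun x => by
    simpa using hC 0 (by norm_num) x
  have t1 : Tendsto (fun n => ∫ x, -(1 / m) * (u x * (Δ (ψ n)) x)) atTop
      (𝓝 (∫ x, -(1 / m) * (u x * (Δ φ) x))) := by
    refine tendsto_integral_of_dominated_convergence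
      (fun x => |1 / m| * (‖u x‖ * (d * (4 * (B * C))))) ?_ ?_ ?_ ?_
    · intro n
      exact (hu.aestronglyMeasurable.mul
        (continuous_laplacian (hψs n)).aestronglyMeasurable).const_mul _
    · exact (hu.norm.mul_const _).const_mul _
    · intro n
      refine Eventually.of_forall fun x => ?_
      rw [norm_mul, norm_neg, norm_mul, Real.norm_eq_abs (1 / m)]
      gcongr
      exact (abs_laplacian_le _ x).trans (by gcongr; exact hD n x)
    · refine Eventually.of_forall fun x => ?_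
      apply tendsto_const_nhds.congr'
      filter_upwards [hev x] with n hn
      rw [(laplacian_congr_nhds hn).eq_of_nhds]
  have t2 : Tendsto (fun n => ∫ x, F x * ψ n x) atTop (𝓝 (∫ x, F x * φ x)) := by
    refine tendsto_integral_of_dominated_convergence (fun x => ‖F x‖ * C) ?_ ?_ ?_ ?_
    · intro n
      exact hF.aestronglyMeasurable.mul (hψs n).continuous.aestronglyMeasurable
    · exact hF.norm.mul_const _
    · intro n
      refine Eventually.of_forall fun x => ?_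
      rw [norm_mul]
      gcongr
      simp only [hψ, norm_mul, Real.norm_eq_abs]
      calc _ ≤ 1 * C := mul_le_mul (cutoff_abs_le n x) (hφb x) (abs_nonneg _) zero_le_one
        _ = C := one_mul C
    · refine Eventually.of_forall fun x => ?_
      apply tendsto_const_nhds.congr'
      filter_upwards [hev x] with n hn
      rw [hn.eq_of_nhds]
  have heq : (fun n => ∫ x, -(1 / m) * (u x * (Δ (ψ n)) x)) = fun n => ∫ x, F x * ψ n x :=
    funext fun n => h (ψ n) (hψs n) (hψc n)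
  rw [heq] at t1
  exact tendsto_nhds_unique t1 t2

lemma laplacian_comp_inner {f : ℝ → ℝ} (hf : ContDiff ℝ ∞ f) (k x : Sp d) :
    (Δ (fun y : Sp d => f ⟪k, y⟫)) x = ‖k‖ ^ 2 * iteratedDeriv 2 f ⟪k, x⟫ := by
  have hc : (fun y : Sp d => f ⟪k, y⟫) = f ∘ (innerSL ℝ k) := by
    ext y; simp
  rw [laplacian_eq_iteratedFDeriv_orthonormalBasis _ (EuclideanSpace.basisFun (Fin d) ℝ), hc]
  simp only
  rw [(innerSL ℝ k).iteratedFDeriv_comp_right hf x (i := 2) (nat_le_infty 2)]
  simp only [ContinuousMultilinearMap.compContinuousLinearMap_apply,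
    iteratedFDeriv_apply_eq_iteratedDeriv_mul_prod, Fin.prod_univ_two, smul_eq_mul]
  rw [← Finset.sum_mul, EuclideanSpace.real_norm_sq_eq]
  congr 1
  · refine Finset.sum_congr rfl fun i _ => ?_
    simp [EuclideanSpace.inner_single_right, sq]

lemma norm_iteratedFDeriv_comp_inner {f : ℝ → ℝ} (hf : ContDiff ℝ ∞ f) (k : Sp d)
    (hb : ∀ i ≤ 2, ∀ t, |iteratedDeriv i f t| ≤ 1) :
    ∀ i ≤ 2, ∀ x, ‖iteratedFDeriv ℝ i (fun y : Sp d => f ⟪k, y⟫) x‖ ≤ (1 + ‖k‖) ^ 2 := by
  intro i hi x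
  have hc : (fun y : Sp d => f ⟪k, y⟫) = f ∘ (innerSL ℝ k) := by
    ext y; simp
  rw [hc, (innerSL ℝ k).iteratedFDeriv_comp_right hf x (i := i) (by exact_mod_cast le_top)]
  refine (ContinuousMultilinearMap.norm_compContinuousLinearMap_le _ _).trans ?_
  rw [norm_iteratedFDeriv_eq_norm_iteratedDeriv]
  simp only [Finset.prod_const, Finset.card_univ, Fintype.card_fin, innerSL_apply_norm]
  have h1 : ‖k‖ ^ i ≤ (1 + ‖k‖) ^ 2 := by
    calc ‖k‖ ^ i ≤ (1 + ‖k‖) ^ i := by gcongr; linarith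
      _ ≤ (1 + ‖k‖) ^ 2 := pow_le_pow_right₀ (by linarith [norm_nonneg k]) hi
  calc _ ≤ 1 * (1 + ‖k‖) ^ 2 := mul_le_mul (hb i hi _) h1 (by positivity) zero_le_one
    _ = _ := one_mul _

theorem WeakEq.cos {m : ℝ} {u F : Sp d → ℝ} (h : WeakEq m u F) (hu : Integrable u)
    (hF : Integrable F) (k : Sp d) :
    ‖k‖ ^ 2 / m * ∫ x, u x * Real.cos ⟪k, x⟫ = ∫ x, F x * Real.cos ⟪k, x⟫ := by
  have hs : ContDiff ℝ ∞ (fun y : Sp d => Real.cos ⟪k, y⟫) :=
    Real.contDiff_cos.comp (innerSL ℝ k).contDiff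
  have h1 := h.extend hu hF hs (norm_iteratedFDeriv_comp_inner Real.contDiff_cos k
    (fun i _ t => Real.abs_iteratedDeriv_cos_le_one i t))
  rw [← h1, ← integral_const_mul]
  refine integral_congr_ae (Eventually.of_forall fun x => ?_)
  simp only
  rw [laplacian_comp_inner Real.contDiff_cos]
  have : iteratedDeriv 2 Real.cos = -Real.cos := by
    simp
  rw [this]
  simp only [Pi.neg_apply]
  ring

theorem WeakEq.sin {m : ℝ} {u F : Sp d → ℝ} (h : WeakEq m u F) (hu : Integrable u)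
    (hF : Integrable F) (k : Sp d) :
    ‖k‖ ^ 2 / m * ∫ x, u x * Real.sin ⟪k, x⟫ = ∫ x, F x * Real.sin ⟪k, x⟫ := by
  have hs : ContDiff ℝ ∞ (fun y : Sp d => Real.sin ⟪k, y⟫) :=
    Real.contDiff_sin.comp (innerSL ℝ k).contDiff
  have h1 := h.extend hu hF hs (norm_iteratedFDeriv_comp_inner Real.contDiff_sin k
    (fun i _ t => Real.abs_iteratedDeriv_sin_le_one i t))
  rw [← h1, ← integral_const_mul]
  refine integral_congr_ae (Eventually.of_forall fun x => ?_)
  simp only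
  rw [laplacian_comp_inner Real.contDiff_sin]
  have : iteratedDeriv 2 Real.sin = -Real.sin := by
    simpa using Real.iteratedDeriv_even_sin 1
  rw [this]
  simp only [Pi.neg_apply]
  ring

end Pool.Agent.Lib.MP_ef05c8_mp
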