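import Pool.Agent.Lib.MP_ef05c8_mp.Medium2

/-!
A solution of the Medium Equation forces a bound on second differences of the transform.
-/

open MeasureTheory Filter Topology Complex Asymptotics
open scoped RealInnerProductSpace

namespace Pool.Agent.Lib.MP_ef05c8_mp

variable {d : ℕ} {u g : Sp d → ℝ}

/-- The defect `∫ u (1 - cos ⟪h, x⟫)`. -/
noncomputable def dfc (u : Sp d → ℝ) (h : Sp d) : ℝ := (∫ x, u x) - (ft u h).re

lemma dfc_int (hu : Integrable u) (h : Sp d) :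
    Integrable fun x => u x - u x * Real.cos ⟪h, x⟫ := hu.sub (integrable_mul_cos hu h)

lemma dfc_eq (hu : Integrable u) (h : Sp d) :
    dfc u h = ∫ x, (u x - u x * Real.cos ⟪h, x⟫) := by
  rw [integral_sub hu (integrable_mul_cos hu h), dfc, ft_re hu]

lemma zyg_two (hu : Integrable u) (hg : Integrable g) {V : ℝ} (hV : ∀ x, |g x| ≤ V * u x)
    (k h : Sp d) : ‖ft g (k + h) + ft g (k - h) - 2 * ft g k‖ ≤ 2 * V * dfc u h := by
  have i := integrable_ft_integrand hg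
  rw [dfc_eq hu, ← integral_const_mul, ft, ft, ft, ← integral_const_mul,
    ← integral_add' (i _) (i _), ← integral_sub ((i _).add (i _)) ((i _).const_mul _)]
  refine norm_integral_le_of_norm_le ((dfc_int hu h).const_mul _) (Eventually.of_forall fun x => ?_)
  have e : (g x : ℂ) * cexp ((⟪k + h, x⟫ : ℝ) * I) + g x * cexp ((⟪k - h, x⟫ : ℝ) * I) -
      2 * (g x * cexp ((⟪k, x⟫ : ℝ) * I)) =
      ((-2 * (g x * (1 - Real.cos ⟪h, x⟫)) : ℝ) : ℂ) * cexp ((⟪k, x⟫ : ℝ) * I) := by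
    rw [inner_add_left, inner_sub_left]
    push_cast
    rw [add_mul, sub_mul, Complex.exp_add, sub_eq_add_neg (_ * I), Complex.exp_add, Complex.cos,
      neg_mul]
    ring_nf
  have c := sub_nonneg.2 (Real.cos_le_one ⟪h, x⟫)
  rw [Pi.add_apply, e, norm_mul, norm_exp_ofReal_mul_I, mul_one, norm_real, Real.norm_eq_abs,
    abs_mul, abs_mul, abs_of_nonneg c, abs_neg, abs_two]
  nlinarith [mul_le_mul_of_nonneg_right (hV x) c]

lemma zyg_one (hu : Integrable u) (h0 : ∀ x, 0 ≤ u x) (k h : Sp d) {t : ℝ} (ht : 0 < t) :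
    ‖ft u (k + h) - ft u k‖ ≤ t * (∫ x, u x) + t⁻¹ * dfc u h := by
  have i := integrable_ft_integrand hu
  rw [dfc_eq hu, ← integral_const_mul, ← integral_const_mul, ft, ft, ← integral_sub (i _) (i _),
    ← integral_add (hu.const_mul _) ((dfc_int hu h).const_mul _)]
  refine norm_integral_le_of_norm_le ((hu.const_mul _).add ((dfc_int hu h).const_mul _))
    (Eventually.of_forall fun x => ?_)
  have e : (u x : ℂ) * cexp ((⟪k + h, x⟫ : ℝ) * I) - u x * cexp ((⟪k, x⟫ : ℝ) * I) =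
      u x * cexp ((⟪k, x⟫ : ℝ) * I) * (cexp ((⟪h, x⟫ : ℝ) * I) - 1) := by
    rw [inner_add_left]
    push_cast
    rw [add_mul, Complex.exp_add]
    ring
  have c : ‖cexp ((⟪h, x⟫ : ℝ) * I) - 1‖ ^ 2 = 2 * (1 - Real.cos ⟪h, x⟫) := by
    rw [Complex.sq_norm, normSq_apply]
    simp only [sub_re, sub_im, exp_ofReal_mul_I_re, exp_ofReal_mul_I_im, one_re, one_im]
    nlinarith [Real.sin_sq_add_cos_sq ⟪h, x⟫]
  rw [e, norm_mul, norm_mul, norm_exp_ofReal_mul_I, mul_one, norm_real, Real.norm_eq_abs,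
    abs_of_nonneg (h0 x)]
  generalize ‖cexp ((⟪h, x⟫ : ℝ) * I) - 1‖ = s at c
  have c2 : s ≤ t + t⁻¹ * (1 - Real.cos ⟪h, x⟫) := by
    rw [← sub_le_iff_le_add', le_inv_mul_iff₀ ht]
    nlinarith [sq_nonneg (s - t), sq_nonneg t]
  calc u x * s ≤ u x * (t + t⁻¹ * (1 - Real.cos ⟪h, x⟫)) := mul_le_mul_of_nonneg_left c2 (h0 x)
    _ = _ := by ring

lemma zyg_comp {z : Sp d → ℂ} {ρ : ℂ} {k : Sp d} (hz : 1 - ρ * z k ≠ 0) (hc : Continuous z)
    (h1 : (fun h => z (k + h) - z k) =O[𝓝 0] fun h : Sp d => √‖h‖)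
    (h2 : (fun h => z (k + h) + z (k - h) - 2 * z k) =O[𝓝 0] fun h : Sp d => ‖h‖) :
    (fun h => (‖k + h‖ ^ 2 : ℝ) * (z (k + h) / (1 - ρ * z (k + h)) ^ 2) +
      (‖k - h‖ ^ 2 : ℝ) * (z (k - h) / (1 - ρ * z (k - h)) ^ 2) -
        2 * ((‖k‖ ^ 2 : ℝ) * (z k / (1 - ρ * z k) ^ 2))) =O[𝓝 0] fun h : Sp d => ‖h‖ := by
  let G : ℂ → ℂ := fun w => (1 - ρ ^ 2 * w * z k) / ((1 - ρ * w) ^ 2 * (1 - ρ * z k) ^ 2)
  have hG : DifferentiableAt ℂ G (z k) := by
    refine DifferentiableAt.div (by fun_prop) (by fun_prop) ?_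
    exact mul_ne_zero (pow_ne_zero _ hz) (pow_ne_zero _ hz)
  have t0 : Tendsto (fun h => z (k + h)) (𝓝 0) (𝓝 (z k)) :=
    (hc.comp (continuous_const.add continuous_id)).tendsto' _ _ (by simp)
  have tn : Tendsto (fun h : Sp d => -h) (𝓝 0) (𝓝 0) := continuous_neg.tendsto' _ _ neg_zero
  have a1 : (fun h => (z (k + h) - z k) * (G (z (k + h)) - G (z k))) =O[𝓝 0]
      fun h : Sp d => ‖h‖ :=
    (h1.mul ((hG.isBigO_sub.comp_tendsto t0).trans h1)).congr_right
      fun h => Real.mul_self_sqrt (norm_nonneg h)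
  have a2 : (fun h => ((‖k + h‖ ^ 2 - ‖k‖ ^ 2 : ℝ) : ℂ) * (z (k + h) / (1 - ρ * z (k + h)) ^ 2))
      =O[𝓝 0] fun h : Sp d => ‖h‖ := by
    have b1 : (fun h : Sp d => ‖k + h‖ ^ 2 - ‖k‖ ^ 2) =O[𝓝 0] fun h : Sp d => ‖h‖ := by
      have : DifferentiableAt ℝ (fun h : Sp d => ‖k + h‖ ^ 2) 0 :=
        ((differentiableAt_const k).add differentiableAt_id).norm_sq ℝ
      simpa using this.isBigO_sub.norm_right
    have b2 := (t0.div (((t0.const_mul ρ).const_sub 1).pow 2) (pow_ne_zero _ hz)).isBigO_one ℝ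
    simpa using (isBigO_ofReal_left.2 b1).mul b2
  have key : ∀ w, 1 - ρ * w ≠ 0 →
      w / (1 - ρ * w) ^ 2 = z k / (1 - ρ * z k) ^ 2 + (w - z k) * G w := fun w hw => by
    have p := pow_ne_zero 2 hz
    have q := pow_ne_zero 2 hw
    rw [← mul_div_assoc, div_add_div _ _ p (mul_ne_zero q p),
      div_eq_div_iff q (mul_ne_zero p (mul_ne_zero q p))]
    ring
  have ev := ((t0.const_mul ρ).const_sub 1).eventually_ne hz
  refine (((a2.add ((a2.comp_tendsto tn).congr_right norm_neg)).add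
    (((a1.add ((a1.comp_tendsto tn).congr_right norm_neg)).add
      (h2.const_mul_left (G (z k)))).const_mul_left ((‖k‖ ^ 2 : ℝ) : ℂ))).congr' ?_ .rfl)
  filter_upwards [ev, tn.eventually ev] with h e1 e2
  simp only [Function.comp_apply, ← sub_eq_add_neg] at e2 ⊢
  rw [key _ e1, key _ e2]
  push_cast
  ring

theorem medium_zyg {m ρ : ℝ} (hm : 0 < m) (hρ : 0 < ρ) {v : Sp d → ℝ} (hv : Admissible v) {V : ℝ}
    (hV : ∀ x, v x ≤ V) (hs : IsMediumSolution m ρ v u) {k : Sp d} (hk : k ≠ 0) :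
    (fun h => (ft v (k + h)).re + (ft v (k - h)).re - 2 * (ft v k).re) =O[𝓝 0]
      fun h : Sp d => ‖h‖ := by
  obtain ⟨w, hu, h0, h1, hae⟩ := hs.1.exists_good
  have h := hs.2.congr hae (mediumRHS_congr ρ hae)
  have hI := hv.2.2.1
  have hS := integrable_Sfun hI hu h0 h1
  have M := medium_mass_one hm hI hv.1 hv.integral_pos hk hu h0 h1 h
  have E : ∀ q, ((‖q‖ ^ 2 / m : ℝ) : ℂ) * ft w q = ft (Sfun v w) q * (1 - ρ * ft w q) ^ 2 :=
    fun q => (h.ft_eq hu (integrable_mediumRHS ρ hS hu) q).trans (ft_mediumRHS ρ hS hu q)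
  have ne : ∀ q : Sp d, q ≠ 0 → 1 - ρ * ft w q ≠ 0 := fun q hq e => by
    have e1 := E q
    rw [e, zero_pow two_ne_zero, mul_zero, mul_eq_zero] at e1
    rcases e1 with e1 | e1
    · exact (div_pos (pow_pos (norm_pos_iff.2 hq) 2) hm).ne' (by exact_mod_cast e1)
    · simp [e1] at e
  have evk : ∀ᶠ q in 𝓝 (0 : Sp d), k + q ≠ 0 :=
    ((continuous_const.add continuous_id).tendsto' 0 k (by simp)).eventually_ne hk
  have s0 : ft (Sfun v w) 0 ≠ 0 := fun e => by
    have hz : ∀ q : Sp d, ft (Sfun v w) q = 0 := fun q => by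
      have := norm_ft_le_of_nonneg (Sfun_nonneg hv.1 h1) q
      rw [ft_zero] at e
      rw [show ∫ x, Sfun v w x = 0 by exact_mod_cast e] at this
      exact norm_le_zero_iff.1 this
    have t1 : Tendsto (fun t : ℝ => ft w (t • k)) (𝓝[≠] 0) (𝓝 (ft w 0)) :=
      (((continuous_ft hu).comp (by fun_prop : Continuous fun t : ℝ => t • k)).tendsto' 0 _
        (by simp)).mono_left nhdsWithin_le_nhds
    have t2 : Tendsto (fun t : ℝ => ft w (t • k)) (𝓝[≠] 0) (𝓝 0) := by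
      refine tendsto_const_nhds.congr' ?_
      filter_upwards [self_mem_nhdsWithin] with t ht
      have e1 := E (t • k)
      rw [hz, zero_mul, mul_eq_zero] at e1
      exact (e1.resolve_left fun e2 => (div_pos (pow_pos (norm_pos_iff.2
        (smul_ne_zero ht hk)) 2) hm).ne' (by exact_mod_cast e2)).symm
    have e2 := tendsto_nhds_unique t1 t2
    rw [ft_zero] at e2
    rw [show ∫ x, w x = 0 by exact_mod_cast e2, mul_zero] at M
    exact zero_ne_one M
  have D0 : ∀ q, 0 ≤ dfc w q := fun q => sub_nonneg.2 (ft_re_le h0 q)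
  have D : dfc w =O[𝓝 0] fun q : Sp d => ‖q‖ := by
    have b1 := (((continuous_ft hu).tendsto 0).div ((continuous_ft hS).tendsto 0) s0).isBigO_one ℝ
    have b2 : (fun q : Sp d => ((‖q‖ ^ 2 / m : ℝ) : ℂ)) =O[𝓝 0] fun q : Sp d => ‖q‖ ^ 2 :=
      isBigO_ofReal_left.2 (by simpa [div_eq_inv_mul] using (isBigO_refl _ _).const_mul_left m⁻¹)
    have b3 : (fun q => (1 - ρ * ft w q) ^ 2) =O[𝓝 0] fun q : Sp d => ‖q‖ ^ 2 := by
      refine (b2.mul b1).congr' ?_ (Eventually.of_forall fun q => mul_one _)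
      filter_upwards [((continuous_ft hS).tendsto 0).eventually_ne s0] with q hq
      rw [Pi.div_apply, ← mul_div_assoc, E, mul_div_cancel_left₀ _ hq]
    refine IsBigO.trans (IsBigO.of_bound ρ⁻¹ (Eventually.of_forall fun q => ?_))
      (b3.of_pow two_ne_zero)
    rw [Real.norm_eq_abs, abs_of_nonneg (D0 q), le_inv_mul_iff₀ hρ]
    refine le_trans (le_of_eq ?_) (re_le_norm _)
    rw [dfc, mul_sub, M, sub_re, one_re, re_ofReal_mul]
  have two : ∀ {g : Sp d → ℝ} {V : ℝ}, Integrable g → (∀ x, |g x| ≤ V * w x) →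
      (fun q => ft g (k + q) + ft g (k - q) - 2 * ft g k) =O[𝓝 0] fun q : Sp d => ‖q‖ :=
    fun {g V} hg hV => (IsBigO.of_bound (2 * V) (Eventually.of_forall fun q => by
      rw [Real.norm_eq_abs, abs_of_nonneg (D0 q)]
      exact zyg_two hu hg hV k q)).trans D
  have one : (fun q => ft w (k + q) - ft w k) =O[𝓝 0] fun q : Sp d => √‖q‖ := by
    obtain ⟨C, hC⟩ := D.bound
    refine IsBigO.of_bound ((∫ x, w x) + C) (hC.mono fun q hq => ?_)
    rcases eq_or_ne q 0 with rfl | e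
    · simp
    have t := Real.sqrt_pos.2 (norm_pos_iff.2 e)
    rw [Real.norm_eq_abs, abs_of_nonneg (D0 q), norm_norm,
      ← Real.mul_self_sqrt (norm_nonneg q)] at hq
    refine (zyg_one hu h0 k q t).trans ?_
    rw [Real.norm_eq_abs, abs_of_pos t, add_mul, mul_comm]
    refine add_le_add le_rfl ((inv_mul_le_iff₀ t).2 (hq.trans_eq (by ring)))
  have A := (zyg_comp (ne k hk) (continuous_ft hu) one
    (two (V := 1) hu fun x => by rw [one_mul, abs_of_nonneg (h0 x)])).const_mul_left (m⁻¹ : ℂ)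
  have B := two (V := V) (integrable_mul_of_le_one hI hu h0 h1) fun x => by
    rw [abs_of_nonneg (mul_nonneg (h0 x) (hv.1 x)), mul_comm]
    exact mul_le_mul_of_nonneg_right (hV x) (h0 x)
  have F : ∀ q : Sp d, q ≠ 0 → ft v q = (m⁻¹ : ℂ) * ((‖q‖ ^ 2 : ℝ) *
      (ft w q / (1 - ρ * ft w q) ^ 2)) + ft (fun x => w x * v x) q := fun q hq => by
    have e := E q
    rw [ft_Sfun hI hu h0 h1] at e
    rw [← sub_eq_iff_eq_add, ← mul_assoc, ← mul_div_assoc, eq_div_iff (pow_ne_zero _ (ne q hq)),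
      ← e]
    push_cast
    ring
  refine IsBigO.trans (IsBigO.of_bound 1 ?_) (A.add B)
  filter_upwards [evk, (continuous_neg.tendsto' _ _ neg_zero).eventually evk] with q e1 e2
  rw [← sub_eq_add_neg] at e2
  refine le_trans (le_of_eq ?_) ((abs_re_le_norm _).trans_eq (one_mul _).symm)
  rw [Real.norm_eq_abs, F _ e1, F _ e2, F _ hk]
  congr 1
  simp only [add_re, sub_re, mul_add, mul_sub, two_mul]
  ring

end Pool.Agent.Lib.MP_ef05c8_mp
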